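import Pool.Agent.MP_3ce0a0_al.Q2T12.GlueA
import Pool.Agent.MP_3ce0a0_al.Q2T11.Spec

/-! The input of step 4d exists. -/

set_option autoImplicit false

namespace Pool.Agent.MP_3ce0a0_al.Q2T12

open H79 Q2T1 Q2T15 Q2T13 Q2T10

variable {α F : Type} [Group F] (ρ : H79.Out (FreeGroup α) →* H79.Out F) (L : Finset α)

/-- The inner automorphisms inside the group of lifts. -/
noncomputable def i0 : F →* EL ρ L :=
  (MulAut.conj : F →* MulAut F).codRestrict (EL ρ L) conj_mem_EL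

variable {ρ L}

theorem i0_conj (b : EL ρ L) (g : F) : b * i0 ρ L g * b⁻¹ = i0 ρ L (b.1 g) :=
  Subtype.ext (MulEquiv.ext fun x => by simp [i0])

theorem i0_inj [IsFreeGroup F] (h : ∃ g g' : F, ¬ Commute g g') :
    Function.Injective (i0 ρ L) := by
  obtain ⟨g, g', h⟩ := h
  rw [injective_iff_map_eq_one]
  intro z hz
  have key : ∀ x, Commute x z := fun x => by
    have : z * x * z⁻¹ = x := congrArg (fun a : EL ρ L => a.1 x) hz
    exact (mul_inv_eq_iff_eq_mul.1 this).symm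
  by_contra c
  exact h (Q2T4A.comm_trans c (key g) (key g').symm)

theorem multi_mem [Finite α] {P : Subgroup (H79.Out F)} {k : α × Bool → FreeGroup α}
    (hk : k ∈ KK (std (L : Set α)ᶜ) L) (h : ∀ l : α × Bool, l.1 ∈ L → ρ (tau l (k l)) ∈ P) :
    ρ (multiO (L : Set α)ᶜ k) ∈ P := by
  classical
  have := Fintype.ofFinite α
  have e : k = (Finset.univ.toList.map fun h => Pi.mulSingle h (k h)).prod := by
    rw [prod_single k Finset.univ.toList (Finset.nodup_toList _)]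
    funext h
    simp
  change k ∈ P.comap (ρ.comp (multiO (L : Set α)ᶜ))
  rw [e]
  refine list_prod_mem fun x hx => ?_
  obtain ⟨l, -, rfl⟩ := List.mem_map.1 hx
  by_cases c : l.1 ∈ L
  · change ρ (multiO _ _) ∈ P
    rw [multiO_single c (hk l).1]
    exact h l c
  · rw [(hk l).2 c, Pi.mulSingle_one]
    exact one_mem _

/-- A tree in which every orbit meets every direction has no leaf. -/
theorem no_leaf {G X : Type} [Group G] [MetricSpace X] [IsSimp X] [MulAction G X]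
    [IsIsometricSMul G X] (hn : NoInv X (⊤ : Subgroup G))
    (hm : ∀ x y z : X, y ≠ x → ∃ g : G, g • z ∈ dir x y) (v w : X) (h : dist v w = 1) :
    ∃ w', w' ≠ w ∧ dist v w' = 1 := by
  by_contra c
  have u : ∀ w', dist v w' = 1 → w' = w := fun w' a => by_contra fun b => c ⟨w', b, a⟩
  have hne : v ≠ w := fun e => by simp [e] at h
  obtain ⟨g, hg⟩ := hm w v w hne
  have e1 : g • w = v := by
    by_contra a
    obtain ⟨z, z1, z2⟩ := IsSimp.geo v (g • w) (Ne.symm a)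
    exact hg (u z z1 ▸ z2)
  have e2 : g • v = w := u _ (by rw [← e1, e1, ← h, ← dist_smul g v w, e1, dist_comm])
  exact hn g trivial v (by rw [e2, h]) (by rw [e2, e1])

theorem pre_kol [Finite α] {β : Type} [Finite β]
    {ρ : H79.Out (FreeGroup α) →* H79.Out (FreeGroup β)} {S : GT (FreeGroup β)}
    {D : Subgroup (FreeGroup α)} (hi : Function.Injective (i0 ρ L)) (h : Pre4 ρ L S D) :
    ∃ k, Q2T11.Pre k (i0 ρ L).range (i0 ρ L '' {g | Ell S.X g}) := by
  obtain ⟨k, ⟨b⟩⟩ := Finite.exists_equiv_fin β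
  let e : FreeGroup β ≃* (i0 ρ L).range := MonoidHom.ofInjective hi
  have he : ∀ g : (i0 ρ L).range, i0 ρ L (e.symm g) = g := fun g =>
    congrArg Subtype.val (e.apply_symm_apply g)
  have := S.ne
  let T : Q2T11.Tr (FreeGroup β) := { V := S.X }
  refine ⟨k, ⟨?_⟩, (Group.fg_iff_subgroup_fg _).2 EL_fg,
    ⟨e.symm.trans (FreeGroup.freeGroupCongr b)⟩, ⟨T.res e.symm.toMonoidHom, ?_, ?_, ?_⟩, ?_, ?_, ?_⟩
  · rintro _ ⟨g, rfl⟩ a
    exact ⟨_, (i0_conj a g).symm⟩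
  · exact fun g _ x => S.ni (e.symm g) trivial x
  · intro g _ x y hxy h1 h2
    exact e.symm.injective ((h.triv x y hxy (e.symm g) h1 h2).trans (map_one _).symm)
  · intro g
    rw [← he g, hi.mem_set_image]
    rfl
  · rintro _ ⟨g, -, rfl⟩
    exact ⟨g, rfl⟩
  · rintro a _ ⟨g, hg, rfl⟩
    exact ⟨_, (h.invE a a.2 g).2 hg, (i0_conj a g).symm⟩
  · rintro _ ⟨g, rfl⟩ ⟨P, hP, hf⟩
    refine ⟨g, h.qs g (qs_of_fin _ (hP.preimage hi.injOn) fun a ha => ?_), rfl⟩
    obtain ⟨_, ⟨f, rfl⟩, hf⟩ := hf ⟨a, ha⟩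
    rw [i0_conj, ← map_mul, ← map_inv, ← map_mul] at hf
    exact ⟨_, hf, isConj_iff.2 ⟨f, rfl⟩⟩

theorem h3_kol {S : GT F} {D : Subgroup (FreeGroup α)} (h : Pre4 ρ L S D)
    (U : Subgroup (EL ρ L)) (hn : U.Normal) (hf : U.relIndex (i0 ρ L).range ≠ 0) :
    Q2T11.H3 (i0 ρ L).range (i0 ρ L '' {g | Ell S.X g}) U := by
  intro b
  obtain ⟨m, hm, a, h1, h2⟩ := h.h3 (U.comap (i0 ρ L)) (hn.comap _)
    ⟨by rwa [Subgroup.index_comap]⟩ b b.2
  rw [← map_pow, eq_comm, mkOut_eq_iff] at h1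
  obtain ⟨f, hf⟩ := h1
  refine ⟨m, hm, _, ⟨f, rfl⟩, ?_⟩
  rintro _ ⟨g, rfl⟩
  have e : (((i0 ρ L f)⁻¹ * b ^ m : EL ρ L) : MulAut F) = a := by
    change (MulAut.conj f)⁻¹ * (b : MulAut F) ^ m = a
    rw [hf, inv_mul_cancel_left]
  rw [i0_conj, e, ← map_inv, ← map_mul]
  have : Subgroup.closure ({g | Ell S.X g} ∩ (U.comap (i0 ρ L) : Set F)) ≤
      (Q2T11.NN (i0 ρ L '' {g | Ell S.X g}) U).comap (i0 ρ L) := by
    rw [Subgroup.closure_le]
    exact fun x hx => Subgroup.subset_closure ⟨⟨x, hx.1, rfl⟩, hx.2⟩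
  exact this (h2 g)

theorem s4c_of (hS : Q2T9.SDL) (hT : StmtT10) (hK : Q2T11.StmtKol) (hH : HFam) (hC : SChr) :
    S4c := by
  intro α β _ _ ρ L _ hL hna
  have : Nontrivial β := by
    by_contra c
    rw [not_nontrivial_iff_subsingleton] at c
    obtain ⟨g, g', h⟩ := hna
    refine h (FreeGroup.induction_on g (Commute.one_left _) (fun x => ?_)
      (fun _ a => a.inv_left) fun _ _ a b => a.mul_left b)
    exact FreeGroup.induction_on g' (Commute.one_right _)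
      (fun y => by rw [Subsingleton.elim x y]) (fun _ a => a.inv_right) fun _ _ a b => a.mul_right b
  obtain ⟨S, D₀, h⟩ := pre4 L hS hT hH ρ hL.ge
  have hi : Function.Injective (i0 ρ L) := i0_inj hna
  obtain ⟨k, hp⟩ := pre_kol hi h
  obtain ⟨E, fi, le, T, good, triv, mini⟩ := hK _ k _ _ hp fun U _ hn hf => h3_kol h U hn hf
  let E' : Subgroup (MulAut (FreeGroup β)) := E.map (EL ρ L).subtype
  let φ : E' ≃* E := (E.equivMapOfInjective _ (EL ρ L).subtype_injective).symm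
  have hφ : ∀ a : E', ((φ a : EL ρ L) : MulAut (FreeGroup β)) = a := fun a =>
    congrArg Subtype.val (φ.symm_apply_apply a)
  have hc : ∀ g, MulAut.conj g ∈ E' := fun g => ⟨i0 ρ L g, le ⟨g, rfl⟩, rfl⟩
  let ι : FreeGroup β →* E' := (MulAut.conj : FreeGroup β →* _).codRestrict E' hc
  have hι : ∀ g, (φ (ι g) : EL ρ L) = i0 ρ L g := fun g => Subtype.ext (hφ _)
  have m1 : ∀ g, φ (ι g) ∈ (i0 ρ L).range.comap E.subtype := fun g => ⟨g, (hι g).symm⟩
  have m2 : ∀ u ∈ (i0 ρ L).range.comap E.subtype, ∃ g, φ (ι g) = u := fun u ⟨g, hg⟩ =>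
    ⟨g, Subtype.ext ((hι g).trans hg)⟩
  let T' := T.res φ.toMonoidHom
  let S' : FTree (FreeGroup β) :=
    { X := T'.V, E := E', ι := ι, coe_ι := fun _ => rfl, ne := T'.ne
      noinv := fun g _ x => good.noinv (φ g) trivial x
      edge := fun g v w hvw h1 h2 => hi (by
        rw [← hι, good.te _ (m1 g) v w hvw h1 h2, map_one]; rfl)
      fin := by
        obtain ⟨R, hR, h⟩ := good.coc.finE
        refine ⟨R, hR, fun v w hvw => ?_⟩
        obtain ⟨u, hu, h⟩ := h v w hvw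
        obtain ⟨g, rfl⟩ := m2 u hu
        exact ⟨g, h⟩
      leaf := fun v w hvw _ => no_leaf (X := T.V) good.noinv
        (fun x y z a => (mini x y z a).imp fun _ b => b.2) v w hvw }
  have ell : ∀ g, Ell S'.X (S'.ι g) ↔ Ell S.X g := fun g => by
    refine (good.ell _ (m1 g)).trans ?_
    change (φ (ι g) : EL ρ L) ∈ i0 ρ L '' _ ↔ _
    rw [hι, hi.mem_set_image]
    rfl
  let q : EL ρ L →* H79.Out (FreeGroup β) := (mkOut _).comp (EL ρ L).subtype
  let τ : α × Bool → FreeGroup α →* H79.Out (FreeGroup β) := fun l =>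
    ρ.comp ((tau l).comp (ret (L : Set α)ᶜ))
  have fP : (E.map q).relIndex q.range ≠ 0 := by
    rw [← Subgroup.index_comap]
    exact (Subgroup.finiteIndex_of_le (Subgroup.le_comap_map q E)).index_ne_zero
  have fτ : ∀ l : {l : α × Bool // l.1 ∈ L},
      ((E.map q).comap (τ l.1)).relIndex (std (L : Set α)ᶜ) ≠ 0 := by
    classical
    rintro ⟨l, hl⟩
    have : ((E.map q).comap (τ l)).FiniteIndex := by
      refine ⟨?_⟩
      rw [Subgroup.index_comap]
      refine fun c => fP (Subgroup.relIndex_eq_zero_of_le_right ?_ c)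
      rintro _ ⟨b, rfl⟩
      obtain ⟨a, ha⟩ := mkOut_surjective _ (τ l b)
      exact ⟨⟨a, mem_EL.2 ⟨_, single_mem hl (ret_mem _ b), by
        rw [multiO_single hl (ret_mem _ b), ha]; rfl⟩⟩, ha⟩
    exact Subgroup.FiniteIndex.index_ne_zero
  obtain ⟨D, hD, chr⟩ := hC α (L : Set α)ᶜ
    (D₀ ⊓ ⨅ l : {l : α × Bool // l.1 ∈ L}, (E.map q).comap (τ l.1))
    (Subgroup.relIndex_inf_ne_zero h.chr.fi (Subgroup.relIndex_iInf_ne_zero fτ))
  refine ⟨S', D, chr, fun e v => ?_, fun e v w hvw => ?_, fun k hk a ha => ?_,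
    fun g hg => (ell g).2 (h.qs g (qs_of_fix chr.fi hg)),
    fun γ hγ a ha g hg => (ell _).2 ((h.invN γ hγ a ha g).2 ((ell g).1 hg)),
    fun l hl I hI b hb hb' v hv => ?_⟩
  · obtain ⟨u, hu, h⟩ := (triv (φ e)).1 v
    obtain ⟨g, rfl⟩ := m2 u hu
    exact ⟨g, h⟩
  · obtain ⟨u, hu, h⟩ := (triv (φ e)).2 v w hvw
    obtain ⟨g, rfl⟩ := m2 u hu
    exact ⟨g, h⟩
  · obtain ⟨b, hb, e⟩ := multi_mem (ρ := ρ) (P := E.map q)
      (fun l => ⟨chr.le (hk l).1, (hk l).2⟩ : k ∈ KK (std (L : Set α)ᶜ) L) fun l hl => by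
        have : ρ (tau l (ret _ (k l))) ∈ E.map q :=
          Subgroup.mem_iInf.1 (hD (hk l).1).2 ⟨l, hl⟩
        rwa [ret_eq_self (chr.le (hk l).1)] at this
    obtain ⟨g, rfl⟩ := mkOut_eq_iff.1 (ha.trans e.symm)
    exact E'.mul_mem (hc g) ⟨b, hb, rfl⟩
  · obtain ⟨g, g', h1, h2, h3⟩ := hv
    exact h.cen l hl I hI b (hD hb).1 hb' ((MulAction.stabilizer S'.E v).comap S'.ι)
      (fun w hw => (ell w).1 ⟨v, hw⟩) ⟨g, h1, g', h2, h3⟩

end Pool.Agent.MP_3ce0a0_al.Q2T12
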