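import Pool.Agent.MP_3ce0a0_al.Q2T12.Mov

/-! Step 4d: the multitwists act as a free twist group. -/

set_option autoImplicit false

namespace Pool.Agent.MP_3ce0a0_al.Q2T12

open H79 Q2T1 Q2T15 Q2T13

noncomputable section

variable {α F : Type} [Group F] [IsFreeGroup F] {ρ : Out (FreeGroup α) →* Out F} {L : Finset α}
  {S : FTree F} {D : Subgroup (FreeGroup α)}

theorem Co.mono {r r' : ℕ} {I J : Set α} (h : Co r I J) (hr : r' ≤ r) : Co r' I J :=
  ⟨h.1, h.2.imp fun _ k => ⟨hr.trans k.1, k.2⟩⟩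

theorem comm_hom {A M : Type} [Group A] [Group M] {H : Subgroup A} {f : A → M}
    (hf : ∀ a ∈ H, ∀ b ∈ H, f (a * b) = f a * f b) (hi : ∀ a ∈ H, f a = 1 → a = 1) {a b : A}
    (ha : a ∈ H) (hb : b ∈ H) (h : Commute (f a) (f b)) : Commute a b := by
  have h1 := H.mul_mem ha hb
  have h2 := H.mul_mem hb ha
  have h3 := hf _ (H.mul_mem h1 (H.inv_mem h2)) _ h2
  rw [inv_mul_cancel_right, hf a ha b hb, hf b hb a ha, h.eq, right_eq_mul] at h3
  exact mul_inv_eq_one.1 (hi _ (H.mul_mem h1 (H.inv_mem h2)) h3)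

variable (S) in
/-- A neighbour. -/
def nb (v : S.X) : S.X := Classical.epsilon (h := ⟨v⟩) fun w => dist v w = 1

omit [IsFreeGroup F] in
theorem nb_spec (hF : ∃ g g' : F, ¬ Commute g g') {v : S.X} (hv : ¬ Nab S v) :
    dist v (nb S v) = 1 := by
  refine Classical.epsilon_spec_aux ⟨v⟩ (fun w => dist v w = 1) ?_
  obtain ⟨g, g', hg⟩ := hF
  have : ∃ x : F, S.ι x • v ≠ v := by
    by_contra hn
    push Not at hn
    exact hv ⟨g, g', hn g, hn g', hg⟩
  obtain ⟨x, hx⟩ := this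
  obtain ⟨z, hz, -⟩ := IsSimp.geo v _ hx.symm
  exact ⟨z, hz⟩

open Classical in
variable (ρ L S) in
/-- The section at a vertex. -/
def sv (v : S.X) (k : α × Bool → FreeGroup α) : S.E :=
  if Nab S v then ss S v (kp ρ L k) else tt S v (nb S v) (kp ρ L k)

omit [IsFreeGroup F] in
theorem one_kn (H : In4d ρ L S D) {h : α × Bool} (hh : h.1 ∈ L) {I : Set α}
    (hI : Co 2 I (L : Set α)ᶜ) {b : FreeGroup α} (hb : b ∈ D) (hbI : b ∈ std I) :
    one h b ∈ KN ρ L S D :=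
  ⟨one_mem_KK hh hb, fun v hv => by
    rw [kp_one hh (H.chr.le hb)]
    exact H.cen h hh I hI b hb hbI v hv⟩

omit [IsFreeGroup F] in
theorem adm_kn [Finite α] (H : In4d ρ L S D) {I : Set α} (hI : Co 2 I (L : Set α)ᶜ) :
    KK (std I ⊓ sq D) L ≤ KN ρ L S D :=
  KK_le fun _ hl _ hb => one_kn H hl hI (sq_le hb.2) hb.1

/-- Lemma K at a non-abelian vertex. -/
theorem ff_alt [Finite α] (hK : LemK) (H : In4d ρ L S D) (hZ : ZT F) (h11 : Co 11 ∅ (L : Set α)ᶜ)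
    (hD : Chr (L : Set α)ᶜ (sq D)) {v w : S.X} (hvw : dist v w = 1) (hv : Nab S v) {h : α × Bool}
    (hh : h.1 ∈ L) :
    (∀ I, Co 4 I (L : Set α)ᶜ → ∀ b ∈ sq D, b ∈ std I → ff ρ L S v w (one h b) = 1) ∨
      ∀ I, Co 4 I (L : Set α)ᶜ → ∀ b ∈ sq D, b ∈ std I → ff ρ L S v w (one h b) = 1 → b = 1 := by
  refine hK α F _ (sq D) (sq D ⊓ (KN ρ L S D).comap (one h)) (fun b => ff ρ L S v w (one h b))
    h11 hD inf_le_left (fun γ hγ b hb => ⟨hD.inv γ hγ b hb.1, ?_⟩)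
    (fun I hI b hb hbI => ⟨hb, one_kn H hh hI (sq_le hb) hbI⟩) (fun a ha b hb => ?_) ?_
  · have := KN_mv H hγ hb.2
    rwa [mv_one] at this
  · rw [map_mul, ff_mul H hZ hvw hv _ ha.2 _ hb.2]
  · obtain ⟨R, h1, h2⟩ := ff_fam H hZ hvw hv h
    exact ⟨R, h1, fun γ hγ => (h2 γ hγ).imp fun a => Exists.imp fun r hr =>
      ⟨hr.1, fun b hb => hr.2 b hb.2⟩⟩

/-- Lemma K at an abelian vertex. -/
theorem gg_one [Finite α] (hK : LemK) (H : In4d ρ L S D) (hZ : ZT F) (h11 : Co 11 ∅ (L : Set α)ᶜ)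
    (hD : Chr (L : Set α)ᶜ (sq D)) {v u w : S.X} (hvu : dist v u = 1) (hvw : dist v w = 1)
    (hv : ¬ Nab S v) {h : α × Bool} (hh : h.1 ∈ L) :
    ∀ I, Co 4 I (L : Set α)ᶜ → ∀ b ∈ sq D, b ∈ std I → gg ρ L S v u w (one h b) = 1 := by
  by_cases hv1 : ∃ g : F, g ≠ 1 ∧ S.ι g • v = v
  · have hm : ∀ a ∈ sq D, ∀ b ∈ sq D, gg ρ L S v u w (one h (a * b)) =
        gg ρ L S v u w (one h a) * gg ρ L S v u w (one h b) := fun a ha b hb => by
      rw [map_mul, gg_mul H hZ hvu hvw hv _ (one_mem_KK hh ha) _ (one_mem_KK hh hb)]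
    refine (hK α F _ (sq D) (sq D) (fun b => gg ρ L S v u w (one h b)) h11 hD le_rfl hD.inv
      (fun _ _ _ hb _ => hb) hm (gg_fam H hZ hD.inv hvu hvw hv hv1 hh)).resolve_right fun hi => ?_
    obtain ⟨I, hI, b, hb, b', hb', h1, h2, h3⟩ := ex_noncomm hD.fi h11
    refine h3 (comm_hom (H := std I ⊓ sq D) (f := fun b => gg ρ L S v u w (one h b))
      (fun x hx y hy => hm x hx.2 y hy.2) (fun x hx => hi I hI x hx.2 hx.1) ⟨h1, hb⟩ ⟨h2, hb'⟩ ?_)
    by_contra hn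
    exact hv ⟨_, _, gg_fix H hvu hvw (one_mem_KK hh (sq_le hb)),
      gg_fix H hvu hvw (one_mem_KK hh (sq_le hb')), hn⟩
  · intro I _ b hb _
    by_contra hn
    exact hv1 ⟨_, hn, gg_fix H hvu hvw (one_mem_KK hh (sq_le hb))⟩

theorem tt_fix [Finite α] (hK : LemK) (H : In4d ρ L S D) (hZ : ZT F) (h11 : Co 11 ∅ (L : Set α)ᶜ)
    (hD : Chr (L : Set α)ᶜ (sq D)) {v u w : S.X} (hvu : dist v u = 1) (hvw : dist v w = 1)
    (hv : ¬ Nab S v) {I : Set α} (hI : Co 4 I (L : Set α)ᶜ) {k : α × Bool → FreeGroup α}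
    (hk : k ∈ KK (std I ⊓ sq D) L) : tt S v u (kp ρ L k) • w = w := by
  have key : KK (std I ⊓ sq D) L ≤ kerOn _ _ (gg_mul H hZ hvu hvw hv) :=
    KK_le fun l hl b hb => ⟨one_mem_KK hl hb.2, gg_one hK H hZ h11 hD hvu hvw hv hl I hI b hb.2 hb.1⟩
  have h1 := KK_mono sq_le (key hk).1
  have h2 := eq_iota_mul (dif_spec (gg_out H hvu hvw h1))
  have h3 : dif (tt S v w (kp ρ L k) : MulAut F) (tt S v u (kp ρ L k)) = 1 := (key hk).2
  rw [h3, map_one, one_mul] at h2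
  rw [← h2]
  exact (tt_spec H.trivE hvw (kp_mem H h1)).2.2

/-- Step 4d. -/
theorem s4d (hK : LemK) (hq : SSq) : S4d := by
  intro α F _ _ _ ρ L S D hα hL hF H
  have hZ := zt_of hF
  have h11 := co_empty hα hL
  have hD : Chr (L : Set α)ᶜ (sq D) := chr_sq hq H.chr
  have co : ∀ I, Adm L I → Co 4 (I : Set α) (L : Set α)ᶜ := fun I hI => co_of_adm hα hL hI
  have kn : ∀ I, Adm L I → KK (sf I ⊓ sq D) L ≤ KN ρ L S D :=
    fun I hI => adm_kn H ((co I hI).mono (by norm_num))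
  have kk : ∀ I : Finset α, KK (sf I ⊓ sq D) L ≤ KK (sq D) L := fun I => KK_mono inf_le_right
  let Y : FT0 ρ L :=
    { toFTree := S
      D := sq D
      σ := sv ρ L S
      hD := fun I hI e => hD.fi (Subgroup.relIndex_eq_zero_of_le_right (std_mono (co I hI).1) e)
      lift := fun I hI k hk v => by
        unfold sv
        split_ifs with hv
        · exact (ss_kn H hv (kn I hI hk)).1
        · exact (tt_spec H.trivE (nb_spec hF hv) (kp_mem H (kn I hI hk).1)).1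
      fix := fun I hI k hk v => by
        unfold sv
        split_ifs with hv
        · exact ss_fix H hv (kn I hI hk)
        · exact (tt_spec H.trivE (nb_spec hF hv) (kp_mem H (kn I hI hk).1)).2.1
      cen := fun I hI k hk v g hg => by
        unfold sv
        split_ifs with hv
        · exact (ss_kn H hv (kn I hI hk)).2 g hg
        · exact tt_cen H (nb_spec hF hv) hv (kk I hk) g hg }
  refine ⟨{ toFT0 := Y, alt := fun v w hvw => ?_ }⟩
  by_cases hv : Nab S v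
  swap
  · refine Or.inl fun I hI k hk => ?_
    change sv ρ L S v k • w = w
    rw [sv, if_neg hv]
    exact tt_fix hK H hZ h11 hD (nb_spec hF hv) hvw hv (co I hI) hk
  have hm := ff_mul H hZ hvw hv
  have hσ : ∀ k, Y.σ v k = ss S v (kp ρ L k) := fun k => if_pos hv
  by_cases hp : ∃ h : α × Bool, h.1 ∈ L ∧ ∀ I, Co 4 I (L : Set α)ᶜ → ∀ b ∈ sq D, b ∈ std I →
      ff ρ L S v w (one h b) = 1 → b = 1
  · obtain ⟨h, hh, hi⟩ := hp
    have o1 : ∀ {l : α × Bool}, l.1 ∈ L → ∀ {I : Set α}, Co 4 I (L : Set α)ᶜ →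
        ∀ b ∈ std I ⊓ sq D, one l b ∈ KN ρ L S D :=
      fun hl _ hI b hb => one_kn H hl (hI.mono (by norm_num)) (sq_le hb.2) hb.1
    have hm1 : ∀ {I : Set α}, Co 4 I (L : Set α)ᶜ → ∀ a ∈ std I ⊓ sq D, ∀ b ∈ std I ⊓ sq D,
        ff ρ L S v w (one h (a * b)) = ff ρ L S v w (one h a) * ff ρ L S v w (one h b) :=
      fun hI a ha b hb => by rw [map_mul, hm _ (o1 hh hI a ha) _ (o1 hh hI b hb)]
    have triv : ∀ l : α × Bool, l ≠ h → ∀ c, one l c ∈ KN ρ L S D →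
        ff ρ L S v w (one l c) = 1 := by
      intro l hl c hc
      obtain ⟨I, hI, b, hb, b', hb', h1, h2, h3⟩ := ex_noncomm hD.fi h11
      have cm : ∀ x ∈ std I ⊓ sq D, Commute (ff ρ L S v w (one l c)) (ff ρ L S v w (one h x)) :=
        fun x hx => by
          rw [Commute, SemiconjBy, ← hm _ hc _ (o1 hh hI x hx), ← hm _ (o1 hh hI x hx) _ hc,
            (one_commute hl c x).eq]
      exact Q2T4A.eq_one_of_comm (fun k => h3 (comm_hom (H := std I ⊓ sq D)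
        (f := fun b => ff ρ L S v w (one h b)) (hm1 hI) (fun x hx => hi I hI x hx.2 hx.1)
        ⟨h1, hb⟩ ⟨h2, hb'⟩ k)) (cm b ⟨h1, hb⟩) (cm b' ⟨h2, hb'⟩)
    refine Or.inr ⟨h, fun b => ff ρ L S v w (one h b), hvw, hh, fun I hI => hm1 (co I hI),
      fun I hI a ha => hi _ (co I hI) a ha.2 ha.1,
      fun I hI a ha => ff_fix H hvw hv (o1 hh (co I hI) a ha), fun I hI k hk => ?_⟩
    have k1 := o1 hh (co I hI) _ (hk h).1
    have k2 : (one h (k h))⁻¹ * k ∈ kerOn _ _ hm := mem_of_one fun l => by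
      by_cases e : l = h
      · rw [e, Pi.mul_apply, Pi.inv_apply, one_same, inv_mul_cancel, map_one]
        exact one_mem _
      · rw [Pi.mul_apply, Pi.inv_apply, one_ne e, inv_one, one_mul]
        by_cases e' : l.1 ∈ L
        · exact ⟨o1 e' (co I hI) _ (hk l).1, triv l e _ (o1 e' (co I hI) _ (hk l).1)⟩
        · rw [(hk l).2 e', map_one]
          exact one_mem _
    have k3 := hm _ k1 _ k2.1
    rw [mul_inv_cancel_left, k2.2, mul_one] at k3
    rw [hσ, ← k3]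
    exact ff_tfix H hvw hv (kn I hI hk)
  · refine Or.inl fun I hI k hk => ?_
    have key : KK (sf I ⊓ sq D) L ≤ kerOn _ _ hm := KK_le fun l hl b hb =>
      ⟨kn I hI (one_mem_KK hl hb), (ff_alt hK H hZ h11 hD hvw hv hl).resolve_right
        (fun k => hp ⟨l, hl, k⟩) _ (co I hI) b hb.2 hb.1⟩
    have k3 := ff_tfix H hvw hv (kn I hI hk)
    rw [(key hk).2, map_one, one_mul] at k3
    rw [hσ]
    exact k3

end

end Pool.Agent.MP_3ce0a0_al.Q2T12
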