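import Pool.Agent.MP_3ce0a0_al.Q2T13.Defs

/-! Block T12: the statements (Lemma H', Lemma K, step 4d and its input). -/

set_option autoImplicit false

namespace Pool.Agent.MP_3ce0a0_al.Q2T12

open H79 Q2T1 Q2T15 Q2T13

section Defs

variable {α : Type}

/-- `I` is contained in `J` and misses at least `r` letters of `J`. -/
def Co (r : ℕ) (I J : Set α) : Prop :=
  I ⊆ J ∧ ∃ S : Finset α, r ≤ S.card ∧ (S : Set α) ⊆ J ∧ Disjoint (S : Set α) I

/-- `D` is invariant under the automorphisms of the standard factor on `J`. -/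
def NInv (J : Set α) (D : Subgroup (FreeGroup α)) : Prop := ∀ γ ∈ NA J, ∀ b ∈ D, γ b ∈ D

/-- `D` is an invariant subgroup of finite index of the standard factor on `J`. -/
structure Chr (J : Set α) (D : Subgroup (FreeGroup α)) : Prop where
  le : D ≤ std J
  fi : D.relIndex (std J) ≠ 0
  inv : NInv J D

variable {F : Type} [Group F]

/-- The input of step 4d: the tree given by the Kolchin type proposition. -/
structure In4d (ρ : Out (FreeGroup α) →* Out F) (L : Finset α) (S : FTree F)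
    (D : Subgroup (FreeGroup α)) : Prop where
  chr : Chr (L : Set α)ᶜ D
  trivV : ∀ (e : S.E) (v : S.X), ∃ g : F, S.ι g • v = e • v
  trivE : ∀ (e : S.E) (v w : S.X), dist v w = 1 → ∃ g : F, S.ι g • v = e • v ∧ S.ι g • w = e • w
  mem : ∀ k ∈ KK D L, ∀ a : MulAut F, mkOut F a = ρ (multiO (L : Set α)ᶜ k) → a ∈ S.E
  per : ∀ g : F, (∀ k ∈ KK D L, ∃ a : MulAut F, mkOut F a = ρ (multiO (L : Set α)ᶜ k) ∧ a g = g) →
    Ell S.X (S.ι g)
  inv : ∀ γ ∈ NA (L : Set α)ᶜ, ∀ a : MulAut F, mkOut F a = ρ (mkOut _ γ) →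
    ∀ g : F, Ell S.X (S.ι g) → Ell S.X (S.ι (a g))
  cen : ∀ h : α × Bool, h.1 ∈ L → ∀ I, Co 2 I (L : Set α)ᶜ → ∀ b ∈ D, b ∈ std I → ∀ v : S.X,
    (∃ g g' : F, S.ι g • v = v ∧ S.ι g' • v = v ∧ ¬ Commute g g') →
    ∃ a : MulAut F, mkOut F a = ρ (tau h b) ∧ ∀ g : F, S.ι g • v = v → a g = g

end Defs

/-- Lemma H' for a finite invariant family of integer valued characters. -/
def HFam : Prop := ∀ (α : Type) [Finite α] (J : Set α) (D : Subgroup (FreeGroup α))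
  (Θ : Set (FreeGroup α → ℤ)), Chr J D → Θ.Finite →
  (∀ θ ∈ Θ, ∀ a ∈ D, ∀ b ∈ D, θ (a * b) = θ a + θ b) →
  (∀ γ ∈ NA J, ∀ θ ∈ Θ, ∃ θ' ∈ Θ, ∀ b ∈ D, θ' (γ b) = θ b) →
  ∀ θ ∈ Θ, ∀ I, Co 2 I J → ∀ b ∈ D, b ∈ std I → θ b = 0

/-- Lemma K. -/
def LemK : Prop := ∀ (α F : Type) [Finite α] [Group F] [IsFreeGroup F] (J : Set α)
  (D Bb : Subgroup (FreeGroup α)) (f : FreeGroup α → F), Co 11 ∅ J → Chr J D → Bb ≤ D →
  NInv J Bb → (∀ I, Co 2 I J → ∀ b ∈ D, b ∈ std I → b ∈ Bb) →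
  (∀ a ∈ Bb, ∀ b ∈ Bb, f (a * b) = f a * f b) →
  (∃ R : Set (FreeGroup α → F), R.Finite ∧
    ∀ γ ∈ NA J, ∃ a : MulAut F, ∃ r ∈ R, ∀ b ∈ Bb, a (f b) = r (γ b)) →
  (∀ I, Co 4 I J → ∀ b ∈ D, b ∈ std I → f b = 1) ∨
    ∀ I, Co 4 I J → ∀ b ∈ D, b ∈ std I → f b = 1 → b = 1

/-- Every subgroup of finite index contains an invariant one. -/
def SChr : Prop := ∀ (α : Type) [Finite α] (J : Set α) (H : Subgroup (FreeGroup α)),
  H.relIndex (std J) ≠ 0 → ∃ D, D ≤ H ∧ Chr J D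

/-- The subgroup generated by the squares has finite index. -/
def SSq : Prop := ∀ (G : Type) [Group G] (D : Subgroup G), D.FG →
  (Subgroup.closure {x | ∃ b ∈ D, x = b * b}).relIndex D ≠ 0

/-- Step 4d. -/
def S4d : Prop := ∀ (α F : Type) [Fintype α] [Group F] [IsFreeGroup F]
  (ρ : Out (FreeGroup α) →* Out F) (L : Finset α) (S : FTree F) (D : Subgroup (FreeGroup α)),
  15 ≤ Fintype.card α → L.card = 4 → (∃ g g' : F, ¬ Commute g g') → In4d ρ L S D →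
  Nonempty (FT ρ L)

/-- Sections 1 to 4c: the input of step 4d exists. -/
def S4c : Prop := ∀ (α β : Type) [Fintype α] [Finite β]
  (ρ : Out (FreeGroup α) →* Out (FreeGroup β)) (L : Finset α),
  15 ≤ Fintype.card α → L.card = 4 → (∃ g g' : FreeGroup β, ¬ Commute g g') →
  ∃ (S : FTree (FreeGroup β)) (D : Subgroup (FreeGroup α)), In4d ρ L S D

end Pool.Agent.MP_3ce0a0_al.Q2T12
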