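import Pool.Agent.MP_3ce0a0_al.Q2T12.HP
import Pool.Agent.MP_3ce0a0_al.Q2T12.Spec
import Pool.Agent.MP_3ce0a0_al.Q2T15.G
import Pool.Agent.MP_3ce0a0_al.Q2T15.Ext

/-!
The vanishing lemma for twists inside a standard factor.
-/

set_option autoImplicit false

namespace Pool.Agent.MP_3ce0a0_al.Q2T12

open Pool.Agent.MP_3ce0a0_al.Q2T15

variable {α : Type} {R : Type} [CommRing R] [LinearOrder R] [IsStrictOrderedRing R]

/-- `M` is normalised by `B`. -/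
def NormBy {A : Type} [Group A] (B M : Subgroup A) : Prop := ∀ g ∈ B, ∀ u ∈ M, g * u * g⁻¹ ∈ M

theorem NormBy.mono {A : Type} [Group A] {B B' M : Subgroup A} (h : NormBy B M) (k : B' ≤ B) :
    NormBy B' M := fun g hg => h g (k hg)

theorem NormBy.inf {A : Type} [Group A] {B M : Subgroup A} (h : NormBy B M) :
    NormBy B (M ⊓ B) := fun g hg u hu =>
  ⟨h g hg u hu.1, B.mul_mem (B.mul_mem hg hu.2) (B.inv_mem hg)⟩

/-- The vanishing lemma relative to a subgroup. -/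
theorem hp_rel {A : Type} [Group A] {B N : Subgroup A} (hle : N ≤ B) (hN : NormBy B N)
    (hi : N.relIndex B ≠ 0) {θ : A → R} (hθ : AddOn N θ) {p q d : A} (hp : p ∈ B) (hq : q ∈ B)
    (hd : d ∈ N) (γ₁ γ₂ γ₃ : MulAut A) (m₁ : ∀ w ∈ B, γ₁ w * w⁻¹ ∈ N)
    (m₂ : ∀ w ∈ B, γ₂ w * w⁻¹ ∈ N) (m₃ : ∀ w ∈ B, γ₃ w * w⁻¹ ∈ N)
    (i₁ : ∀ u ∈ N, θ (γ₁ u) = θ u) (i₂ : ∀ u ∈ N, θ (γ₂ u) = θ u) (i₃ : ∀ u ∈ N, θ (γ₃ u) = θ u)
    (p₁ : γ₁ p = p * d) (q₁ : γ₁ q = q) (p₂ : γ₂ p = d * p) (q₂ : γ₂ q = q) (q₃ : γ₃ q = d * q)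
    {g : A} (hg : g ∈ B) : θ (g * d * g⁻¹) = 0 := by
  have : (N.subgroupOf B).Normal := ⟨fun u hu x => hN x x.2 u hu⟩
  have : (N.subgroupOf B).FiniteIndex := ⟨hi⟩
  have hr : ∀ γ : MulAut A, (∀ w ∈ B, γ w * w⁻¹ ∈ N) → ∃ δ : B →* B, ∀ w : B, (δ w : A) = γ w :=
    fun γ m => ⟨(γ.toMonoidHom.comp B.subtype).codRestrict _ fun w => by
      simpa using B.mul_mem (hle (m w w.2)) w.2, fun _ => rfl⟩
  obtain ⟨δ₁, e₁⟩ := hr γ₁ m₁
  obtain ⟨δ₂, e₂⟩ := hr γ₂ m₂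
  obtain ⟨δ₃, e₃⟩ := hr γ₃ m₃
  have hm : ∀ (γ : MulAut A) (δ : B →* B), (∀ w : B, (δ w : A) = γ w) →
      (∀ w ∈ B, γ w * w⁻¹ ∈ N) → ∀ w, δ w * w⁻¹ ∈ N.subgroupOf B := fun γ δ e m w => by
    rw [Subgroup.mem_subgroupOf, Subgroup.coe_mul, e]; exact m w w.2
  exact hp_abs (N.subgroupOf B) (θ := fun u => θ u) (fun u hu v hv => hθ _ hu _ hv)
    (p := ⟨p, hp⟩) (q := ⟨q, hq⟩) (d := ⟨d, hle hd⟩) hd δ₁ δ₂ δ₃ (hm _ _ e₁ m₁) (hm _ _ e₂ m₂)
    (hm _ _ e₃ m₃) (fun u hu => by rw [e₁]; exact i₁ u hu) (fun u hu => by rw [e₂]; exact i₂ u hu)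
    (fun u hu => by rw [e₃]; exact i₃ u hu) (Subtype.ext ((e₁ _).trans p₁))
    (Subtype.ext ((e₁ _).trans q₁)) (Subtype.ext ((e₂ _).trans p₂))
    (Subtype.ext ((e₂ _).trans q₂)) (Subtype.ext ((e₃ _).trans q₃)) ⟨g, hg⟩

/-- A twist by an element of a normal subgroup is trivial modulo the subgroup. -/
theorem tw_mul_inv_mem {I : Set α} {M : Subgroup (FreeGroup α)} (hM : NormBy (std I) M)
    (h : α × Bool) {b : FreeGroup α} (hb : b ∈ M) (hb' : b ∈ std ({h.1}ᶜ : Set α))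
    {w : FreeGroup α} (hw : w ∈ std I) : tw h b w * w⁻¹ ∈ M := by
  induction hw using Subgroup.closure_induction with
  | mem x hx =>
    obtain ⟨x, hx, rfl⟩ := hx
    obtain ⟨y, s⟩ := h
    by_cases e : x = y
    · subst e
      cases s
      · rw [tw_false hb', mul_inv_cancel_right]; exact M.inv_mem hb
      · rw [tw_true hb']; exact hM _ (of_mem_std hx) _ hb
    · rw [tw_of_ne _ _ e, mul_inv_cancel]; exact M.one_mem
  | one => simp [M.one_mem]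
  | mul x y hx _ ihx ihy =>
    rw [show tw h b (x * y) * (x * y)⁻¹ = tw h b x * x⁻¹ * (x * (tw h b y * y⁻¹) * x⁻¹) by
      rw [map_mul]; group]
    exact M.mul_mem ihx (hM _ hx _ ihy)
  | inv x hx ih =>
    rw [show tw h b x⁻¹ * x⁻¹⁻¹ = x⁻¹ * (tw h b x * x⁻¹)⁻¹ * x⁻¹⁻¹ by rw [map_inv]; group]
    exact hM _ ((std I).inv_mem hx) _ (M.inv_mem ih)

theorem tw_mem_of {I : Set α} {M : Subgroup (FreeGroup α)} (hM : NormBy (std I) M)
    (h : α × Bool) {b : FreeGroup α} (hb : b ∈ M) (hb' : b ∈ std ({h.1}ᶜ : Set α))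
    {w : FreeGroup α} (hw : w ∈ std I) (hw' : w ∈ M) : tw h b w ∈ M := by
  simpa using M.mul_mem (tw_mul_inv_mem hM h hb hb' hw) hw'

/-- The vanishing lemma in a standard factor: a character of a normal subgroup of finite index
that is fixed by a power of every twist by an element of the subgroup vanishes on the conjugates
of the words that omit two letters. -/
theorem hp_tw {I : Set α} {N : Subgroup (FreeGroup α)} (hle : N ≤ std I) (hN : NormBy (std I) N)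
    (hi : N.relIndex (std I) ≠ 0) {θ : FreeGroup α → R} (hθ : AddOn N θ)
    {p q : α} (hp : p ∈ I) (hq : q ∈ I) (hpq : p ≠ q) {d : FreeGroup α} (hd : d ∈ N)
    (hd' : d ∈ std ({p, q}ᶜ : Set α))
    (hv : ∀ h : α × Bool, h.1 = p ∨ h.1 = q → ∀ b ∈ Subgroup.zpowers d,
      ∃ k : ℕ, 0 < k ∧ ∀ u ∈ N, θ (tw h (b ^ k) u) = θ u)
    {g : FreeGroup α} (hg : g ∈ std I) : θ (g * d * g⁻¹) = 0 := by
  have dp : d ∈ std ({p}ᶜ : Set α) := std_mono (by intro x hx e; exact hx (Or.inl e)) hd'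
  have dq : d ∈ std ({q}ᶜ : Set α) := std_mono (by intro x hx e; exact hx (Or.inr e)) hd'
  have key : ∀ h : α × Bool, h.1 = p ∨ h.1 = q → ∀ b ∈ Subgroup.zpowers d,
      ∃ k : ℕ, 0 < k ∧ ∀ n, k ∣ n → ∀ u ∈ N, θ (tw h (b ^ n) u) = θ u := fun h hh b hb => by
    obtain ⟨k, hk, H⟩ := hv h hh b hb
    have bN : b ∈ N := Subgroup.zpowers_le.2 hd hb
    have bh : b ∈ std ({h.1}ᶜ : Set α) := by
      rcases hh with e | e <;> rw [e]
      · exact Subgroup.zpowers_le.2 dp hb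
      · exact Subgroup.zpowers_le.2 dq hb
    refine ⟨k, hk, ?_⟩
    rintro _ ⟨j, rfl⟩
    induction j with
    | zero => simp
    | succ j ih =>
      intro u hu
      rw [mul_add, mul_one, pow_add, map_mul, MulAut.mul_apply,
        ih _ (tw_mem_of hN h (N.pow_mem bN k) (Subgroup.pow_mem _ bh k) (hle hu) hu), H u hu]
  obtain ⟨k₁, l₁, h₁⟩ := key (p, true) (Or.inl rfl) d (Subgroup.mem_zpowers d)
  obtain ⟨k₂, l₂, h₂⟩ := key (p, false) (Or.inl rfl) d⁻¹ (inv_mem (Subgroup.mem_zpowers d))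
  obtain ⟨k₃, l₃, h₃⟩ := key (q, false) (Or.inr rfl) d⁻¹ (inv_mem (Subgroup.mem_zpowers d))
  obtain ⟨n, hn⟩ : ∃ n, n = k₁ * k₂ * k₃ := ⟨_, rfl⟩
  have n0 : 0 < n := hn ▸ mul_pos (mul_pos l₁ l₂) l₃
  have e₁ := h₁ n ⟨k₂ * k₃, by rw [hn]; ring⟩
  have e₂ := h₂ n ⟨k₁ * k₃, by rw [hn]; ring⟩
  have e₃ := h₃ n ⟨k₁ * k₂, by rw [hn]; ring⟩
  have dn := N.pow_mem hd n
  have dn' := N.pow_mem (N.inv_mem hd) n
  have pn := Subgroup.pow_mem _ dp n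
  have pn' := Subgroup.pow_mem _ (inv_mem dp) n
  have qn' := Subgroup.pow_mem _ (inv_mem dq) n
  have := hp_rel hle hN hi hθ (of_mem_std hp) (of_mem_std hq) dn (tw (p, true) (d ^ n))
    (tw (p, false) (d⁻¹ ^ n)) (tw (q, false) (d⁻¹ ^ n))
    (fun w hw => tw_mul_inv_mem hN (p, true) dn pn hw)
    (fun w hw => tw_mul_inv_mem hN (p, false) dn' pn' hw)
    (fun w hw => tw_mul_inv_mem hN (q, false) dn' qn' hw) e₁ e₂ e₃ (tw_true pn)
    (tw_of_ne (p, true) _ hpq.symm) (by rw [tw_false pn', inv_pow, inv_inv])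
    (tw_of_ne (p, false) _ hpq.symm) (by rw [tw_false qn', inv_pow, inv_inv]) hg
  rw [← conj_pow, hθ.pow (hN g hg d hd)] at this
  exact (mul_eq_zero.1 this).resolve_left (by exact_mod_cast n0.ne')

/-- The vanishing lemma for a finite family of characters that is permuted by the twists. -/
theorem hp_tw_fam {I : Set α} {N : Subgroup (FreeGroup α)} (hle : N ≤ std I)
    (hN : NormBy (std I) N) (hi : N.relIndex (std I) ≠ 0) {Θ : Set (FreeGroup α → R)}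
    (hΘ : Θ.Finite) (ha : ∀ θ ∈ Θ, AddOn N θ)
    (hv : ∀ h : α × Bool, h.1 ∈ I → ∀ b ∈ N, b ∈ std ({h.1}ᶜ : Set α) →
      ∀ θ ∈ Θ, ∃ θ' ∈ Θ, ∀ u ∈ N, θ' (tw h b u) = θ u)
    {p q : α} (hp : p ∈ I) (hq : q ∈ I) (hpq : p ≠ q) {d : FreeGroup α} (hd : d ∈ N)
    (hd' : d ∈ std ({p, q}ᶜ : Set α)) {θ : FreeGroup α → R} (hθ : θ ∈ Θ)
    {g : FreeGroup α} (hg : g ∈ std I) : θ (g * d * g⁻¹) = 0 := by
  have dp : d ∈ std ({p}ᶜ : Set α) := std_mono (by intro x hx e; exact hx (Or.inl e)) hd'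
  have dq : d ∈ std ({q}ᶜ : Set α) := std_mono (by intro x hx e; exact hx (Or.inr e)) hd'
  refine hp_tw hle hN hi (ha θ hθ) hp hq hpq hd hd' (fun h hh b hb => ?_) hg
  have bN : b ∈ N := Subgroup.zpowers_le.2 hd hb
  have bh : b ∈ std ({h.1}ᶜ : Set α) := by
    rcases hh with e | e <;> rw [e]
    · exact Subgroup.zpowers_le.2 dp hb
    · exact Subgroup.zpowers_le.2 dq hb
  have hI : h.1 ∈ I := by rcases hh with e | e <;> rw [e] <;> assumption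
  have m : ∀ u, tw h b u ∈ N ↔ u ∈ N := fun u => by
    refine ⟨fun k => ?_, fun k => tw_mem_of hN h bN bh (hle k) k⟩
    have := tw_mem_of hN h (N.inv_mem bN) (inv_mem bh) (hle k) k
    rwa [← MulAut.mul_apply, ← map_mul, inv_mul_cancel, map_one, MulAut.one_apply] at this
  obtain ⟨k, hk, H⟩ := ex_pow_fam N hΘ (tw h b) m (hv h hI b bN bh) hθ
  exact ⟨k, hk, fun u hu => by rw [map_pow]; exact H u hu⟩

theorem NInv.normBy {J : Set α} {D : Subgroup (FreeGroup α)} (h : NInv J D) (hle : D ≤ std J) :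
    NormBy (std J) D := fun g hg u hu => by
  have := h _ (innA_mem_NA ⟨g, hg⟩) u hu
  rwa [innA_apply _ (hle hu)] at this

theorem Co.ex_two {I J : Set α} (h : Co 2 I J) :
    ∃ p q, p ∈ J ∧ q ∈ J ∧ p ≠ q ∧ I ⊆ ({p, q}ᶜ : Set α) := by
  obtain ⟨-, S, h1, h2, h3⟩ := h
  obtain ⟨p, hp, q, hq, hpq⟩ := Finset.one_lt_card.1 h1
  refine ⟨p, q, h2 hp, h2 hq, hpq, ?_⟩
  rintro x hx (rfl | rfl)
  · exact Set.disjoint_left.1 h3 hp hx
  · exact Set.disjoint_left.1 h3 hq hx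

theorem hFam : HFam := by
  intro α _ J D Θ hD hΘ ha hv θ hθ I hI b hb hb'
  obtain ⟨p, q, hp, hq, hpq, hI'⟩ := hI.ex_two
  have := hp_tw_fam hD.le (hD.inv.normBy hD.le) hD.fi hΘ ha
    (fun h hh c hc _ => hv _ (tw_mem_NA hh (hD.le hc))) hp hq hpq hb (std_mono hI' hb') hθ
    (one_mem _)
  simpa using this

end Pool.Agent.MP_3ce0a0_al.Q2T12
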