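import Pool.Agent.MP_3ce0a0_al.Q2T12.KC
import Pool.Agent.MP_3ce0a0_al.Q2T12.HPT

/-! Lemma K, parts (a) and (b), and the assembly. -/

set_option autoImplicit false

namespace Pool.Agent.MP_3ce0a0_al.Q2T12.KC

open H79 Q2T15 Q2T4A

variable {α F : Type} [Group F] {J : Set α} {D Bb : Subgroup (FreeGroup α)}
  {f : FreeGroup α → F}

theorem co_mono {r r' : ℕ} {I : Set α} (h : Co r I J) (hr : r' ≤ r) : Co r' I J :=
  ⟨h.1, h.2.imp fun _ hs => ⟨hr.trans hs.1, hs.2⟩⟩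

theorem co_fin (h11 : Co 11 ∅ J) (I : Finset α) (hI : (I : Set α) ⊆ J) {r : ℕ}
    (hr : r + I.card ≤ 11) : Co r (I : Set α) J := by
  classical
  obtain ⟨-, T, h1, h2, -⟩ := h11
  refine ⟨hI, T \ I, ?_, fun x hx => h2 (Finset.mem_sdiff.1 hx).1,
    Set.disjoint_left.2 fun x hx => (Finset.mem_sdiff.1 hx).2⟩
  have := Finset.le_card_sdiff I T
  omega

theorem chr_inf (hD : Chr J D) {I : Set α} (hI : I ⊆ J) : Chr I (D ⊓ std I) :=
  ⟨inf_le_right, by
    rw [Subgroup.inf_relIndex_right]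
    exact fun e => hD.fi (Subgroup.relIndex_eq_zero_of_le_right (std_mono hI) e),
    fun γ hγ b hb => ⟨hD.inv γ (NA_mono hI hγ) b hb.1, NA_mem hγ hb.2⟩⟩

/-- Lemma K, part (a). -/
theorem KD.ab [Finite α] [IsFreeGroup F] (K : KD J Bb f) (hD : Chr J D) {I₀ : Set α}
    (hI : I₀ ⊆ J) (hB : D ⊓ std I₀ ≤ Bb) {g : FreeGroup α} (hg : g ∈ std J)
    (hab : ¬ NonAb ((K.ψ g).comp (Subgroup.inclusion hB))) {I : Set α} (hco : Co 2 I I₀)
    {b : FreeGroup α} (hb : b ∈ D) (hbI : b ∈ std I) : f (g * b * g⁻¹) = 1 := by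
  classical
  by_contra hx
  have hc := chr_inf hD hI
  have hb0 : b ∈ D ⊓ std I₀ := ⟨hb, std_mono hco.1 hbI⟩
  obtain ⟨r, hr, -, hr'⟩ := ex_maxCyc hx
  have hz : ∀ x ∈ D ⊓ std I₀, ∃ n : ℤ, f (g * x * g⁻¹) = r ^ n := fun x hx' => by
    have : Commute (f (g * x * g⁻¹)) (f (g * b * g⁻¹)) := by
      by_contra hn
      exact hab ⟨⟨x, hx'⟩, ⟨b, hb0⟩, by
        rwa [MonoidHom.comp_apply, MonoidHom.comp_apply, K.ψ_apply hg, K.ψ_apply hg]⟩
    obtain ⟨n, hn⟩ := Subgroup.mem_zpowers_iff.1 ((hr' _).1 this)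
    exact ⟨n, hn.symm⟩
  let Θ : Set (FreeGroup α → ℤ) := {θ | ∃ δ ∈ NA I₀,
    (∀ x ∈ D ⊓ std I₀, f (g * δ x * g⁻¹) = r ^ θ x) ∧ ∀ x, x ∉ D ⊓ std I₀ → θ x = 0}
  have hfin : Θ.Finite := by
    obtain ⟨R, hR, h⟩ := K.fin
    let P : (FreeGroup α → F) → Set (FreeGroup α → ℤ) := fun r₀ => {θ | (∃ c, MaxCyc c ∧
      ∀ x ∈ D ⊓ std I₀, r₀ x = c ^ θ x) ∧ (∃ x ∈ D ⊓ std I₀, θ x ≠ 0) ∧
      ∀ x, x ∉ D ⊓ std I₀ → θ x = 0}
    refine (hR.biUnion (t := P) fun r₀ _ => ?_).subset ?_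
    · rcases (P r₀).eq_empty_or_nonempty with e | ⟨θ₀, ⟨c₀, m₀, e₀⟩, ⟨y, hy, hy'⟩, z₀⟩
      · rw [e]
        exact Set.finite_empty
      refine (Set.toFinite {θ₀, -θ₀}).subset ?_
      rintro θ ⟨⟨c, m, e⟩, -, z⟩
      have e1 : c ^ θ y = c₀ ^ θ₀ y := (e y hy).symm.trans (e₀ y hy)
      have h0 : θ y ≠ 0 := fun h0 => zpow_ne_one m₀.1 hy' (by rw [← e1, h0, zpow_zero])
      have cm : Commute c c₀ := (comm_zpow_iff h0 hy').1 (by rw [e1])
      rcases m.eq_or m₀ cm with e2 | e2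
      · left
        funext x
        by_cases hx' : x ∈ D ⊓ std I₀
        · exact zpow_inj m.1 ((e x hx').symm.trans ((e₀ x hx').trans (by rw [e2])))
        · rw [z x hx', z₀ x hx']
      · right
        funext x
        by_cases hx' : x ∈ D ⊓ std I₀
        · exact zpow_inj m.1 ((e x hx').symm.trans ((e₀ x hx').trans (by simp [e2])))
        · rw [z x hx', Pi.neg_apply, z₀ x hx', neg_zero]
    · rintro θ ⟨δ, hδ, e, z⟩
      obtain ⟨a, r₀, hr₀, ha⟩ := h _ (inv_mem (mul_mem (innA_mem_NA ⟨g, hg⟩) (NA_mono hI hδ)))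
      refine Set.mem_biUnion hr₀ ⟨⟨a r, hr.map a, fun x hx' => ?_⟩,
        ⟨δ⁻¹ b, hc.inv _ (inv_mem hδ) b hb0, fun h0 => hx ?_⟩, z⟩
      · have h1 := hB (hc.inv δ hδ x hx')
        have h2 := ha _ (K.conj_mem hg h1)
        rw [e x hx', map_zpow, ← innA_apply ⟨g, hg⟩ (K.le h1),
          ← MulAut.mul_apply _ (innA J ⟨g, hg⟩) δ, MulAut.inv_apply_self] at h2
        exact h2.symm
      · have := e _ (hc.inv _ (inv_mem hδ) b hb0)
        rwa [h0, zpow_zero, MulAut.apply_inv_self] at this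
  choose! θ hθ using hz
  have hm : (fun x => if x ∈ D ⊓ std I₀ then θ x else 0) ∈ Θ :=
    ⟨1, one_mem _, fun x hx' => by simp only [if_pos hx']; exact hθ x hx', fun x hx' => if_neg hx'⟩
  have := hFam α I₀ _ Θ hc hfin ?_ ?_ _ hm I hco b hb0 hbI
  · rw [if_pos hb0] at this
    exact hx (by rw [hθ b hb0, this, zpow_zero])
  · rintro θ ⟨δ, hδ, e, -⟩ x hx y hy
    refine zpow_inj hr.1 ?_
    rw [zpow_add, ← e _ (mul_mem hx hy), ← e x hx, ← e y hy,
      ← K.hom _ (K.conj_mem hg (hB (hc.inv δ hδ x hx))) _ (K.conj_mem hg (hB (hc.inv δ hδ y hy))),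
      map_mul]
    congr 1
    group
  · rintro γ hγ θ ⟨δ, hδ, e, z⟩
    refine ⟨fun x => θ (γ⁻¹ x), ⟨δ * γ⁻¹, mul_mem hδ (inv_mem hγ),
      fun x hx => e _ (hc.inv _ (inv_mem hγ) x hx), fun x hx => z _ fun h => hx ?_⟩,
      fun x _ => by simp⟩
    simpa using hc.inv γ hγ _ h

theorem pow_prod {G : Type} [Group G] (t v : G) (n : ℕ) : (t * v) ^ n =
    ((List.range n).map fun i => t ^ (i + 1) * v * (t ^ (i + 1))⁻¹).prod * t ^ n := by
  induction n with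
  | zero => simp
  | succ n ih =>
    rw [pow_succ, ih, List.range_succ, List.map_append, List.prod_append]
    simp [pow_succ, mul_assoc]

/-- Lemma K, part (b), first step. -/
theorem KD.ab_of [IsFreeGroup F] (K : KD J Bb f) {I : Set α} (hI : I ⊆ J)
    {H : Subgroup (FreeGroup α)} (hB : H ≤ Bb) (hle : H ≤ std I) {t : α} (ht : t ∈ J)
    (htI : t ∉ I) {g : FreeGroup α} (hg : g ∈ std J) {M : ℕ} (hM : M ≠ 0)
    (hMB : FreeGroup.of t ^ M ∈ Bb) (h1 : f (g * FreeGroup.of t ^ M * g⁻¹) = 1) (j : ℤ) :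
    ¬ NonAb ((K.ψ (g * FreeGroup.of t ^ j)).comp (Subgroup.inclusion hB)) := by
  have mt : FreeGroup.of t ∈ std J := of_mem_std ht
  let E : Subgroup H := (K.N0.comap (tw (t, true))).subgroupOf H
  have hE : E.FiniteIndex :=
    ⟨fun e => K.tw_fi (h := (t, true)) ht hI (Subgroup.relIndex_eq_zero_of_le_right hle e)⟩
  have h2 : K.ψ g ⟨_, hMB⟩ = 1 := by rw [K.ψ_apply hg, h1]
  have key := bpp_pos ((List.range M).map fun i => (((K.ψ (g * FreeGroup.of t ^ (i + 1))).comp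
    (Subgroup.inclusion hB)).comp E.subtype, (1 : ℤ))) (fun p hp => by
      obtain ⟨i, -, rfl⟩ := List.mem_map.1 hp
      exact one_pos) (by
      rintro ⟨⟨u, huH⟩, huE⟩
      have hu : u ∈ Bb := hB huH
      have hu' : u ∈ std ({t}ᶜ : Set α) := mem_std_compl htI (hle huH)
      obtain ⟨a, ha⟩ := K.equiv (γ := tw (t, true) u) huE hg (K.tw_diff (h := (t, true)) hu hu' hg)
      have h3 := ha _ hMB
      rw [h1, map_one, map_pow, tw_true hu'] at h3
      have e : (((List.range M).map fun i => (⟨_, K.conj_mem (pow_mem mt (i + 1)) hu⟩ : Bb)).prod *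
          ⟨_, hMB⟩ : Bb) = (FreeGroup.of t * u) ^ M := by
        rw [pow_prod, Subgroup.coe_mul, SubmonoidClass.coe_list_prod, List.map_map]
        rfl
      rw [← e, ← K.ψ_apply hg, map_mul, h2, mul_one, map_list_prod, List.map_map] at h3
      rw [pw, List.map_map, h3]
      refine congrArg List.prod (List.map_congr_left fun i _ => ?_)
      simp only [Function.comp_apply, MonoidHom.comp_apply, zpow_one]
      rw [K.ψ_apply hg, K.ψ_apply (mul_mem hg (pow_mem mt _))]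
      congr 1
      simp [mul_assoc])
  have hM' : (0 : ℤ) < M := by exact_mod_cast Nat.pos_of_ne_zero hM
  obtain ⟨i, hi⟩ := Int.eq_ofNat_of_zero_le (Int.emod_nonneg (j - 1) hM'.ne')
  have hi' : i < M := by
    have := Int.emod_lt_of_pos (j - 1) hM'
    omega
  have hj : j = (M : ℤ) * ((j - 1) / M) + ((i + 1 : ℕ) : ℤ) := by
    have := Int.mul_ediv_add_emod (j - 1) M
    push_cast
    omega
  intro hn
  refine key _ (List.mem_map.2 ⟨i, List.mem_range.2 hi', rfl⟩) (NonAb.finiteIndex ?_ E)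
  have e : K.ψ (g * FreeGroup.of t ^ j) = K.ψ (g * FreeGroup.of t ^ (i + 1)) := by
    ext b
    have m1 := K.conj_mem hg (zpow_mem hMB ((j - 1) / M))
    have h4 : f (g * (FreeGroup.of t ^ M) ^ ((j - 1) / M) * g⁻¹) = 1 := by
      have := K.ψ_apply hg (⟨_, hMB⟩ ^ ((j - 1) / M))
      rw [map_zpow, h2, one_zpow] at this
      exact this.symm
    have h5 := K.map_conj m1 (K.conj_mem (mul_mem hg (pow_mem mt (i + 1))) b.2)
    rw [h4, one_mul, inv_one, mul_one] at h5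
    rw [K.ψ_apply (mul_mem hg (zpow_mem mt _)), K.ψ_apply (mul_mem hg (pow_mem mt _)), ← h5]
    congr 1
    conv_lhs => rw [hj, zpow_add, zpow_mul, zpow_natCast, zpow_natCast]
    simp only [mul_inv_rev, inv_inv, mul_assoc, inv_mul_cancel_left]
  rwa [← e]

end Pool.Agent.MP_3ce0a0_al.Q2T12.KC

namespace Pool.Agent.MP_3ce0a0_al.Q2T12

open H79 Q2T15 Q2T4A KC

theorem lemK26 : LemK := by
  classical
  intro α F _ _ _ J D Bb f h11 hD hBD hinv hco hom hfin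
  have K : KD J Bb f := ⟨hBD.trans hD.le, hinv, hom, hfin⟩
  let Zt : α → FreeGroup α → Prop := fun t g =>
    ∃ M : ℕ, M ≠ 0 ∧ FreeGroup.of t ^ M ∈ D ∧ f (g * FreeGroup.of t ^ M * g⁻¹) = 1
  have c1 : ∀ t ∈ J, Co 4 {t} J := fun t ht => by
    simpa using co_fin h11 {t} (by simpa using ht) (r := 4) (by simp)
  have pwD : ∀ t ∈ J, ∃ M : ℕ, M ≠ 0 ∧ FreeGroup.of t ^ M ∈ D := fun t ht => by
    obtain ⟨n, hn, -, hm⟩ := Subgroup.exists_pow_mem_of_relIndex_ne_zero hD.fi (of_mem_std ht)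
    exact ⟨n, hn.ne', hm.1⟩
  have b2 : ∀ t ∈ J, ∀ g ∈ std J, Zt t g → ∀ (j : ℤ) (I : Set α), Co 4 I J → t ∉ I → ∀ b ∈ D,
      b ∈ std I → f (g * FreeGroup.of t ^ j * b * (g * FreeGroup.of t ^ j)⁻¹) = 1 := by
    rintro t ht g hg ⟨M, hM, hMD, h1⟩ j I ⟨hIJ, T, hT, hTJ, hTI⟩ htI b hb hbI
    have k1 := Finset.pred_card_le_card_erase (s := T) (a := t)
    obtain ⟨s, hs⟩ := Finset.card_pos.1 (show 0 < (T.erase t).card by omega)
    have k2 := Finset.pred_card_le_card_erase (s := T.erase t) (a := s)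
    obtain ⟨hst, hsT⟩ := Finset.mem_erase.1 hs
    have c2 : Co 2 (J \ {t, s}) J := ⟨Set.sdiff_subset, {t, s},
      (Finset.card_pair hst.symm).ge, by simp [Set.insert_subset_iff, ht, hTJ hsT],
      by simp⟩
    have hB : D ⊓ std (J \ {t, s}) ≤ Bb := fun x hx => hco _ c2 x hx.1 hx.2
    refine K.ab hD Set.sdiff_subset hB (mul_mem hg (zpow_mem (of_mem_std ht) j))
      (K.ab_of Set.sdiff_subset hB inf_le_right ht (by simp) hg hM
        (hco {t} (co_mono (c1 t ht) (by omega)) _ hMD (pow_mem (of_mem_std (Set.mem_singleton t)) M)) h1 j)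
      ⟨fun x hx => ⟨hIJ hx, ?_⟩, (T.erase t).erase s, by omega, fun x hx => ?_, ?_⟩ hb hbI
    · rintro (rfl | rfl)
      · exact htI hx
      · exact Set.disjoint_left.1 hTI hsT hx
    · simp only [Finset.coe_erase, Set.mem_sdiff, Set.mem_singleton_iff] at hx
      exact ⟨hTJ hx.1.1, by simp [hx.1.2, hx.2]⟩
    · exact hTI.mono_left fun x hx => Finset.mem_of_mem_erase (Finset.mem_of_mem_erase hx)
  have b3 : ∀ t ∈ J, ∀ g ∈ std J, Zt t g → ∀ j : ℤ, ∀ t' ∈ J, t' ≠ t →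
      Zt t' (g * FreeGroup.of t ^ j) := fun t ht g hg h j t' ht' hne => by
    obtain ⟨M, hM, hMD⟩ := pwD t' ht'
    exact ⟨M, hM, hMD, b2 t ht g hg h j {t'} (c1 t' ht') hne.symm _ hMD
      (pow_mem (of_mem_std (Set.mem_singleton t')) M)⟩
  have b4 : ∀ t ∈ J, ∀ g ∈ std J, Zt t g → ∀ t' ∈ J, Zt t' g := fun t ht g hg h t' ht' => by
    by_cases e : t' = t
    · rwa [e]
    · simpa using b3 t ht g hg h 0 t' ht' e
  have b5 : ∀ t ∈ J, ∀ j : ℤ, ∀ g ∈ std J, (∀ t' ∈ J, Zt t' g) →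
      ∀ t' ∈ J, Zt t' (g * FreeGroup.of t ^ j) := fun t ht j g hg h => by
    obtain ⟨-, T, hT, hTJ, hTI⟩ := c1 t ht
    obtain ⟨s, hs⟩ := Finset.card_pos.1 (show 0 < T.card by omega)
    exact b4 s (hTJ hs) _ (mul_mem hg (zpow_mem (of_mem_std ht) j))
      (b3 t ht g hg (h t ht) j s (hTJ hs) fun e => Set.disjoint_left.1 hTI hs e)
  have b6 : ∀ x ∈ std J, ∀ g ∈ std J, (∀ t ∈ J, Zt t g) → ∀ t ∈ J, Zt t (g * x) := by
    intro x hx
    induction hx using Subgroup.closure_induction'' with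
    | mem x hx =>
      obtain ⟨y, hy, rfl⟩ := hx
      simpa using b5 y hy 1
    | inv_mem x hx =>
      obtain ⟨y, hy, rfl⟩ := hx
      simpa using b5 y hy (-1)
    | one => simp
    | mul x y hx _ h1 h2 =>
      intro g hg h
      rw [← mul_assoc]
      exact h2 _ (mul_mem hg hx) (h1 g hg h)
  by_cases hZ : ∃ t ∈ J, ∃ g ∈ std J, Zt t g
  · left
    obtain ⟨t, ht, g, hg, h⟩ := hZ
    have h1 := b6 _ (inv_mem hg) g hg (b4 t ht g hg h)
    rw [mul_inv_cancel] at h1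
    intro I hI b hb hbI
    obtain ⟨-, T, hT, hTJ, hTI⟩ := id hI
    obtain ⟨s, hs⟩ := Finset.card_pos.1 (show 0 < T.card by omega)
    simpa using b2 s (hTJ hs) 1 (one_mem _) (h1 s (hTJ hs)) 0 I hI
      (Set.disjoint_left.1 hTI hs) b hb hbI
  · right
    intro I hI w hw hwI h1
    obtain ⟨hIJ, T, hT, hTJ, hTI⟩ := id hI
    obtain ⟨U, hUT, hU⟩ := Finset.exists_subset_card_eq (show 3 ≤ T.card by omega)
    have hUJ : (U : Set α) ⊆ J := fun x hx => hTJ (hUT hx)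
    have hB : D ⊓ std (U : Set α) ≤ Bb := fun x hx =>
      hco _ (co_fin h11 U hUJ (by omega)) x hx.1 hx.2
    refine K.inj hUJ hB inf_le_right (fun g hg => ?_) (hco _ (co_mono hI (by omega)) w hw hwI)
      (std_mono (J := J \ U) (fun x hx => ⟨hIJ hx, fun hx' => Set.disjoint_left.1 hTI (hUT hx') hx⟩)
        hwI) h1
    by_contra hn
    obtain ⟨t, ht⟩ := Finset.card_pos.1 (show 0 < U.card by omega)
    obtain ⟨M, hM, hMD⟩ := pwD t (hUJ ht)
    refine hZ ⟨t, hUJ ht, g, hg, M, hM, hMD, K.ab hD hUJ hB hg ?_ (I := {t})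
      ⟨by simpa using ht, U.erase t, by rw [Finset.card_erase_of_mem ht]; omega, by simp, by simp⟩
      hMD (pow_mem (of_mem_std (Set.mem_singleton t)) M)⟩
    rintro ⟨a, b, hab⟩
    rw [MonoidHom.comp_apply, MonoidHom.comp_apply, K.ψ_apply hg, K.ψ_apply hg] at hab
    exact hn ⟨a, a.2, b, b.2, hab⟩

end Pool.Agent.MP_3ce0a0_al.Q2T12
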