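import Pool.Agent.MP_3ce0a0_al.Q2T12.Spec
import Pool.Agent.MP_3ce0a0_al.Q2T15.Ext

/-! Characteristic subgroups of finite index, and the subgroup generated by the squares. -/

set_option autoImplicit false

namespace Pool.Agent.MP_3ce0a0_al.Q2T12

open H79 Q2T1 Q2T15 Q2T13

theorem finite_hom (G Q : Type) [Group G] [Group Q] [hG : Group.FG G] [Finite Q] :
    Finite (G →* Q) := by
  obtain ⟨T, hT⟩ := hG.out
  exact Finite.of_injective (fun (φ : G →* Q) (t : T) => φ t) fun φ ψ h =>
    MonoidHom.eq_of_eqOn_dense hT fun t ht => congrFun h ⟨t, ht⟩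

/-- A subgroup of finite index of a finitely generated group contains a characteristic subgroup
of finite index. -/
theorem ex_char {G : Type} [Group G] [Group.FG G] (H : Subgroup G) [H.FiniteIndex] :
    ∃ K : Subgroup G, K ≤ H ∧ K.Characteristic ∧ K.FiniteIndex := by
  have := finite_hom G (G ⧸ H.normalCore)
  refine ⟨⨅ φ : G →* G ⧸ H.normalCore, φ.ker, ?_, ?_, ?_⟩
  · refine (iInf_le _ (QuotientGroup.mk' _)).trans ?_
    rw [QuotientGroup.ker_mk']
    exact H.normalCore_le
  · refine Subgroup.characteristic_iff_le_comap.2 fun γ x hx => ?_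
    rw [Subgroup.mem_comap, Subgroup.mem_iInf]
    exact fun φ => Subgroup.mem_iInf.1 hx (φ.comp γ.toMonoidHom)
  · exact Subgroup.finiteIndex_iInf fun φ => Subgroup.finiteIndex_ker φ

theorem sChr : SChr := by
  intro α _ J H hH
  have : Group.FG (std J) := (Group.fg_iff_subgroup_fg _).2 (std_fg (Set.toFinite J))
  have : (H.subgroupOf (std J)).FiniteIndex := ⟨hH⟩
  obtain ⟨K, h1, h2, h3⟩ := ex_char (H.subgroupOf (std J))
  refine ⟨K.map (std J).subtype, ?_, Subgroup.map_subtype_le K, ?_, ?_⟩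
  · rintro _ ⟨x, hx, rfl⟩
    exact h1 hx
  · have e : (K.map (std J).subtype).subgroupOf (std J) = K :=
      Subgroup.comap_map_eq_self_of_injective (std J).subtype_injective K
    rw [Subgroup.relIndex, e]
    exact h3.index_ne_zero
  · rintro γ hγ _ ⟨x, hx, rfl⟩
    exact ⟨resA J ⟨γ, hγ⟩ x, Subgroup.characteristic_iff_le_comap.1 h2 _ hx, rfl⟩

theorem sSq : SSq := by
  intro G _ D hD
  have : Group.FG D := (Group.fg_iff_subgroup_fg _).2 hD
  let N : Subgroup D := Subgroup.normalClosure {x | ∃ b, x = b * b}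
  have hN : N ≤ (Subgroup.closure {x | ∃ b ∈ D, x = b * b}).subgroupOf D := by
    refine (Subgroup.closure_le _).2 fun x hx => ?_
    obtain ⟨_, ⟨b, rfl⟩, hc⟩ := Group.mem_conjugatesOfSet_iff.1 hx
    obtain ⟨c, rfl⟩ := isConj_iff.1 hc
    exact Subgroup.subset_closure ⟨c * b * c⁻¹, (c * b * c⁻¹).2, by simp [mul_assoc]⟩
  have h2 : ∀ x : D ⧸ N, x * x = 1 := fun x => by
    obtain ⟨b, rfl⟩ := QuotientGroup.mk_surjective x
    rw [← QuotientGroup.mk_mul, QuotientGroup.eq_one_iff]
    exact Subgroup.subset_normalClosure ⟨b, rfl⟩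
  have hi : ∀ x : D ⧸ N, x⁻¹ = x := fun x => inv_eq_of_mul_eq_one_right (h2 x)
  let _ : CommGroup (D ⧸ N) :=
    { (inferInstance : Group (D ⧸ N)) with
      mul_comm := fun x y => by rw [← hi (x * y), mul_inv_rev, hi, hi] }
  have : Finite (D ⧸ N) := CommGroup.finite_of_fg_isMulTorsion _ fun x =>
    isOfFinOrder_iff_pow_eq_one.2 ⟨2, two_pos, by rw [pow_two, h2]⟩
  have : N.FiniteIndex := Subgroup.finiteIndex_of_finite_quotient
  exact (Subgroup.finiteIndex_of_le hN).index_ne_zero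

end Pool.Agent.MP_3ce0a0_al.Q2T12
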