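import Pool.Agent.MP_3ce0a0_al.Q2T12.Spec
import Pool.Agent.MP_3ce0a0_al.Q2T10.Spec
import Pool.Agent.MP_3ce0a0_al.Q2T9.Out
import Pool.Agent.MP_3ce0a0_al.Q2T15.G

/-! The free splitting attached to the twists at a set of letters. -/

set_option autoImplicit false

namespace Pool.Agent.MP_3ce0a0_al.Q2T12

open H79 Q2T1 Q2T15 Q2T13 Q2T10

variable {α F : Type} [Group F] (ρ : Out (FreeGroup α) →* Out F) (L : Finset α)

/-- The twists at the ends of the letters of `L`. -/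
def PhiL : Set (Out F) :=
  {φ | ∃ h : α × Bool, h.1 ∈ L ∧ ∃ d ∈ std (L : Set α)ᶜ, φ = ρ (tau h d)}

/-- The lifts of the multitwists. -/
noncomputable def EL : Subgroup (MulAut F) :=
  ((KK (std (L : Set α)ᶜ) L).map (ρ.comp (multiO (L : Set α)ᶜ))).comap (mkOut F)

variable {ρ L}

theorem mem_EL {a : MulAut F} : a ∈ EL ρ L ↔
    ∃ k ∈ KK (std (L : Set α)ᶜ) L, mkOut F a = ρ (multiO (L : Set α)ᶜ k) :=
  ⟨fun ⟨k, h1, h2⟩ => ⟨k, h1, h2.symm⟩, fun ⟨k, h1, h2⟩ => ⟨k, h1, h2.symm⟩⟩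

theorem conj_mem_EL (g : F) : MulAut.conj g ∈ EL ρ L :=
  mem_EL.2 ⟨1, one_mem _, by rw [mkOut_conj, map_one, map_one]⟩

theorem not_mem_J {h : α × Bool} (hh : h.1 ∈ L) : h.1 ∉ (L : Set α)ᶜ := fun k => k hh

open Classical in
theorem single_mem {B : Subgroup (FreeGroup α)} {h : α × Bool} (hh : h.1 ∈ L) {d : FreeGroup α}
    (hd : d ∈ B) : Pi.mulSingle h d ∈ KK B L := by
  intro h'
  by_cases e : h' = h
  · subst e
    rw [Pi.mulSingle_eq_same]
    exact ⟨hd, fun k => absurd hh k⟩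
  · rw [Pi.mulSingle_eq_of_ne e]
    exact ⟨B.one_mem, fun _ => rfl⟩

open Classical in
theorem multiO_single {h : α × Bool} (hh : h.1 ∈ L) {d : FreeGroup α}
    (hd : d ∈ std (L : Set α)ᶜ) : multiO (L : Set α)ᶜ (Pi.mulSingle h d) = tau h d := by
  rw [multiO_apply, tau_apply, multi_mulSingle (not_mem_J hh) hd]

theorem nm_of {G : Type} [Group G] {Φ : Set (Out F)} {H : Subgroup G} (f : G →* Out F)
    (h : ∀ γ ∈ H, ∀ φ ∈ Φ, f γ * φ * (f γ)⁻¹ ∈ Φ) {γ : G} (hγ : γ ∈ H) : Nm Φ (f γ) := by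
  refine fun φ => ⟨h γ hγ φ, fun k => ?_⟩
  have := h _ (H.inv_mem hγ) _ k
  rwa [map_inv, inv_inv, ← mul_assoc, ← mul_assoc, inv_mul_cancel, one_mul,
    inv_mul_cancel_right] at this

theorem nm_NA {γ : MulAut (FreeGroup α)} (hγ : γ ∈ NA (L : Set α)ᶜ) :
    Nm (PhiL ρ L) (ρ (mkOut _ γ)) := by
  refine nm_of (ρ.comp (mkOut _)) ?_ hγ
  rintro γ hγ _ ⟨h, hh, d, hd, rfl⟩
  refine ⟨h, hh, γ d, NA_mem hγ hd, ?_⟩
  rw [← NA_conj_tau hγ (not_mem_J hh) (mem_std_compl (not_mem_J hh) hd)]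
  simp only [MonoidHom.comp_apply, map_mul, map_inv]

theorem nm_multi {k : α × Bool → FreeGroup α} (hk : k ∈ KK (std (L : Set α)ᶜ) L) :
    Nm (PhiL ρ L) (ρ (multiO (L : Set α)ᶜ k)) := by
  classical
  refine nm_of (ρ.comp (multiO _)) ?_ hk
  rintro k hk _ ⟨h, hh, d, hd, rfl⟩
  have hm : k h * d * (k h)⁻¹ ∈ std (L : Set α)ᶜ :=
    mul_mem (mul_mem (hk h).1 hd) (inv_mem (hk h).1)
  refine ⟨h, hh, _, hm, ?_⟩
  rw [← multiO_single hh hd, ← multiO_single hh hm]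
  simp only [MonoidHom.comp_apply, ← map_mul, ← map_inv]
  congr 2
  funext h'
  by_cases e : h' = h
  · subst e
    simp
  · simp [Pi.mulSingle_eq_of_ne e]

theorem prod_single {ι G : Type} [DecidableEq ι] [Group G] (k : ι → G) (l : List ι)
    (hl : l.Nodup) :
    (l.map fun h => Pi.mulSingle h (k h)).prod = fun h => if h ∈ l then k h else 1 := by
  induction l with
  | nil => funext h; simp
  | cons a l ih =>
    rw [List.nodup_cons] at hl
    rw [List.map_cons, List.prod_cons, ih hl.2]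
    funext h
    by_cases e : h = a
    · subst e
      simp [hl.1]
    · simp [e]

/-- A multitwist is a product of commuting twists. -/
theorem multi_list [Finite α] {k : α × Bool → FreeGroup α} (hk : k ∈ KK (std (L : Set α)ᶜ) L) :
    ∃ l : List (Out F), (∀ φ ∈ l, φ ∈ PhiL ρ L) ∧ l.Pairwise Commute ∧
      l.prod = ρ (multiO (L : Set α)ᶜ k) := by
  classical
  have := Fintype.ofFinite α
  let s : List (α × Bool) := (Finset.univ.filter fun h : α × Bool => h.1 ∈ L).toList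
  have hs : ∀ h, h ∈ s ↔ h.1 ∈ L := fun h => by simp [s]
  have hn : s.Nodup := Finset.nodup_toList _
  refine ⟨s.map fun h => ρ (tau h (k h)), ?_, ?_, ?_⟩
  · intro φ hφ
    obtain ⟨h, hh, rfl⟩ := List.mem_map.1 hφ
    exact ⟨h, (hs h).1 hh, _, (hk h).1, rfl⟩
  · rw [List.pairwise_map]
    refine hn.imp_of_mem fun {a b} ha hb hab => ?_
    exact (tau_commute hab (not_mem_J ((hs a).1 ha)) (not_mem_J ((hs b).1 hb)) (hk a).1
      (hk b).1).map ρ
  · have e : k = (s.map fun h => Pi.mulSingle h (k h)).prod := by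
      rw [prod_single k s hn]
      funext h
      by_cases c : h ∈ s
      · rw [if_pos c]
      · rw [if_neg c, (hk h).2 fun a => c ((hs h).2 a)]
    conv_rhs => rw [e]
    rw [map_list_prod, map_list_prod, List.map_map, List.map_map]
    refine congrArg List.prod (List.map_congr_left fun h hh => ?_)
    simp only [Function.comp_apply]
    rw [multiO_single ((hs h).1 hh) (hk h).1]

theorem fg_map {G Q : Type} [Group G] [Group Q] (q : G →* Q) {H : Subgroup G} (hH : H.FG) :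
    (H.map q).FG := by
  obtain ⟨S, rfl, hS⟩ := (Subgroup.fg_iff H).1 hH
  exact (Subgroup.fg_iff _).2 ⟨_, (MonoidHom.map_closure q S).symm, hS.image q⟩

theorem fg_comap {G Q : Type} [Group G] [Group Q] (q : G →* Q) (hq : Function.Surjective q)
    (hk : q.ker.FG) {H : Subgroup Q} (hH : H.FG) : (H.comap q).FG := by
  obtain ⟨S, rfl, hS⟩ := (Subgroup.fg_iff H).1 hH
  obtain ⟨s, hs⟩ := hq.hasRightInverse
  have : Subgroup.closure S = (Subgroup.closure (s '' S)).map q := by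
    rw [MonoidHom.map_closure, Set.image_image]
    simp [hs _]
  rw [this, Subgroup.comap_map_eq]
  exact ((Subgroup.fg_iff _).2 ⟨_, rfl, hS.image s⟩).sup hk

theorem kk_fg [Finite α] : (KK (std (L : Set α)ᶜ) L).FG := by
  classical
  have := Fintype.ofFinite α
  let S : Set (α × Bool → FreeGroup α) :=
    {k | ∃ h : α × Bool, ∃ x : α, h.1 ∈ L ∧ x ∉ L ∧ k = Pi.mulSingle h (FreeGroup.of x)}
  refine (Subgroup.fg_iff _).2 ⟨S, le_antisymm ?_ fun k hk => ?_, ?_⟩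
  · rw [Subgroup.closure_le]
    rintro _ ⟨h, x, hh, hx, rfl⟩
    exact single_mem hh (of_mem_std hx)
  · have e' : k = (Finset.univ.toList.map fun h => Pi.mulSingle h (k h)).prod := by
      rw [prod_single k Finset.univ.toList (Finset.nodup_toList _)]
      funext h
      simp
    rw [e']
    refine list_prod_mem fun x hx => ?_
    obtain ⟨h, -, rfl⟩ := List.mem_map.1 hx
    by_cases c : h.1 ∈ L
    · exact map_mem_of_std (f := MonoidHom.mulSingle (fun _ : α × Bool => FreeGroup α) h)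
        (fun x hx => Subgroup.subset_closure (show _ ∈ S from ⟨h, x, c, hx, rfl⟩)) (hk h).1
    · rw [(hk h).2 c, Pi.mulSingle_one]
      exact one_mem _
  · refine (Set.finite_range fun p : (α × Bool) × α =>
      (Pi.mulSingle p.1 (FreeGroup.of p.2) : α × Bool → FreeGroup α)).subset ?_
    rintro _ ⟨h, x, -, -, rfl⟩
    exact ⟨(h, x), rfl⟩

theorem EL_fg [Finite α] [hF : Group.FG F] : (EL ρ L).FG := by
  refine fg_comap _ (mkOut_surjective F) ?_ (fg_map _ kk_fg)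
  rw [mkOut, QuotientGroup.ker_mk', Inn, MonoidHom.range_eq_map]
  exact fg_map _ hF.out

/-- A class with a finite orbit is periodic under every twist. -/
theorem qs_of_fin {g : F} (R : Set F) (hR : R.Finite)
    (h : ∀ a ∈ EL ρ L, ∃ r ∈ R, IsConj (a g) r) : g ∈ QS (PhiL ρ L) := by
  classical
  rintro _ ⟨l, hl, d, hd, rfl⟩
  obtain ⟨a, ha⟩ := mkOut_surjective F (ρ (tau l d))
  have hE : a ∈ EL ρ L := mem_EL.2 ⟨_, single_mem hl hd, by rw [multiO_single hl hd, ha]⟩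
  choose r hr hc using fun n : ℕ => h (a ^ n) (pow_mem hE n)
  obtain ⟨i, j, hij, e⟩ := hR.exists_lt_map_eq_of_forall_mem hr
  obtain ⟨N, rfl⟩ := Nat.exists_eq_add_of_lt hij
  have c1 : IsConj ((a ^ (i + N + 1)) g) ((a ^ i) g) := (hc _).trans (e ▸ (hc i).symm)
  have c2 := (a ^ i)⁻¹.toMonoidHom.map_isConj c1
  rw [add_assoc, pow_add] at c2
  obtain ⟨c, hc⟩ := isConj_iff.1 c2
  refine ⟨N + 1, N.succ_pos, MulAut.conj c * a ^ (N + 1), ?_, by simpa using hc⟩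
  rw [map_mul, mkOut_conj, one_mul, map_pow, ha]

/-- A class that is fixed by the deep multitwists is periodic under every twist. -/
theorem qs_of_fix {D : Subgroup (FreeGroup α)} (hD : D.relIndex (std (L : Set α)ᶜ) ≠ 0) {g : F}
    (h : ∀ k ∈ KK D L, ∃ a : MulAut F, mkOut F a = ρ (multiO (L : Set α)ᶜ k) ∧ a g = g) :
    g ∈ QS (PhiL ρ L) := by
  classical
  rintro _ ⟨l, hl, d, hd, rfl⟩
  obtain ⟨N, hN, -, hm⟩ := Subgroup.exists_pow_mem_of_relIndex_ne_zero hD hd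
  obtain ⟨a, h1, h2⟩ := h _ (single_mem hl hm.1)
  exact ⟨N, hN, a, by rw [h1, multiO_single hl hm.2, map_pow, map_pow], h2⟩

theorem ret_NA {J : Set α} {γ : MulAut (FreeGroup α)} (hγ : γ ∈ NA J) (b : FreeGroup α) :
    ret J (γ b) = γ (ret J b) := by
  have : (ret J).comp γ.toMonoidHom = γ.toMonoidHom.comp (ret J) := by
    refine FreeGroup.ext_hom _ _ fun x => ?_
    change ret J (γ _) = γ (ret J _)
    by_cases c : x ∈ J
    · rw [ret_of_mem c, ret_eq_self (NA_mem hγ (of_mem_std c))]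
    · rw [NA_of hγ c, ret_of_not_mem c, map_one]
  exact DFunLike.congr_fun this b

theorem twd {β : Type} [Finite β] [Nontrivial β] (hS : Q2T9.SDL)
    (ρ : Out (FreeGroup α) →* Out (FreeGroup β)) (hL : 4 ≤ L.card) :
    ∀ φ ∈ PhiL ρ L, ∃ T, TwD (PhiL ρ L) φ T := by
  rintro _ ⟨h, hh, d, hd, rfl⟩
  obtain ⟨X, _, _, _, _, N, al, ne, hD, ni, -, hP⟩ :=
    hS α β ρ L L.finite_toSet (by simpa using hL) h hh d hd
  refine ⟨{ X := X, ne := ne, ni := ni }, fun g hg => hD.ell g (hg _ ⟨h, hh, d, hd, rfl⟩),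
    fun x y hxy => ?_, fun x => ?_, N, hD.pos, fun x => ⟨al x, hD.lift x, hD.cent x⟩⟩
  · obtain ⟨c, h1, h2⟩ := hD.edge x y hxy
    refine ⟨c, h1, ?_, h2⟩
    rintro _ ⟨h', hh', d', hd', rfl⟩
    exact hP c ⟨x, y, hxy, h2⟩ h' hh' d' hd'
  · obtain ⟨a, b, h1, h2, h3⟩ := hD.nonab x
    exact ⟨a, h1, b, h2, h3⟩

variable (ρ L)

/-- The input of the Kolchin type proposition and of step 4d, for the tree `S`. -/
structure Pre4 (S : GT F) (D : Subgroup (FreeGroup α)) : Prop where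
  cocpt : S.Cocpt
  triv : S.Triv
  chr : Chr (L : Set α)ᶜ D
  qs : ∀ g ∈ QS (PhiL ρ L), Ell S.X g
  invE : ∀ a ∈ EL ρ L, ∀ g, Ell S.X (a g) ↔ Ell S.X g
  invN : ∀ γ ∈ NA (L : Set α)ᶜ, ∀ a : MulAut F, mkOut F a = ρ (mkOut _ γ) →
    ∀ g, Ell S.X (a g) ↔ Ell S.X g
  h3 : ∀ F₀ : Subgroup F, F₀.Normal → F₀.FiniteIndex → ∀ a ∈ EL ρ L,
    H3 {g | Ell S.X g} F₀ (mkOut F a)
  cen : ∀ h : α × Bool, h.1 ∈ L → ∀ I, Co 2 I (L : Set α)ᶜ → ∀ b ∈ D, b ∈ std I →
    ∀ W : Subgroup F, (∀ w ∈ W, Ell S.X w) → Nab W → ∃ a, Cz (ρ (tau h b)) W a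

theorem pre4 {β : Type} [Finite α] [Finite β] [Nontrivial β] (hS : Q2T9.SDL) (hT : StmtT10)
    (hH : HFam) (ρ : Out (FreeGroup α) →* Out (FreeGroup β)) (hL : 4 ≤ L.card) :
    ∃ S D, Pre4 ρ L S D := by
  classical
  obtain ⟨S, h1, h2, h3, h4, h5, h6⟩ :=
    hT (FreeGroup β) inferInstance (PhiL ρ L) (twd hS ρ hL)
  have key : ∀ h : {h : α × Bool // h.1 ∈ L}, ∃ D, Chr (L : Set α)ᶜ D ∧
      ∀ I, Co 2 I (L : Set α)ᶜ → ∀ b ∈ D, b ∈ std I → ∀ W : Subgroup (FreeGroup β),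
        (∀ w ∈ W, Ell S.X w) → Nab W → ∃ a, Cz (ρ (tau h.1 b)) W a := by
    rintro ⟨h, hh⟩
    let τ : FreeGroup α →* Out (FreeGroup β) := ρ.comp ((tau h).comp (ret (L : Set α)ᶜ))
    have hτ : ∀ b, τ b = ρ (tau h (ret (L : Set α)ᶜ b)) := fun _ => rfl
    obtain ⟨D, Θ, fi, fin, add, inv, cz⟩ := h6 (FreeGroup α) τ fun b =>
      ⟨⟨h, hh, _, ret_mem _ b, rfl⟩, by
        rw [hτ, ← multiO_single hh (ret_mem _ b)]
        exact nm_multi (single_mem hh (ret_mem _ b))⟩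
    have inv' := fun γ (hγ : γ ∈ NA (L : Set α)ᶜ) => inv γ _ (nm_NA (ρ := ρ) hγ) fun b => by
      rw [hτ, hτ, ret_NA hγ, ← NA_conj_tau hγ (not_mem_J hh)
        (mem_std_compl (not_mem_J hh) (ret_mem _ b)), map_mul, map_mul, map_inv]
    have chr : Chr (L : Set α)ᶜ (D ⊓ std (L : Set α)ᶜ) :=
      ⟨inf_le_right, by
        rw [Subgroup.inf_relIndex_right]
        exact Subgroup.FiniteIndex.index_ne_zero, fun γ hγ b hb =>
        ⟨((inv' γ hγ).1 b).2 hb.1, NA_mem hγ hb.2⟩⟩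
    refine ⟨_, chr, fun I hI b hb hb' W hW hN => ?_⟩
    have z := hH α _ _ Θ chr fin (fun θ hθ a ha b hb => add θ hθ a ha.1 b hb.1)
      fun γ hγ θ hθ => by
        obtain ⟨θ', t1, t2⟩ := (inv' γ hγ).2 θ hθ
        exact ⟨θ', t1, fun b hb => t2 b hb.1⟩
    have := cz b hb.1 (fun θ hθ => z θ hθ I hI b hb hb') W hW hN
    rwa [hτ, ret_eq_self hb.2] at this
  choose D hD hc using key
  refine ⟨S, (⨅ h, D h) ⊓ std (L : Set α)ᶜ, h1, h2, ⟨inf_le_right, ?_, fun γ hγ b hb => ⟨?_,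
    NA_mem hγ hb.2⟩⟩, h3, fun a ha => ?_, fun γ hγ a ha => h4 a (ha ▸ nm_NA hγ),
    fun F₀ n f a ha => ?_, fun h hh I hI b hb => hc ⟨h, hh⟩ I hI b (Subgroup.mem_iInf.1 hb.1 _)⟩
  · rw [Subgroup.inf_relIndex_right]
    exact Subgroup.relIndex_iInf_ne_zero fun h => (hD h).fi
  · exact Subgroup.mem_iInf.2 fun h => (hD h).inv γ hγ b (Subgroup.mem_iInf.1 hb.1 h)
  · obtain ⟨k, hk, e⟩ := mem_EL.1 ha
    exact h4 a (e ▸ nm_multi hk)
  · obtain ⟨k, hk, e⟩ := mem_EL.1 ha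
    obtain ⟨l, l1, l2, l3⟩ := multi_list (ρ := ρ) hk
    rw [e, ← l3]
    exact h5 F₀ n f l l1 l2

end Pool.Agent.MP_3ce0a0_al.Q2T12
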