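import Mathlib

/-!
The vanishing lemma for characters that are invariant under three twists.
-/

set_option autoImplicit false

namespace Pool.Agent.MP_3ce0a0_al.Q2T12

section Abs

variable {D : Type} [Group D] {R : Type} [CommRing R] [LinearOrder R] [IsStrictOrderedRing R]

/-- Functions that are additive on a subgroup. -/
def AddOn (N : Subgroup D) (θ : D → R) : Prop := ∀ u ∈ N, ∀ v ∈ N, θ (u * v) = θ u + θ v

omit [LinearOrder R] [IsStrictOrderedRing R] in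
theorem AddOn.one {N : Subgroup D} {θ : D → R} (h : AddOn N θ) : θ 1 = 0 := by
  have := h 1 N.one_mem 1 N.one_mem
  rw [one_mul] at this
  exact left_eq_add.1 this

omit [LinearOrder R] [IsStrictOrderedRing R] in
theorem AddOn.inv {N : Subgroup D} {θ : D → R} (h : AddOn N θ) {u : D} (hu : u ∈ N) :
    θ u⁻¹ = - θ u := by
  have := h u hu u⁻¹ (N.inv_mem hu)
  rw [mul_inv_cancel, h.one] at this
  exact (neg_eq_of_add_eq_zero_right this.symm).symm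

omit [LinearOrder R] [IsStrictOrderedRing R] in
theorem AddOn.pow {N : Subgroup D} {θ : D → R} (h : AddOn N θ) {u : D} (hu : u ∈ N) (k : ℕ) :
    θ (u ^ k) = k * θ u := by
  induction k with
  | zero => simp [h.one]
  | succ k ih => rw [pow_succ, h _ (N.pow_mem hu k) _ hu, ih]; push_cast; ring

omit [LinearOrder R] [IsStrictOrderedRing R] in
theorem sum_shift (N : Subgroup D) [N.Normal] [Fintype (D ⧸ N)] (f : D → R)
    (hf : ∀ u ∈ N, ∀ w, f (u * w) = f w) (t : D) :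
    ∑ x : D ⧸ N, f (x.out * t) = ∑ x : D ⧸ N, f x.out := by
  rw [← Equiv.sum_comp (Equiv.mulRight (t : D ⧸ N)) (fun x : D ⧸ N => f x.out)]
  refine Finset.sum_congr rfl fun x _ => ?_
  have h1 : ((x * (t : D ⧸ N)).out : D ⧸ N) = ((x.out * t : D) : D ⧸ N) := by simp
  have h2 : (x * (t : D ⧸ N)).out * (x.out * t)⁻¹ ∈ N := by
    rw [← QuotientGroup.eq_one_iff, QuotientGroup.mk_mul, h1, QuotientGroup.mk_inv,
      mul_inv_cancel]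
  have := hf _ h2 (x.out * t)
  rw [inv_mul_cancel_right] at this
  exact this.symm

omit [LinearOrder R] [IsStrictOrderedRing R] in
theorem sum_orth (N : Subgroup D) [N.Normal] [Fintype (D ⧸ N)] (a b : D → R)
    (ha : ∀ u ∈ N, ∀ w, a (u * w) = a w) (hb : ∀ u ∈ N, ∀ w, b (u * w) = b w) (t : D)
    (ht : ∀ w, a (w * t) = a w) :
    ∑ x : D ⧸ N, a x.out * (b (x.out * t) - b x.out) = 0 := by
  have := sum_shift N (fun w => a w * b w) (fun u hu w => by rw [ha u hu, hb u hu]) t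
  simp only [ht] at this
  simp only [mul_sub, Finset.sum_sub_distrib, this, sub_self]

/-- The vanishing lemma, abstract form. -/
theorem hp_abs (N : Subgroup D) [hN : N.Normal] [N.FiniteIndex] {θ : D → R} (hθ : AddOn N θ)
    {p q d : D} (hd : d ∈ N) (γ₁ γ₂ γ₃ : D →* D)
    (m₁ : ∀ w, γ₁ w * w⁻¹ ∈ N) (m₂ : ∀ w, γ₂ w * w⁻¹ ∈ N) (m₃ : ∀ w, γ₃ w * w⁻¹ ∈ N)
    (i₁ : ∀ u ∈ N, θ (γ₁ u) = θ u) (i₂ : ∀ u ∈ N, θ (γ₂ u) = θ u) (i₃ : ∀ u ∈ N, θ (γ₃ u) = θ u)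
    (p₁ : γ₁ p = p * d) (q₁ : γ₁ q = q) (p₂ : γ₂ p = d * p) (q₂ : γ₂ q = q) (q₃ : γ₃ q = d * q)
    (g : D) : θ (g * d * g⁻¹) = 0 := by
  have : Fintype (D ⧸ N) := Fintype.ofFinite _
  have hc : ∀ w, w * d * w⁻¹ ∈ N := fun w => hN.conj_mem d hd w
  have hψ : ∀ u ∈ N, ∀ w, θ (u * w * d * (u * w)⁻¹) = θ (w * d * w⁻¹) := fun u hu w => by
    rw [show u * w * d * (u * w)⁻¹ = u * (w * d * w⁻¹) * u⁻¹ by group,
      hθ _ (N.mul_mem hu (hc w)) _ (N.inv_mem hu), hθ _ hu _ (hc w), hθ.inv hu]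
    ring
  have hF : ∀ γ : D →* D, (∀ w, γ w * w⁻¹ ∈ N) → (∀ u ∈ N, θ (γ u) = θ u) →
      ∀ u ∈ N, ∀ w, θ (γ (u * w) * (u * w)⁻¹) = θ (γ w * w⁻¹) := fun γ m i u hu w => by
    have hγ : γ u ∈ N := by simpa using N.mul_mem (m u) hu
    rw [show γ (u * w) * (u * w)⁻¹ = γ u * (γ w * w⁻¹) * u⁻¹ by rw [map_mul]; group,
      hθ _ (N.mul_mem hγ (m w)) _ (N.inv_mem hu), hθ _ hγ _ (m w), hθ.inv hu, i u hu]
    ring
  have a₁ : ∀ w, θ (γ₁ (w * p) * (w * p)⁻¹) = θ (γ₁ w * w⁻¹) + θ (w * p * d * (w * p)⁻¹) :=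
    fun w => by
      rw [← hθ _ (m₁ w) _ (hc _), map_mul, p₁]; congr 1; group
  have a₂ : ∀ w, θ (γ₂ (w * p) * (w * p)⁻¹) = θ (γ₂ w * w⁻¹) + θ (w * d * w⁻¹) := fun w => by
    rw [← hθ _ (m₂ w) _ (hc _), map_mul, p₂]; congr 1; group
  have a₃ : ∀ w, θ (γ₃ (w * q) * (w * q)⁻¹) = θ (γ₃ w * w⁻¹) + θ (w * d * w⁻¹) := fun w => by
    rw [← hθ _ (m₃ w) _ (hc _), map_mul, q₃]; congr 1; group
  have b₁ : ∀ w, θ (γ₁ (w * q) * (w * q)⁻¹) = θ (γ₁ w * w⁻¹) := fun w => by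
    rw [map_mul, q₁]; congr 1; group
  have b₂ : ∀ w, θ (γ₂ (w * q) * (w * q)⁻¹) = θ (γ₂ w * w⁻¹) := fun w => by
    rw [map_mul, q₂]; congr 1; group
  have s₁ := sum_orth N (fun w => θ (γ₂ (w * p) * (w * p)⁻¹) - θ (γ₁ w * w⁻¹))
    (fun w => θ (γ₂ w * w⁻¹))
    (fun u hu w => by rw [mul_assoc u w p, hF γ₂ m₂ i₂ u hu, hF γ₁ m₁ i₁ u hu])
    (fun u hu w => hF γ₂ m₂ i₂ u hu w) p
    (fun w => by rw [a₂ (w * p), a₁ w]; ring)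
  have s₂ := sum_orth N (fun w => θ (γ₁ w * w⁻¹) - θ (γ₂ w * w⁻¹))
    (fun w => θ (γ₃ w * w⁻¹))
    (fun u hu w => by rw [hF γ₂ m₂ i₂ u hu, hF γ₁ m₁ i₁ u hu])
    (fun u hu w => hF γ₃ m₃ i₃ u hu w) q
    (fun w => by rw [b₁, b₂])
  have s : ∑ x : D ⧸ N, θ (x.out * d * x.out⁻¹) ^ 2 = 0 := by
    rw [← add_zero (0 : R)]
    nth_rewrite 2 [← s₂]
    nth_rewrite 1 [← s₁]
    rw [← Finset.sum_add_distrib]
    refine Finset.sum_congr rfl fun x _ => ?_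
    rw [a₂, a₃]
    ring
  have z := (Finset.sum_eq_zero_iff_of_nonneg fun x _ => sq_nonneg _).1 s (g : D ⧸ N)
    (Finset.mem_univ _)
  have h2 : g * ((g : D ⧸ N).out)⁻¹ ∈ N := by
    rw [← QuotientGroup.eq_one_iff]; simp
  have := hψ _ h2 (g : D ⧸ N).out
  rw [inv_mul_cancel_right] at this
  rw [this]
  exact pow_eq_zero_iff two_ne_zero |>.1 z

/-- An automorphism preserving a normal subgroup of finite index has a power that is trivial on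
the quotient. -/
theorem ex_pow_triv (N : Subgroup D) [N.Normal] [N.FiniteIndex] (γ : MulAut D)
    (hγ : ∀ u, γ u ∈ N ↔ u ∈ N) : ∃ k : ℕ, 0 < k ∧ ∀ w, (γ ^ k) w * w⁻¹ ∈ N := by
  have hp : ∀ (k : ℕ) u, (γ ^ k) u ∈ N ↔ u ∈ N := fun k => by
    induction k with
    | zero => simp
    | succ k ih => intro u; rw [pow_succ', MulAut.mul_apply, hγ, ih]
  have key : ∀ a b : ℕ, a < b →
      (fun x : D ⧸ N => (((γ ^ a) x.out : D) : D ⧸ N)) = (fun x => (((γ ^ b) x.out : D) : D ⧸ N)) →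
      ∃ k : ℕ, 0 < k ∧ ∀ w, (γ ^ k) w * w⁻¹ ∈ N := fun a b hab h => by
    obtain ⟨k, rfl⟩ := Nat.exists_eq_add_of_lt hab
    refine ⟨k + 1, k.succ_pos, fun w => ?_⟩
    have h1 := congrFun h (w : D ⧸ N)
    have h2 : w * ((w : D ⧸ N).out)⁻¹ ∈ N := by
      rw [← QuotientGroup.eq_one_iff]; simp
    set o := (w : D ⧸ N).out
    have h3 : (γ ^ (k + 1)) o * o⁻¹ ∈ N := by
      rw [← hp a, ← QuotientGroup.eq_one_iff, map_mul, map_inv, ← MulAut.mul_apply, ← pow_add,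
        QuotientGroup.mk_mul, QuotientGroup.mk_inv, ← add_assoc, ← h1, mul_inv_cancel]
    have h4 := N.mul_mem (N.mul_mem ((hp (k + 1) _).2 h2) h3) (N.inv_mem h2)
    rw [map_mul, map_inv] at h4
    simpa [mul_assoc] using h4
  obtain ⟨a, b, hab, h⟩ := Finite.exists_ne_map_eq_of_infinite
    (fun (a : ℕ) (x : D ⧸ N) => (((γ ^ a) x.out : D) : D ⧸ N))
  rcases lt_or_gt_of_ne hab with l | l
  · exact key a b l h
  · exact key b a l h.symm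

theorem pow_fix {γ : MulAut D} {x : D} (h : γ x = x) (k : ℕ) : (γ ^ k) x = x := by
  induction k with
  | zero => rfl
  | succ k ih => rw [pow_succ', MulAut.mul_apply, ih, h]

theorem pow_right {γ : MulAut D} {x d : D} (hd : γ d = d) (h : γ x = x * d) (k : ℕ) :
    (γ ^ k) x = x * d ^ k := by
  induction k with
  | zero => simp
  | succ k ih => rw [pow_succ, MulAut.mul_apply, h, map_mul, ih, pow_fix hd, pow_succ, mul_assoc]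

theorem pow_left {γ : MulAut D} {x d : D} (hd : γ d = d) (h : γ x = d * x) (k : ℕ) :
    (γ ^ k) x = d ^ k * x := by
  induction k with
  | zero => simp
  | succ k ih => rw [pow_succ, MulAut.mul_apply, h, map_mul, ih, pow_fix hd, pow_succ', mul_assoc]

/-- A property of automorphisms that holds for one power holds for all its multiples. -/
theorem pow_mul_of {P : MulAut D → Prop} (h1 : P 1) (hm : ∀ a b, P a → P b → P (a * b))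
    {γ : MulAut D} {k n : ℕ} (h : P (γ ^ k)) (hk : k ∣ n) : P (γ ^ n) := by
  obtain ⟨j, rfl⟩ := hk
  rw [pow_mul]
  induction j with
  | zero => simpa using h1
  | succ j ih => rw [pow_succ]; exact hm _ _ ih h

/-- The vanishing lemma for automorphisms a power of which fixes the character. -/
theorem hp_pow (N : Subgroup D) [hN : N.Normal] [N.FiniteIndex] {θ : D → R} (hθ : AddOn N θ)
    {p q d : D} (hd : d ∈ N) (γ₁ γ₂ γ₃ : MulAut D)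
    (m₁ : ∀ u, γ₁ u ∈ N ↔ u ∈ N) (m₂ : ∀ u, γ₂ u ∈ N ↔ u ∈ N) (m₃ : ∀ u, γ₃ u ∈ N ↔ u ∈ N)
    (i₁ : ∃ k : ℕ, 0 < k ∧ ∀ u ∈ N, θ ((γ₁ ^ k) u) = θ u)
    (i₂ : ∃ k : ℕ, 0 < k ∧ ∀ u ∈ N, θ ((γ₂ ^ k) u) = θ u)
    (i₃ : ∃ k : ℕ, 0 < k ∧ ∀ u ∈ N, θ ((γ₃ ^ k) u) = θ u)
    (d₁ : γ₁ d = d) (d₂ : γ₂ d = d) (d₃ : γ₃ d = d)
    (p₁ : γ₁ p = p * d) (q₁ : γ₁ q = q) (p₂ : γ₂ p = d * p) (q₂ : γ₂ q = q) (q₃ : γ₃ q = d * q)
    (g : D) : θ (g * d * g⁻¹) = 0 := by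
  have key : ∀ γ : MulAut D, (∀ u, γ u ∈ N ↔ u ∈ N) →
      (∃ k : ℕ, 0 < k ∧ ∀ u ∈ N, θ ((γ ^ k) u) = θ u) → ∃ k : ℕ, 0 < k ∧ ∀ n, k ∣ n →
        (∀ w, (γ ^ n) w * w⁻¹ ∈ N) ∧ ∀ u ∈ N, θ ((γ ^ n) u) = θ u := fun γ m i => by
    obtain ⟨k, hk, h⟩ := i
    obtain ⟨l, hl, h'⟩ := ex_pow_triv N γ m
    have hm : ∀ a b : MulAut D, (∀ w, a w * w⁻¹ ∈ N) → (∀ w, b w * w⁻¹ ∈ N) →
        ∀ w, (a * b) w * w⁻¹ ∈ N := fun a b ha hb w => by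
      simpa [mul_assoc] using N.mul_mem (ha (b w)) (hb w)
    have hp : ∀ (k : ℕ) u, u ∈ N → (γ ^ k) u ∈ N := fun k => by
      induction k with
      | zero => simp
      | succ k ih => intro u hu; rw [pow_succ', MulAut.mul_apply, m]; exact ih u hu
    refine ⟨k * l, mul_pos hk hl, fun n hn => ⟨?_, ?_⟩⟩
    · exact pow_mul_of (P := fun a => ∀ w, a w * w⁻¹ ∈ N) (by simp) hm h'
        ((Dvd.intro_left k rfl).trans hn)
    · exact fun u hu => (pow_mul_of (P := fun a => ∀ u ∈ N, a u ∈ N ∧ θ (a u) = θ u) (by simp)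
        (fun a b ha hb u hu => ⟨(ha _ (hb u hu).1).1, ((ha _ (hb u hu).1).2).trans (hb u hu).2⟩)
        (fun u hu => ⟨hp k u hu, h u hu⟩) ((Dvd.intro l rfl).trans hn) u hu).2
  obtain ⟨k₁, l₁, h₁⟩ := key γ₁ m₁ i₁
  obtain ⟨k₂, l₂, h₂⟩ := key γ₂ m₂ i₂
  obtain ⟨k₃, l₃, h₃⟩ := key γ₃ m₃ i₃
  obtain ⟨n, hn⟩ : ∃ n, n = k₁ * k₂ * k₃ := ⟨_, rfl⟩
  have n0 : 0 < n := hn ▸ mul_pos (mul_pos l₁ l₂) l₃
  have e₁ := h₁ n ⟨k₂ * k₃, by rw [hn]; ring⟩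
  have e₂ := h₂ n ⟨k₁ * k₃, by rw [hn]; ring⟩
  have e₃ := h₃ n ⟨k₁ * k₂, by rw [hn]; ring⟩
  have := hp_abs N hθ (p := p) (q := q) (N.pow_mem hd n) (γ₁ ^ n).toMonoidHom (γ₂ ^ n).toMonoidHom
    (γ₃ ^ n).toMonoidHom e₁.1 e₂.1 e₃.1 e₁.2 e₂.2 e₃.2 (pow_right d₁ p₁ n) (pow_fix q₁ n)
    (pow_left d₂ p₂ n) (pow_fix q₂ n) (pow_left d₃ q₃ n) g
  rw [← conj_pow, hθ.pow (hN.conj_mem d hd g)] at this
  exact (mul_eq_zero.1 this).resolve_left (by exact_mod_cast n0.ne')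

omit [CommRing R] [LinearOrder R] [IsStrictOrderedRing R] in
/-- In a finite family that is permuted by an automorphism a power fixes each member. -/
theorem ex_pow_fam (N : Subgroup D) {Θ : Set (D → R)} (hΘ : Θ.Finite) (γ : MulAut D)
    (m : ∀ u, γ u ∈ N ↔ u ∈ N) (h : ∀ θ ∈ Θ, ∃ θ' ∈ Θ, ∀ u ∈ N, θ' (γ u) = θ u)
    {θ : D → R} (hθ : θ ∈ Θ) : ∃ k : ℕ, 0 < k ∧ ∀ u ∈ N, θ ((γ ^ k) u) = θ u := by
  have hp : ∀ (k : ℕ) u, (γ ^ k) u ∈ N ↔ u ∈ N := fun k => by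
    induction k with
    | zero => simp
    | succ k ih => intro u; rw [pow_succ', MulAut.mul_apply, m, ih]
  have h1 : ∀ k : ℕ, ∃ θ' : Θ, ∀ u ∈ N, θ'.1 ((γ ^ k) u) = θ u := fun k => by
    induction k with
    | zero => exact ⟨⟨θ, hθ⟩, fun u _ => rfl⟩
    | succ k ih =>
      obtain ⟨a, ha⟩ := ih
      obtain ⟨b, hb, hb'⟩ := h a.1 a.2
      exact ⟨⟨b, hb⟩, fun u hu => by
        rw [pow_succ', MulAut.mul_apply]
        exact (hb' _ ((hp k u).2 hu)).trans (ha u hu)⟩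
  choose t ht using h1
  have key : ∀ a b : ℕ, a < b → t a = t b → ∃ k : ℕ, 0 < k ∧ ∀ u ∈ N, θ ((γ ^ k) u) = θ u :=
    fun a b hab e => by
      obtain ⟨k, rfl⟩ := Nat.exists_eq_add_of_lt hab
      refine ⟨k + 1, k.succ_pos, fun u hu => ?_⟩
      rw [← ht a _ ((hp _ u).2 hu), ← ht (a + k + 1) u hu, e, ← MulAut.mul_apply, ← pow_add,
        add_assoc]
  have := hΘ.to_subtype
  obtain ⟨a, b, hab, e⟩ := Finite.exists_ne_map_eq_of_infinite t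
  rcases lt_or_gt_of_ne hab with l | l
  · exact key a b l e
  · exact key b a l e.symm

/-- The vanishing lemma for a finite family of characters permuted by the three twists. -/
theorem hp_fam (N : Subgroup D) [N.Normal] [N.FiniteIndex] {Θ : Set (D → R)} (hΘ : Θ.Finite)
    (ha : ∀ θ ∈ Θ, AddOn N θ) {p q d : D} (hd : d ∈ N) (γ₁ γ₂ γ₃ : MulAut D)
    (m₁ : ∀ u, γ₁ u ∈ N ↔ u ∈ N) (m₂ : ∀ u, γ₂ u ∈ N ↔ u ∈ N) (m₃ : ∀ u, γ₃ u ∈ N ↔ u ∈ N)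
    (i₁ : ∀ θ ∈ Θ, ∃ θ' ∈ Θ, ∀ u ∈ N, θ' (γ₁ u) = θ u)
    (i₂ : ∀ θ ∈ Θ, ∃ θ' ∈ Θ, ∀ u ∈ N, θ' (γ₂ u) = θ u)
    (i₃ : ∀ θ ∈ Θ, ∃ θ' ∈ Θ, ∀ u ∈ N, θ' (γ₃ u) = θ u)
    (d₁ : γ₁ d = d) (d₂ : γ₂ d = d) (d₃ : γ₃ d = d)
    (p₁ : γ₁ p = p * d) (q₁ : γ₁ q = q) (p₂ : γ₂ p = d * p) (q₂ : γ₂ q = q) (q₃ : γ₃ q = d * q)
    {θ : D → R} (hθ : θ ∈ Θ) (g : D) : θ (g * d * g⁻¹) = 0 :=
  hp_pow N (ha θ hθ) hd γ₁ γ₂ γ₃ m₁ m₂ m₃ (ex_pow_fam N hΘ γ₁ m₁ i₁ hθ)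
    (ex_pow_fam N hΘ γ₂ m₂ i₂ hθ) (ex_pow_fam N hΘ γ₃ m₃ i₃ hθ) d₁ d₂ d₃ p₁ q₁ p₂ q₂ q₃ g

end Abs

end Pool.Agent.MP_3ce0a0_al.Q2T12
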