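import Pool.Agent.MP_3ce0a0_al.Q2T15.Basic

/-!
Lemma K, the combinatorics of a twisted word.
-/

set_option autoImplicit false

namespace Pool.Agent.MP_3ce0a0_al.Q2T12.K

open Pool.Agent.MP_3ce0a0_al.Q2T15 FreeGroup

variable {α : Type}

open Classical in
/-- The conjugating elements and signs that occur in a twisted word. -/
noncomputable def ent (h : α × Bool) : FreeGroup α → List (α × Bool) → List (FreeGroup α × ℤ)
  | _, [] => []
  | g, x :: L =>
    if x = h then (g * mk [x], 1) :: ent h (g * mk [x]) L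
    else if x.1 = h.1 then (g, -1) :: ent h (g * mk [x]) L else ent h (g * mk [x]) L

theorem mk_cons (x : α × Bool) (L : List (α × Bool)) : mk (x :: L) = mk [x] * mk L := by
  rw [mul_mk]; rfl

theorem mk_true (y : α) : mk [(y, true)] = of y := rfl

theorem mk_false (y : α) : mk [(y, false)] = (of y)⁻¹ := by
  rw [← mk_true, inv_mk]; rfl

theorem mk_one_mem {I : Set α} {x : α × Bool} (hx : x.1 ∈ I) : mk [x] ∈ std I := by
  obtain ⟨y, s⟩ := x
  cases s
  · rw [mk_false]; exact inv_mem (of_mem_std hx)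
  · rw [mk_true]; exact of_mem_std hx

theorem mk_mem {I : Set α} : ∀ L : List (α × Bool), (∀ x ∈ L, x.1 ∈ I) → mk L ∈ std I
  | [], _ => by rw [← one_eq_mk]; exact one_mem _
  | x :: L, h => by
    rw [mk_cons]
    exact mul_mem (mk_one_mem (h x (by simp))) (mk_mem L fun y hy => h y (by simp [hy]))

theorem tw_same {h : α × Bool} {u : FreeGroup α} (hu : u ∈ std ({h.1}ᶜ : Set α)) :
    tw h u (mk [h]) = mk [h] * u := by
  obtain ⟨y, s⟩ := h
  cases s
  · rw [mk_false, _root_.map_inv, tw_false hu, mul_inv_rev, inv_inv]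
  · rw [mk_true, tw_true hu]

theorem tw_opp {h x : α × Bool} {u : FreeGroup α} (hu : u ∈ std ({h.1}ᶜ : Set α)) (h1 : x ≠ h)
    (h2 : x.1 = h.1) : tw h u (mk [x]) = u⁻¹ * mk [x] := by
  obtain ⟨y, s⟩ := h
  obtain ⟨z, t⟩ := x
  obtain rfl : z = y := h2
  cases s <;> cases t
  · exact absurd rfl h1
  · rw [mk_true, tw_false hu]
  · rw [mk_false, _root_.map_inv, tw_true hu, mul_inv_rev]
  · exact absurd rfl h1

theorem ent_prod {h : α × Bool} {u : FreeGroup α} (hu : u ∈ std ({h.1}ᶜ : Set α)) :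
    ∀ (L : List (α × Bool)) (g : FreeGroup α), g * (tw h u (mk L) * (mk L)⁻¹) * g⁻¹
      = ((ent h g L).map fun p => (p.1 * u * p.1⁻¹) ^ p.2).prod
  | [], g => by rw [← one_eq_mk]; simp [ent]
  | x :: L, g => by
    have ih := ent_prod hu L (g * mk [x])
    rw [mk_cons, _root_.map_mul, ent]
    split_ifs with h1 h2
    · rw [List.map_cons, List.prod_cons, ← ih, h1, tw_same hu]; group
    · rw [List.map_cons, List.prod_cons, ← ih, tw_opp hu h1 h2]; group
    · rw [← ih, tw_std h u (mk_one_mem h2)]; group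

theorem ent_mem {h : α × Bool} {J : Set α} : ∀ (L : List (α × Bool)) (g : FreeGroup α),
    g ∈ std J → (∀ x ∈ L, x.1 ∈ J) → ∀ p ∈ ent h g L, p.1 ∈ std J ∧ p.2 ≠ 0
  | [], g, _, _ => by simp [ent]
  | x :: L, g, hg, hL => by
    have k := mul_mem hg (mk_one_mem (hL x (by simp)))
    have ih := ent_mem (h := h) L (g * mk [x]) k fun y hy => hL y (by simp [hy])
    rw [ent]
    split_ifs
    · exact List.forall_mem_cons.2 ⟨⟨k, one_ne_zero⟩, ih⟩
    · exact List.forall_mem_cons.2 ⟨⟨hg, by simp⟩, ih⟩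
    · exact ih

theorem ent_head {h : α × Bool} : ∀ (L : List (α × Bool)) (g : FreeGroup α),
    ∀ p ∈ (ent h g L).head?, ∃ L₁ L₂, L = L₁ ++ L₂ ∧ p.1 = g * mk L₁ ∧
      (L₁ = [] → ∃ x ∈ L.head?, x ≠ h ∧ x.1 = h.1)
  | [], g => by simp [ent]
  | x :: L, g => by
    intro p hp
    rw [ent] at hp
    split_ifs at hp with h1 h2
    · obtain rfl := Option.some.inj hp
      exact ⟨[x], L, rfl, rfl, by simp⟩
    · obtain rfl := Option.some.inj hp
      exact ⟨[], x :: L, rfl, by rw [← one_eq_mk, mul_one], fun _ => ⟨x, rfl, h1, h2⟩⟩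
    · obtain ⟨L₁, L₂, e1, e2, -⟩ := ent_head L _ p hp
      exact ⟨x :: L₁, L₂, by rw [e1]; rfl, by rw [e2, mk_cons x L₁, mul_assoc], by simp⟩

/-- Consecutive entries differ by a non-empty block of the word. -/
def Blk (L : List (α × Bool)) (p q : FreeGroup α × ℤ) : Prop :=
  ∃ A M B, L = A ++ M ++ B ∧ M ≠ [] ∧ q.1 = p.1 * mk M

theorem Blk.cons {L : List (α × Bool)} (x : α × Bool) {p q : FreeGroup α × ℤ} (h : Blk L p q) :
    Blk (x :: L) p q := by
  obtain ⟨A, M, B, e, k⟩ := h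
  exact ⟨x :: A, M, B, by rw [e]; rfl, k⟩

theorem ent_top {h : α × Bool} {L : List (α × Bool)} (hL : IsReduced (h :: L)) (g : FreeGroup α)
    (ih : (ent h g L).IsChain (Blk L)) : ((g, (1 : ℤ)) :: ent h g L).IsChain (Blk L) := by
  refine ih.cons fun p hp => ?_
  obtain ⟨L₁, L₂, e1, e2, e3⟩ := ent_head L g p hp
  refine ⟨[], L₁, L₂, e1, fun k => ?_, e2⟩
  obtain ⟨x, hx, k1, k2⟩ := e3 k
  exact k1 (Prod.ext k2 ((List.isChain_cons.1 hL).1 x hx k2.symm).symm)

theorem ent_chain {h : α × Bool} : ∀ (L : List (α × Bool)) (g : FreeGroup α), IsReduced L →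
    (ent h g L).IsChain (Blk L)
  | [], g, _ => by simp [ent]
  | x :: L, g, hL => by
    have ih := ent_chain (h := h) L (g * mk [x]) (List.isChain_cons.1 hL).2
    rw [ent]
    split_ifs with h1 h2
    · exact (ent_top (h1 ▸ hL) _ ih).imp fun _ _ k => k.cons x
    · refine (ih.imp fun _ _ k => k.cons x).cons fun p hp => ?_
      obtain ⟨L₁, L₂, e1, e2, -⟩ := ent_head L _ p hp
      exact ⟨[], x :: L₁, L₂, by rw [e1]; rfl, by simp, by rw [e2, mk_cons x L₁, mul_assoc]⟩
    · exact ih.imp fun _ _ k => k.cons x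

theorem ent_first {h : α × Bool} {L : List (α × Bool)} (hL : IsReduced (h :: L)) :
    ent h 1 (h :: L) ≠ [] ∧ (ent h 1 (h :: L)).IsChain (Blk L) := by
  rw [ent, if_pos rfl]
  exact ⟨by simp, ent_top hL _ (ent_chain L _ (List.isChain_cons.1 hL).2)⟩

theorem ex_word {I : Set α} {w : FreeGroup α} (hw : w ∈ std I) :
    ∃ L : List (α × Bool), IsReduced L ∧ (∀ x ∈ L, x.1 ∈ I) ∧ mk L = w := by
  classical
  have : ∃ L : List (α × Bool), (∀ x ∈ L, x.1 ∈ I) ∧ mk L = w := by
    induction hw using Subgroup.closure_induction with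
    | mem x hx =>
      obtain ⟨x, hx, rfl⟩ := hx
      exact ⟨[(x, true)], by simpa using hx, rfl⟩
    | one => exact ⟨[], by simp, rfl⟩
    | mul x y _ _ ihx ihy =>
      obtain ⟨L, h1, rfl⟩ := ihx
      obtain ⟨M, h2, rfl⟩ := ihy
      exact ⟨L ++ M, fun z hz => (List.mem_append.1 hz).elim (h1 z) (h2 z), mul_mk.symm⟩
    | inv x _ ih =>
      obtain ⟨L, h1, rfl⟩ := ih
      refine ⟨invRev L, fun z hz => ?_, inv_mk.symm⟩
      simp only [invRev, List.mem_reverse, List.mem_map] at hz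
      obtain ⟨y, hy, rfl⟩ := hz
      exact h1 y hy
  obtain ⟨L, h1, rfl⟩ := this
  exact ⟨(mk L).toWord, isReduced_toWord,
    fun x hx => h1 x ((Red.sublist reduce.red).subset (by rwa [toWord_mk] at hx)), mk_toWord⟩

end Pool.Agent.MP_3ce0a0_al.Q2T12.K
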