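import Pool.Agent.MP_3ce0a0_al.Q2T12.KA
import Pool.Agent.MP_3ce0a0_al.Q2T12.KW

/-!
Lemma K, part (c) and the conclusion.
-/

set_option autoImplicit false

namespace Pool.Agent.MP_3ce0a0_al.Q2T12

open Pool.Agent.MP_3ce0a0_al.Q2T15 Pool.Agent.MP_3ce0a0_al.Q2T4A

namespace K

variable {α F : Type} [Group F] [IsFreeGroup F]
variable {J : Set α} {D Bb : Subgroup (FreeGroup α)}

/-- No conjugate of a power of a letter is killed. -/
def NZ (J : Set α) (D : Subgroup (FreeGroup α)) (f : FreeGroup α → F) : Prop :=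
  ∀ g ∈ std J, ∀ t ∈ J, ¬ Z D (cj g f) t

omit [IsFreeGroup F] in
theorem NZ.conj {f : FreeGroup α → F} (h : NZ J D f) {g : FreeGroup α} (hg : g ∈ std J) :
    NZ J D (cj g f) := fun k hk t ht => by
  rw [cj_cj]; exact h _ (mul_mem hg hk) t ht

theorem KD.nonAb {f : FreeGroup α → F} (H : KD J D Bb f) (hz : NZ J D f) {E : Set α}
    (hE : E ⊆ J) (hle : D ⊓ std E ≤ Bb) {t p q : α} (ht : t ∈ E) (hp : p ∈ E) (hq : q ∈ E)
    (hpq : p ≠ q) (htp : t ≠ p) (htq : t ≠ q) {A : Subgroup (FreeGroup α)}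
    (hA : A.relIndex (std E) ≠ 0) : NonAb (hm f (A ⊓ (D ⊓ std E))) := by
  by_contra k
  obtain ⟨M, M0, -, M1⟩ := Subgroup.exists_pow_mem_of_relIndex_ne_zero H.fi (of_mem_std (hE ht))
  refine hz 1 (one_mem _) t (hE ht) ⟨M, M0, M1.1, ?_⟩
  rw [cj_one]
  refine H.partA hE hle hp hq hpq hA k ⟨M1.1, pow_mem (of_mem_std ht) M⟩
    (pow_mem (of_mem_std ?_) M)
  rintro (e | e)
  exacts [htp e, htq e]

omit [IsFreeGroup F] in
theorem map_prod_conj {f : FreeGroup α → F} (H : KD J D Bb f) {A : Subgroup (FreeGroup α)}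
    (hA : A ≤ Bb) (v : A) : ∀ P : List (FreeGroup α × ℤ), (∀ p ∈ P, p.1 ∈ std J) →
    (P.map fun p => (p.1 * v.1 * p.1⁻¹) ^ p.2).prod ∈ Bb ∧
    f (P.map fun p => (p.1 * v.1 * p.1⁻¹) ^ p.2).prod
      = pw (P.map fun p => (hm (cj p.1 f) A, p.2)) v
  | [], _ => by simpa [pw] using H.mul.one
  | p :: P, h => by
    have ih := map_prod_conj H hA v P fun q hq => h q (by simp [hq])
    have hp := h p (by simp)
    have k := H.nB _ hp _ (hA v.2)
    rw [List.map_cons, List.prod_cons]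
    refine ⟨mul_mem (zpow_mem k _) ih.1, ?_⟩
    rw [H.mul _ (zpow_mem k _) _ ih.1, ih.2, H.mul.zpow k, List.map_cons, pw, pw, List.map_cons,
      List.prod_cons, hm_apply ((H.conj hp).mul.mono hA)]
    rfl

/-- Part (c). -/
theorem partC {E : Set α} (hE : E ⊆ J) (hle : D ⊓ std E ≤ Bb) {t p q : α} (ht : t ∈ E)
    (hp : p ∈ E) (hq : q ∈ E) (hpq : p ≠ q) (htp : t ≠ p) (htq : t ≠ q) (n : ℕ) :
    ∀ L : List (α × Bool), L.length ≤ n → L ≠ [] → FreeGroup.IsReduced L →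
      (∀ x ∈ L, x.1 ∈ J ∧ x.1 ∉ E) → ∀ f : FreeGroup α → F, KD J D Bb f → NZ J D f →
      ∀ A : Subgroup (FreeGroup α), A.relIndex (std E) ≠ 0 →
      ¬ ∀ u ∈ A ⊓ (D ⊓ std E), f u = cj (FreeGroup.mk L) f u := by
  induction n with
  | zero => exact fun L h1 h2 => absurd (List.length_eq_zero_iff.1 (Nat.le_zero.1 h1)) h2
  | succ n ih =>
    intro L l1 l2 l3 l4 f H hz A hA hf
    obtain ⟨h, T, rfl⟩ := List.exists_cons_of_ne_nil l2
    obtain ⟨hJ, hhE⟩ := l4 h (by simp)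
    obtain ⟨K, hK, h2⟩ := H.eqv h hJ
    have hK' := ri_mono hK hE
    have hl : K ⊓ (D ⊓ std E) ≤ Bb := inf_le_right.trans hle
    have wJ : FreeGroup.mk (h :: T) ∈ std J := mk_mem _ fun x hx => (l4 x hx).1
    have em := ent_mem (h := h) (h :: T) 1 (one_mem _) fun x hx => (l4 x hx).1
    obtain ⟨e1, e2⟩ := ent_first l3
    refine bpp_chain ((ent h 1 (h :: T)).map fun p => (hm (cj p.1 f) (K ⊓ (D ⊓ std E)), p.2))
      (by simpa using e1) (fun x hx => ?_) (fun v => ?_) ?_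
    · obtain ⟨y, hy, rfl⟩ := List.mem_map.1 hx
      exact ⟨(H.conj (em y hy).1).nonAb (hz.conj (em y hy).1) hE hle ht hp hq hpq htp htq hK',
        (em y hy).2⟩
    · have v1 : v.1 ∈ std ({h.1}ᶜ : Set α) := mem_std_compl hhE v.2.2.2
      obtain ⟨a, ha⟩ := h2 v v.2.1 (hl v.2) v1
      rw [← (map_prod_conj H hl v _ fun x hx => (em x hx).1).2, ← ent_prod v1, one_mul, inv_one,
        mul_one]
      have hc := tw_mul_inv_mem H.nB h (hl v.2) v1 wJ
      refine (H.nonAb hz hE hle ht hp hq hpq htp htq hA).eq_one fun u => ?_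
      have uB : u.1 ∈ Bb := hle u.2.2
      have u1 : tw h v u = u := tw_std h v (mem_std_compl hhE u.2.2.2)
      have u2 := H.nB _ wJ _ uB
      have u3 := ha _ uB
      have u4 := ha _ u2
      have u5 : f u = f (FreeGroup.mk (h :: T) * u * (FreeGroup.mk (h :: T))⁻¹) := hf u u.2
      rw [u1] at u3
      rw [← u5, ← u3] at u4
      rw [hm_apply (H.mul.mono (inf_le_right.trans hle)), Commute, SemiconjBy]
      nth_rewrite 1 [u5]
      rw [← u4, ← H.mul _ hc _ u2, ← H.mul _ (tw_mem_of H.nB h (hl v.2) v1 (H.leB u2) u2) _ hc]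
      congr 1
      rw [map_mul, map_mul, map_inv, u1]
      group
    · rw [List.isChain_map]
      refine e2.imp_of_mem_imp fun x y hx _ k k2 => ?_
      obtain ⟨B, M, C, b1, b2, b3⟩ := k
      have l5 : FreeGroup.IsReduced T := (List.isChain_cons.1 l3).2
      rw [b1] at l5
      refine (ih M ?_ b2 (List.isChain_append.1 (List.isChain_append.1 l5).1).2.1
        (fun z hz' => l4 z (by simp [b1, hz'])) (cj x.1 f) (H.conj (em x hx).1)
        (hz.conj (em x hx).1) K hK' fun u hu => ?_).elim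
      · have := congrArg List.length b1
        simp only [List.length_append, List.length_cons] at this l1
        omega
      · have yJ : x.1 * FreeGroup.mk M ∈ std J :=
          mul_mem (em x hx).1 (mk_mem _ fun z hz' => (l4 z (by simp [b1, hz'])).1)
        have := DFunLike.congr_fun k2 ⟨u, hu⟩
        simp only [b3] at this
        rw [hm_apply ((H.conj (em x hx).1).mul.mono hl), hm_apply ((H.conj yJ).mul.mono hl)]
          at this
        rw [cj_cj]
        exact this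

theorem ex_four {I : Set α} (h : Co 4 I J) : ∃ r s p q, (r ∈ J ∧ s ∈ J ∧ p ∈ J ∧ q ∈ J) ∧
    (r ∉ I ∧ s ∉ I ∧ p ∉ I ∧ q ∉ I) ∧ s ≠ r ∧ p ≠ r ∧ q ≠ r ∧ p ≠ s ∧ q ≠ s ∧ p ≠ q := by
  obtain ⟨-, S, h1, h2, h3⟩ := h
  obtain ⟨e⟩ : Nonempty (Fin 4 ↪ S) := Function.Embedding.nonempty_of_card_le (by simpa using h1)
  have k : ∀ i j, i ≠ j → (e i : α) ≠ e j := fun i j hij c => hij (e.injective (Subtype.ext c))
  have k1 : ∀ i, (e i : α) ∈ J := fun i => h2 (e i).2
  have k2 : ∀ i, (e i : α) ∉ I := fun i => Set.disjoint_left.1 h3 (e i).2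
  exact ⟨e 0, e 1, e 2, e 3, ⟨k1 _, k1 _, k1 _, k1 _⟩, ⟨k2 _, k2 _, k2 _, k2 _⟩,
    k _ _ (by decide), k _ _ (by decide), k _ _ (by decide), k _ _ (by decide), k _ _ (by decide),
    k _ _ (by decide)⟩

theorem KD.main {f : FreeGroup α → F} (H : KD J D Bb f) :
    (∀ I, Co 4 I J → ∀ b ∈ D, b ∈ std I → f b = 1) ∨
      ∀ I, Co 4 I J → ∀ b ∈ D, b ∈ std I → f b = 1 → b = 1 := by
  by_cases hz : NZ J D f
  · refine Or.inr fun I hI b hb hb' h1 => ?_
    obtain ⟨r, t, p, q, ⟨j1, j2, j3, j4⟩, ⟨i1, i2, i3, i4⟩, n1, n2, n3, n4, n5, n6⟩ := ex_four hI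
    obtain ⟨s, hs, s1, s2, s3, s4⟩ := H.big r t p q
    obtain ⟨L, l1, l2, rfl⟩ := ex_word hb'
    by_contra k
    have hE : ({t, p, q} : Set α) ⊆ J := by
      rintro x (rfl | rfl | rfl) <;> assumption
    have hle := H.co r j1 s hs s1.symm _ hE (by simp [n1.symm, n2.symm, n3.symm])
      (by simp [s2, s3, s4])
    have hB := H.co r j1 t j2 n1.symm I hI.1 i1 i2 ⟨hb, hb'⟩
    refine partC hE hle (t := t) (p := p) (q := q) (by simp) (by simp) (by simp) n6 n4.symm n5.symm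
      L.length L le_rfl (fun c => k (by rw [c]; rfl)) l1 (fun x hx => ⟨hI.1 (l2 x hx), ?_⟩) f H hz
      ⊤ (by simp) fun u hu => ?_
    · have := l2 x hx
      rintro (c | c | c) <;> rw [c] at this <;> contradiction
    · have uB := hle hu.2
      rw [cj, H.mul _ (mul_mem hB uB) _ (inv_mem hB), H.mul _ hB _ uB, H.mul.inv hB, h1]
      simp
  · refine Or.inl fun I hI b hb hb' => ?_
    simp only [NZ, not_forall, not_not] at hz
    obtain ⟨g, hg, t, ht, hz⟩ := hz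
    obtain ⟨r, s, p, q, ⟨j1, j2, j3, j4⟩, ⟨i1, i2, i3, i4⟩, n1, n2, n3, n4, n5, n6⟩ := ex_four hI
    have := H.partB1 j1 (H.partB hg ht hz r j1) 0 j2 j3 j4 n1 n2 n3 n4 n5 n6 hI.1 i1 i2 i3 i4 hb hb'
    rwa [zpow_zero, cj_one] at this

theorem ri_of_finite {G R : Type} [Group G] (H B : Subgroup G) (S : Set R) (hS : S.Finite)
    (φ : G → R) (h1 : ∀ x ∈ B, φ x ∈ S) (h2 : ∀ x ∈ B, ∀ y ∈ B, φ x = φ y → x⁻¹ * y ∈ H) :
    H.relIndex B ≠ 0 := by
  have := hS.to_subtype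
  have : Finite (B ⧸ H.subgroupOf B) := by
    refine Finite.of_injective (fun x => (⟨φ x.out, h1 _ x.out.2⟩ : S)) fun x y e => ?_
    rw [← x.out_eq, ← y.out_eq]
    exact QuotientGroup.eq.2 (h2 _ x.out.2 _ y.out.2 (congrArg Subtype.val e))
  exact Subgroup.index_ne_zero_of_finite

end K

open K in
theorem lemK : LemK := by
  intro α F _ _ _ J D Bb f h11 hD hle hB hco hmul ⟨R, hR, hv⟩
  classical
  refine KD.main (Bb := Bb) ⟨fun a b c d => ?_, hD.fi, hD.inv.normBy hD.le, hle.trans hD.le,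
    hB.normBy (hle.trans hD.le), fun p hp q hq hpq E hE pE qE b hb => ?_, hmul, fun h hh => ?_⟩
  · obtain ⟨-, S, h1, h2, -⟩ := h11
    obtain ⟨s, s1, s2⟩ := Finset.exists_mem_notMem_of_card_lt_card
      (lt_of_le_of_lt (Finset.card_le_four (a := a) (b := b) (c := c) (d := d))
        (lt_of_lt_of_le (by norm_num) h1))
    exact ⟨s, h2 s1, by simpa using s2⟩
  · refine hco E ⟨hE, {p, q}, by rw [Finset.card_pair hpq], ?_, ?_⟩ b hb.1 hb.2
    · simpa [Set.insert_subset_iff] using ⟨hp, hq⟩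
    · simpa using ⟨pE, qE⟩
  · let P : Subgroup (MulAut (FreeGroup α)) :=
      { carrier := {γ | γ ∈ NA J ∧ ∃ a : MulAut F, ∀ u ∈ Bb, f (γ u) = a (f u)}
        one_mem' := ⟨one_mem _, 1, fun _ _ => rfl⟩
        mul_mem' := by
          rintro x y ⟨hx, a, ha⟩ ⟨hy, b, hb⟩
          refine ⟨mul_mem hx hy, a * b, fun u hu => ?_⟩
          rw [MulAut.mul_apply, ha _ (hB y hy u hu), hb u hu, MulAut.mul_apply]
        inv_mem' := by
          rintro x ⟨hx, a, ha⟩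
          refine ⟨inv_mem hx, a⁻¹, fun u hu => a.injective ?_⟩
          rw [← ha _ (hB _ (inv_mem hx) u hu), MulAut.apply_inv_self, MulAut.apply_inv_self] }
    choose! a r hr ha using hv
    refine ⟨P.comap (tw h), ri_of_finite _ _ R hR (fun x => r (tw h x))
      (fun x hx => hr _ (tw_mem_NA hh hx)) fun x hx y hy e => ?_, fun b hb _ _ => hb.2⟩
    have x1 := tw_mem_NA hh hx
    have y1 := tw_mem_NA hh hy
    have z1 := tw_mem_NA hh (mul_mem (inv_mem hx) hy)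
    refine ⟨z1, (a (tw h x))⁻¹ * a (tw h y), fun u hu => (a (tw h x)).injective ?_⟩
    rw [ha _ x1 _ (hB _ z1 u hu), ← MulAut.mul_apply, ← map_mul, mul_inv_cancel_left,
      MulAut.mul_apply, MulAut.apply_inv_self, ha _ y1 u hu, e]

end Pool.Agent.MP_3ce0a0_al.Q2T12
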