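import Pool.Agent.MP_3ce0a0_al.Q2T12.Spec
import Pool.Agent.MP_3ce0a0_al.Q2T1.Isom
import Pool.Agent.MP_3ce0a0_al.Q2T4A.Alg
import Pool.Agent.MP_3ce0a0_al.Q2T15.G
import Pool.Agent.MP_3ce0a0_al.Q2T15.Ext

/-! Step 4d: the walk through trivial vertices and small lemmas. -/

set_option autoImplicit false

namespace Pool.Agent.MP_3ce0a0_al.Q2T12

open H79 Q2T1 Q2T15 Q2T13

namespace W

section Simp

variable {X : Type} [MetricSpace X] [IsSimp X]

theorem btw_adj {x y m : X} (h : dist x y = 1) (hm : Btw x m y) : m = x ∨ m = y := by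
  obtain ⟨i, hi⟩ := IsSimp.int x m
  obtain ⟨j, hj⟩ := IsSimp.int m y
  have e : (i : ℝ) + j = 1 := by rw [← hi, ← hj, ← h]; exact hm
  have e' : i + j = 1 := by exact_mod_cast e
  rcases Nat.eq_zero_or_pos i with h0 | h0
  · left
    rw [h0, Nat.cast_zero, dist_eq_zero] at hi
    exact hi.symm
  · right
    have : j = 0 := by omega
    rwa [this, Nat.cast_zero, dist_eq_zero] at hj

theorem btw_nbrs {x y z : X} (h : dist x y = 1) (h' : dist y z = 1) (hne : z ≠ x) :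
    Btw x y z := by
  rcases btw_adj h (med_btw12 x y z) with e | e
  · have h1 := med_btw23 x y z
    rw [e] at h1
    rcases btw_adj h' h1 with e' | e'
    · rw [e', dist_self] at h
      exact absurd h zero_ne_one
    · exact absurd e'.symm hne
  · exact med_eq_mid_iff.1 e

end Simp

theorem common_fix {G X : Type} [Group G] [MetricSpace X] [IsTree X] [MulAction G X]
    [IsIsometricSMul G X] {g h : G} (hg : Ell X g) (hh : Ell X h) (hgh : Ell X (g * h)) :
    ∃ x : X, g • x = x ∧ h • x = x := by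
  obtain ⟨x, hx⟩ := hgh
  have e : g⁻¹ • x = h • x := by rw [inv_smul_eq_iff, ← mul_smul, hx]
  obtain ⟨p, hp, d1, b1⟩ := ex_proj (Or.inl hh) x
  obtain ⟨q, hq, d2, b2⟩ := ex_proj (Or.inl hg.inv) x
  rw [hh.tl_eq] at d1
  rw [hg.inv.tl_eq, e] at d2
  rw [e] at b2
  have : p = q := b1.eq_of_dist b2 (by linarith)
  subst this
  exact ⟨p, (inv_smul_eq_iff.1 (hg.inv.mem_Ch.1 hq.1)).symm, hh.mem_Ch.1 hp.1⟩

variable {F : Type} [Group F] {S : FTree F}

theorem conj_ι (e : S.E) (g : F) : e * S.ι g * e⁻¹ = S.ι ((e : MulAut F) g) := by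
  apply Subtype.ext
  rw [Subgroup.coe_mul, Subgroup.coe_mul, Subgroup.coe_inv, S.coe_ι, S.coe_ι]
  ext x
  simp

theorem mul_ι (e : S.E) (g : F) : e * S.ι g = S.ι ((e : MulAut F) g) * e := by
  rw [← conj_ι, inv_mul_cancel_right]

theorem ι_smul (e : S.E) (g : F) (x : S.X) :
    S.ι ((e : MulAut F) g) • e • x = e • S.ι g • x := by
  rw [← mul_smul, ← mul_ι, mul_smul]

theorem fix_unique {g : F} (hg : g ≠ 1) {v w : S.X} (hv : S.ι g • v = v) (hw : S.ι g • w = w) :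
    v = w := by
  by_contra hne
  obtain ⟨z, hz, hb⟩ := IsSimp.geo v w hne
  exact hg (S.edge g v z hz hv (hb.fix hv hw))

theorem ne_of_adj {v w : S.X} (h : dist v w = 1) : v ≠ w := fun e => by
  rw [e, dist_self] at h
  exact zero_ne_one h

end W

open W

variable {F : Type} [Group F]

theorem walk (S : FTree F) (T : Set S.E) {v w : S.X} (hvw : dist v w = 1)
    (hT : ∀ t ∈ T, t • v = v ∧ t • w = w)
    (htriv : ∀ t ∈ T, ∀ x y : S.X, dist x y = 1 → ∃ g : F, S.ι g • x = t • x ∧ S.ι g • y = t • y)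
    (hper : ∀ g : F, (∀ t ∈ T, (t : MulAut F) g = g) → Ell S.X (S.ι g)) :
    ∃ z, z ≠ v ∧ (∃ g : F, g ≠ 1 ∧ S.ι g • z = z) ∧ ∀ t ∈ T, t • z = z := by
  by_contra hn
  push Not at hn
  let P : S.X × S.X → Prop := fun p => dist p.1 p.2 = 1 ∧ Btw v p.1 p.2 ∧ Btw v w p.2 ∧
    ∀ e ∈ T, e • p.1 = p.1 ∧ e • p.2 = p.2
  have step : ∀ p : {p // P p}, ∃ q : {p // P p}, q.1.1 = p.1.2 := by
    rintro ⟨⟨x, y⟩, h1, h2, h3, h4⟩
    have hy : ∀ g : F, S.ι g • y = y → g = 1 := by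
      intro g hg
      by_contra hg1
      obtain ⟨e, e1, e3⟩ := hn y (h3.ne_of_ne_left (ne_of_adj hvw).symm) ⟨g, hg1, hg⟩
      exact e3 (h4 e e1).2
    obtain ⟨z, hz, hd⟩ := S.leaf y x (by rw [dist_comm]; exact h1) hy
    have b1 : Btw v y z := h2.concat_right (btw_nbrs h1 hd hz) (ne_of_adj h1)
    refine ⟨⟨(y, z), hd, b1, h3.trans_left b1, fun e e1 => ⟨(h4 e e1).2, ?_⟩⟩, rfl⟩
    obtain ⟨g, g1, g2⟩ := htriv e e1 y z hd
    rw [hy g (g1.trans (h4 e e1).2), map_one, one_smul] at g2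
    exact g2.symm
  choose nx hnx using step
  let p0 : {p // P p} := ⟨(v, w), hvw, btw_left _ _, btw_right _ _, hT⟩
  let q : ℕ → {p // P p} := fun n => nx^[n] p0
  have hq : ∀ n, (q (n + 1)).1.1 = (q n).1.2 := fun n => by
    show (nx^[n + 1] p0).1.1 = _
    rw [Function.iterate_succ_apply', hnx]
  have mono : ∀ i n, Btw v (q i).1.2 (q (i + n + 1)).1.1 := by
    intro i n
    induction n with
    | zero => rw [add_zero, hq]; exact btw_right _ _
    | succ n ih =>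
      rw [← add_assoc, hq]
      exact ih.trans_left (q (i + n + 1)).2.2.1
  obtain ⟨s, hs, hfin⟩ := S.fin
  choose g hg using fun n => hfin _ _ (q n).2.1
  obtain ⟨i, j, hij, e⟩ := hs.exists_lt_map_eq_of_forall_mem hg
  obtain ⟨n, rfl⟩ := Nat.exists_eq_add_of_lt hij
  obtain ⟨e1, e2⟩ := Prod.ext_iff.1 e
  simp only at e1 e2
  set x := (q i).1.1
  set y := (q i).1.2
  set x' := (q (i + n + 1)).1.1
  set y' := (q (i + n + 1)).1.2
  set u : F := (g (i + n + 1))⁻¹ * g i with hu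
  have u1 : S.ι u • x = x' := by rw [hu, map_mul, map_inv, mul_smul, e1, inv_smul_smul]
  have u2 : S.ι u • y = y' := by rw [hu, map_mul, map_inv, mul_smul, e2, inv_smul_smul]
  have dx : dist x y = 1 := (q i).2.1
  have dx' : dist x' y' = 1 := (q (i + n + 1)).2.1
  have b1 : Btw v x y := (q i).2.2.1
  have b2 : Btw v y x' := mono i n
  have b3 : Btw v x' y' := (q (i + n + 1)).2.2.1
  have b4 : Btw x y x' := b1.trans_left' b2
  have b5 : Btw x x' y' := (b1.trans_left b2).trans_left' b3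
  have b6 : Btw x' y' (S.ι u • x') := by
    have := b4.smul (S.ι u)
    rwa [u1, u2] at this
  have hyp : Hyp S.X (S.ι u) := by
    refine hyp_iff.2 ⟨x, mem_Ch_iff_btw.2 ?_, ?_⟩
    · rw [u1]
      exact b5.concat_left b6 (ne_of_adj dx')
    · rw [u1]
      exact b4.ne_of_ne_left (ne_of_adj dx).symm
  refine hyp.not_ell (hper u fun t ht => ?_)
  obtain ⟨f1, f2⟩ := (q i).2.2.2.2 t ht
  obtain ⟨f3, f4⟩ := (q (i + n + 1)).2.2.2.2 t ht
  have g1 : S.ι ((t : MulAut F) u) • x = x' := by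
    have := ι_smul t u x
    rwa [show t • x = x from f1, u1, show t • x' = x' from f3] at this
  have g2 : S.ι ((t : MulAut F) u) • y = y' := by
    have := ι_smul t u y
    rwa [show t • y = y from f2, u2, show t • y' = y' from f4] at this
  have := S.edge (u⁻¹ * (t : MulAut F) u) x y dx
    (by rw [map_mul, map_inv, mul_smul, g1, ← u1, inv_smul_smul])
    (by rw [map_mul, map_inv, mul_smul, g2, ← u2, inv_smul_smul])
  exact (inv_mul_eq_one.1 this).symm

theorem vperm (S : FTree F) (a : MulAut F)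
    (h1 : ∀ g : F, Ell S.X (S.ι g) → Ell S.X (S.ι (a g)))
    (h2 : ∀ g : F, Ell S.X (S.ι g) → Ell S.X (S.ι (a⁻¹ g))) {v : S.X}
    (hv : ∃ g : F, g ≠ 1 ∧ S.ι g • v = v) :
    ∃ v' : S.X, ∀ g : F, S.ι g • v = v ↔ S.ι (a g) • v' = v' := by
  obtain ⟨g, hg, hv⟩ := hv
  have key : ∀ b : MulAut F, (∀ g : F, Ell S.X (S.ι g) → Ell S.X (S.ι (b g))) →
      ∀ (x y : S.X) (c : F), c ≠ 1 → S.ι c • x = x → S.ι (b c) • y = y →
      ∀ u : F, S.ι u • x = x → S.ι (b u) • y = y := by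
    intro b hb x y c hc hx hy u hu
    obtain ⟨z, z1, z2⟩ := common_fix (hb c ⟨x, hx⟩) (hb u ⟨x, hu⟩) (by
      rw [← map_mul, ← map_mul]
      exact hb _ ⟨x, by rw [map_mul, mul_smul, hu, hx]⟩)
    rwa [fix_unique (g := b c) (by simpa using hc) hy z1]
  obtain ⟨y, hy⟩ := h1 g ⟨v, hv⟩
  refine ⟨y, fun u => ⟨key a h1 v y g hg hv hy u, fun hu => ?_⟩⟩
  have := key a⁻¹ h2 y v (a g) (by simpa using hg) hy (by simpa using hv) (a u) hu
  simpa using this

theorem sq_fix [IsFreeGroup F] (A : Subgroup F) (hA : ∀ x ∈ A, ∀ y ∈ A, Commute x y)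
    (a : MulAut F) (ha : ∀ g, a g ∈ A ↔ g ∈ A) {g : F} (hg : g ∈ A) : a (a g) = g := by
  obtain ⟨c, rfl⟩ := Q2T4A.cyclic_of_comm A hA
  obtain ⟨n, rfl⟩ := Subgroup.mem_zpowers_iff.1 hg
  by_cases hc : c = 1
  · simp [hc]
  obtain ⟨i, hi⟩ := Subgroup.mem_zpowers_iff.1 ((ha c).2 (Subgroup.mem_zpowers c))
  obtain ⟨j, hj⟩ := Subgroup.mem_zpowers_iff.1
    ((ha (a⁻¹ c)).1 (by rw [MulAut.apply_inv_self]; exact Subgroup.mem_zpowers c))
  have e : c ^ (i * j) = c ^ (1 : ℤ) := by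
    rw [zpow_mul, hi, ← map_zpow, hj, MulAut.apply_inv_self, zpow_one]
  have e2 : i * i = 1 := by
    rcases Int.eq_one_or_neg_one_of_mul_eq_one (Q2T4A.zpow_inj hc e) with h | h <;> simp [h]
  have e3 : a (a c) = c := by
    rw [← hi, map_zpow, ← hi, ← zpow_mul, e2, zpow_one]
  rw [map_zpow, map_zpow, e3]

theorem ex_noncomm {α : Type} {J : Set α} {D : Subgroup (FreeGroup α)}
    (hD : D.relIndex (std J) ≠ 0) (hJ : Co 11 ∅ J) :
    ∃ I, Co 4 I J ∧ ∃ b ∈ D, ∃ b' ∈ D, b ∈ std I ∧ b' ∈ std I ∧ ¬ Commute b b' := by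
  classical
  obtain ⟨-, T, hT, hTJ, -⟩ := hJ
  obtain ⟨p, hp, q, hq, hpq⟩ := Finset.one_lt_card.1 (show 1 < T.card by omega)
  have pw : ∀ x ∈ T, ∃ n : ℕ, n ≠ 0 ∧ FreeGroup.of x ^ n ∈ D := by
    intro x hx
    obtain ⟨n, hn, -, hm⟩ := Subgroup.exists_pow_mem_of_index_ne_zero hD
      (⟨FreeGroup.of x, of_mem_std (hTJ hx)⟩ : std J)
    exact ⟨n, hn.ne', hm⟩
  obtain ⟨n, hn, h1⟩ := pw p hp
  obtain ⟨m, hm, h2⟩ := pw q hq
  refine ⟨{p, q}, ⟨?_, (T.erase p).erase q, ?_, ?_, ?_⟩, _, h1, _, h2,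
    pow_mem (of_mem_std (by simp)) _, pow_mem (of_mem_std (by simp)) _, fun hc => ?_⟩
  · rintro x (rfl | rfl)
    · exact hTJ hp
    · exact hTJ hq
  · have := Finset.pred_card_le_card_erase (s := T) (a := p)
    have := Finset.pred_card_le_card_erase (s := T.erase p) (a := q)
    omega
  · exact fun x hx => hTJ (Finset.mem_of_mem_erase (Finset.mem_of_mem_erase hx))
  · rw [Set.disjoint_left]
    rintro x hx (rfl | rfl)
    · simp at hx
    · simp at hx
  · have h3 := (Q2T4A.comm_pow_iff hn hm).1 hc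
    exact FreeGroup.of_ne_one p (eq_one_of_commute_two hpq (mul_inv_cancel_right _ _)
      (mul_inv_eq_iff_eq_mul.2 h3))

theorem co_of_adm {α : Type} [Fintype α] {L I : Finset α} (hα : 15 ≤ Fintype.card α)
    (hL : L.card = 4) (hI : Adm L I) : Co 4 (I : Set α) (L : Set α)ᶜ := by
  classical
  refine ⟨fun x hx hx' => Finset.disjoint_left.1 hI.1 hx hx', (L ∪ I)ᶜ, ?_, ?_, ?_⟩
  · have := Finset.card_union_le L I
    have := hI.2
    rw [Finset.card_compl]
    omega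
  · intro x hx hx'
    simp only [Finset.coe_compl, Finset.coe_union, Set.mem_compl_iff, Set.mem_union] at hx
    exact hx (Or.inl hx')
  · rw [Set.disjoint_left]
    intro x hx hx'
    simp only [Finset.coe_compl, Finset.coe_union, Set.mem_compl_iff, Set.mem_union] at hx
    exact hx (Or.inr hx')

theorem co_empty {α : Type} [Fintype α] {L : Finset α} (hα : 15 ≤ Fintype.card α)
    (hL : L.card = 4) : Co 11 ∅ (L : Set α)ᶜ := by
  classical
  refine ⟨Set.empty_subset _, Lᶜ, ?_, by simp, Set.disjoint_empty _⟩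
  rw [Finset.card_compl]
  omega

theorem chr_sq (hq : SSq) {α : Type} [Finite α] {J : Set α} {D : Subgroup (FreeGroup α)}
    (hD : Chr J D) : Chr J (Subgroup.closure {x | ∃ b ∈ D, x = b * b}) := by
  have hle : Subgroup.closure {x | ∃ b ∈ D, x = b * b} ≤ D := by
    rw [Subgroup.closure_le]
    rintro _ ⟨b, hb, rfl⟩
    exact D.mul_mem hb hb
  have hfg : D.FG := by
    have : Group.FG (std J) := (Group.fg_iff_subgroup_fg _).2 (std_fg (Set.toFinite J))
    have : (D.subgroupOf (std J)).FiniteIndex := ⟨hD.fi⟩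
    rw [← Group.fg_iff_subgroup_fg]
    exact Group.fg_of_surjective (f := (Subgroup.subgroupOfEquivOfLe hD.le).toMonoidHom)
      (Subgroup.subgroupOfEquivOfLe hD.le).surjective
  refine ⟨hle.trans hD.le, Subgroup.relIndex_ne_zero_trans (hq _ D hfg) hD.fi, ?_⟩
  intro γ hγ b hb
  have : Subgroup.closure {x | ∃ b ∈ D, x = b * b} ≤
      (Subgroup.closure {x | ∃ b ∈ D, x = b * b}).comap γ.toMonoidHom := by
    rw [Subgroup.closure_le]
    rintro _ ⟨c, hc, rfl⟩
    exact Subgroup.subset_closure ⟨γ c, hD.inv γ hγ c hc, map_mul γ c c⟩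
  exact this hb

end Pool.Agent.MP_3ce0a0_al.Q2T12
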