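import Pool.Agent.MP_3ce0a0_al.Q2T12.HPT
import Pool.Agent.MP_3ce0a0_al.Q2T12.Walk
import Pool.Agent.MP_3ce0a0_al.Q2T4A.BPP

/-!
Lemma K, parts (a) and (b).
-/

set_option autoImplicit false

namespace Pool.Agent.MP_3ce0a0_al.Q2T12.K

open Pool.Agent.MP_3ce0a0_al.Q2T15 Pool.Agent.MP_3ce0a0_al.Q2T4A

variable {α F : Type} [Group F]

/-- Multiplicative on a subgroup. -/
def MulOn (A : Subgroup (FreeGroup α)) (f : FreeGroup α → F) : Prop :=
  ∀ a ∈ A, ∀ b ∈ A, f (a * b) = f a * f b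

open Classical in
/-- The homomorphism given by a function that is multiplicative on a subgroup. -/
noncomputable def hm (f : FreeGroup α → F) (A : Subgroup (FreeGroup α)) : A →* F :=
  if h : MulOn A f then MonoidHom.mk' (fun x => f x) (fun a b => h a a.2 b b.2) else 1

theorem hm_apply {f : FreeGroup α → F} {A : Subgroup (FreeGroup α)} (h : MulOn A f) (x : A) :
    hm f A x = f x := by
  rw [hm, dif_pos h]; rfl

theorem MulOn.mono {f : FreeGroup α → F} {A B : Subgroup (FreeGroup α)} (h : MulOn A f)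
    (k : B ≤ A) : MulOn B f := fun a ha b hb => h a (k ha) b (k hb)

theorem MulOn.one {f : FreeGroup α → F} {A : Subgroup (FreeGroup α)} (h : MulOn A f) :
    f 1 = 1 := (hm_apply h 1).symm.trans (map_one _)

theorem MulOn.inv {f : FreeGroup α → F} {A : Subgroup (FreeGroup α)} (h : MulOn A f)
    {u : FreeGroup α} (hu : u ∈ A) : f u⁻¹ = (f u)⁻¹ := by
  rw [← hm_apply h ⟨u, hu⟩, ← map_inv, hm_apply h]; rfl

theorem MulOn.zpow {f : FreeGroup α → F} {A : Subgroup (FreeGroup α)} (h : MulOn A f)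
    {u : FreeGroup α} (hu : u ∈ A) (n : ℤ) : f (u ^ n) = f u ^ n := by
  rw [← hm_apply h ⟨u, hu⟩, ← map_zpow, hm_apply h]; rfl

theorem MulOn.pow {f : FreeGroup α → F} {A : Subgroup (FreeGroup α)} (h : MulOn A f)
    {u : FreeGroup α} (hu : u ∈ A) (n : ℕ) : f (u ^ n) = f u ^ n := by
  rw [← hm_apply h ⟨u, hu⟩, ← map_pow, hm_apply h]; rfl

/-- Precomposition with a conjugation. -/
def cj (g : FreeGroup α) (f : FreeGroup α → F) : FreeGroup α → F := fun u => f (g * u * g⁻¹)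

omit [Group F] in
theorem cj_cj (g k : FreeGroup α) (f : FreeGroup α → F) : cj k (cj g f) = cj (g * k) f := by
  funext u
  simp only [cj, mul_assoc, mul_inv_rev]

omit [Group F] in
theorem cj_one (f : FreeGroup α → F) : cj 1 f = f := by
  funext u
  simp [cj]

/-- The hypotheses of the lemma. -/
structure KD (J : Set α) (D Bb : Subgroup (FreeGroup α)) (f : FreeGroup α → F) : Prop where
  big : ∀ a b c d : α, ∃ s ∈ J, s ≠ a ∧ s ≠ b ∧ s ≠ c ∧ s ≠ d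
  fi : D.relIndex (std J) ≠ 0
  nD : NormBy (std J) D
  leB : Bb ≤ std J
  nB : NormBy (std J) Bb
  co : ∀ p ∈ J, ∀ q ∈ J, p ≠ q → ∀ E ⊆ J, p ∉ E → q ∉ E → D ⊓ std E ≤ Bb
  mul : MulOn Bb f
  eqv : ∀ h : α × Bool, h.1 ∈ J → ∃ H : Subgroup (FreeGroup α), H.relIndex (std J) ≠ 0 ∧
    ∀ b ∈ H, b ∈ Bb → b ∈ std ({h.1}ᶜ : Set α) →
      ∃ a : MulAut F, ∀ u ∈ Bb, f (tw h b u) = a (f u)

variable {J : Set α} {D Bb : Subgroup (FreeGroup α)} {f : FreeGroup α → F}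

theorem KD.conj (H : KD J D Bb f) {g : FreeGroup α} (hg : g ∈ std J) : KD J D Bb (cj g f) := by
  refine ⟨H.big, H.fi, H.nD, H.leB, H.nB, H.co, fun a ha b hb => ?_, fun h hh => ?_⟩
  · rw [cj, cj, cj, ← H.mul _ (H.nB g hg a ha) _ (H.nB g hg b hb)]
    congr 1; group
  · obtain ⟨K, hK, h1⟩ := H.eqv h hh
    refine ⟨K, hK, fun b b1 b2 b3 => ?_⟩
    obtain ⟨a, ha⟩ := h1 b b1 b2 b3
    have hc := tw_mul_inv_mem H.nB h b2 b3 hg
    refine ⟨MulAut.conj (f (tw h b g * g⁻¹))⁻¹ * a, fun u hu => ?_⟩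
    have hu' := H.nB g hg u hu
    have ht := tw_mem_of H.nB h b2 b3 (H.leB hu') hu'
    rw [MulAut.mul_apply, cj, cj, ← ha _ hu', MulAut.conj_apply, ← H.mul.inv hc,
      ← H.mul _ (inv_mem hc) _ ht, ← H.mul.inv (inv_mem hc),
      ← H.mul _ (mul_mem (inv_mem hc) ht) _ (inv_mem (inv_mem hc))]
    congr 1
    simp only [map_mul, map_inv]
    group

theorem ri_mono {H : Subgroup (FreeGroup α)} {E : Set α} (h : H.relIndex (std J) ≠ 0)
    (hE : E ⊆ J) : H.relIndex (std E) ≠ 0 :=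
  fun k => h (Subgroup.relIndex_eq_zero_of_le_right (std_mono hE) k)

variable [IsFreeGroup F]

/-- Part (a). -/
theorem KD.partA (H : KD J D Bb f) {E : Set α} (hE : E ⊆ J) (hle : D ⊓ std E ≤ Bb) {p q : α}
    (hp : p ∈ E) (hq : q ∈ E) (hpq : p ≠ q) {A : Subgroup (FreeGroup α)}
    (hA : A.relIndex (std E) ≠ 0) (hab : ¬ NonAb (hm f (A ⊓ (D ⊓ std E)))) {b : FreeGroup α}
    (hb : b ∈ D ⊓ std E) (hb' : b ∈ std ({p, q}ᶜ : Set α)) : f b = 1 := by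
  have hm1 := H.mul.mono hle
  have hab' : ∀ x ∈ D ⊓ std E, ∀ y ∈ D ⊓ std E, Commute (f x) (f y) := fun x hx y hy => by
    obtain ⟨n, hn, -, kx⟩ := Subgroup.exists_pow_mem_of_relIndex_ne_zero hA hx.2
    obtain ⟨m, hm', -, ky⟩ := Subgroup.exists_pow_mem_of_relIndex_ne_zero hA hy.2
    rw [← comm_pow_iff hn.ne' hm'.ne', ← hm1.pow hx, ← hm1.pow hy]
    by_contra k
    refine hab ⟨⟨_, kx.1, pow_mem hx n⟩, ⟨_, ky.1, pow_mem hy m⟩, ?_⟩
    rwa [hm_apply (hm1.mono inf_le_right), hm_apply (hm1.mono inf_le_right)]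
  have hR : ∀ x, x ∈ (hm f (D ⊓ std E)).range ↔ ∃ u ∈ D ⊓ std E, f u = x := fun x =>
    ⟨fun ⟨u, e⟩ => ⟨u, u.2, (hm_apply hm1 u).symm.trans e⟩,
      fun ⟨u, hu, e⟩ => ⟨⟨u, hu⟩, (hm_apply hm1 _).trans e⟩⟩
  have hRc : ∀ x ∈ (hm f (D ⊓ std E)).range, ∀ y ∈ (hm f (D ⊓ std E)).range, Commute x y :=
    fun x hx y hy => by
      obtain ⟨u, hu, rfl⟩ := (hR x).1 hx
      obtain ⟨v, hv, rfl⟩ := (hR y).1 hy
      exact hab' u hu v hv
  obtain ⟨c, hc⟩ := cyclic_of_comm _ hRc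
  have h1 : ∀ u ∈ D ⊓ std E, ∃ i : ℤ, c ^ i = f u := fun u hu =>
    Subgroup.mem_zpowers_iff.1 (hc ▸ (hR _).2 ⟨u, hu, rfl⟩)
  by_cases c1 : c = 1
  · obtain ⟨i, hi⟩ := h1 b hb
    rw [← hi, c1, one_zpow]
  obtain ⟨θ, hθ⟩ : ∃ θ : F → ℤ, ∀ u ∈ D ⊓ std E, c ^ θ (f u) = f u :=
    ⟨fun x => Classical.epsilon fun i => c ^ i = x, fun u hu => Classical.epsilon_spec (h1 u hu)⟩
  have hN : NormBy (std E) (D ⊓ std E) := (H.nD.mono (std_mono hE)).inf
  have := hp_tw (θ := fun u => θ (f u)) inf_le_right hN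
    (by rw [Subgroup.inf_relIndex_right]; exact ri_mono H.fi hE)
    (fun u hu v hv => zpow_inj c1 (by
      rw [zpow_add, hθ _ hu, hθ _ hv, hθ _ (mul_mem hu hv), hm1 u hu v hv])) hp hq hpq hb hb'
    (fun h hh d hd => ?_) (one_mem _)
  · rw [one_mul, inv_one, mul_one] at this
    rw [← hθ b hb, this, zpow_zero]
  have hhE : h.1 ∈ E := by rcases hh with e | e <;> rw [e] <;> assumption
  have d1 : d ∈ D ⊓ std E := Subgroup.zpowers_le.2 hb hd
  have d2 : d ∈ std ({h.1}ᶜ : Set α) := by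
    refine std_mono ?_ (Subgroup.zpowers_le.2 hb' hd)
    rintro x hx rfl
    exact hx hh
  obtain ⟨K, hK, h2⟩ := H.eqv h (hE hhE)
  obtain ⟨k, hk, -, kd⟩ := Subgroup.exists_pow_mem_of_relIndex_ne_zero hK (std_mono hE d1.2)
  obtain ⟨a, ha⟩ := h2 _ kd.1 (hle (pow_mem d1 k)) (pow_mem d2 k)
  have m1 : ∀ u ∈ D ⊓ std E, tw h (d ^ k) u ∈ D ⊓ std E := fun u hu =>
    tw_mem_of hN h (pow_mem d1 k) (pow_mem d2 k) hu.2 hu
  have m2 : ∀ u ∈ D ⊓ std E, tw h (d ^ k)⁻¹ u ∈ D ⊓ std E := fun u hu =>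
    tw_mem_of hN h (inv_mem (pow_mem d1 k)) (inv_mem (pow_mem d2 k)) hu.2 hu
  refine ⟨k + k, by omega, fun u hu => congrArg θ ?_⟩
  rw [pow_add, map_mul, MulAut.mul_apply, ha _ (hle (m1 u hu)), ha _ (hle hu)]
  refine sq_fix _ hRc a (fun g => ⟨fun hg => ?_, fun hg => ?_⟩) ((hR _).2 ⟨u, hu, rfl⟩)
  · obtain ⟨v, hv, e⟩ := (hR _).1 hg
    refine (hR _).2 ⟨_, m2 v hv, a.injective ?_⟩
    rw [← ha _ (hle (m2 v hv)), ← MulAut.mul_apply, ← map_mul, mul_inv_cancel, map_one,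
      MulAut.one_apply, e]
  · obtain ⟨v, hv, rfl⟩ := (hR _).1 hg
    exact (hR _).2 ⟨_, m1 v hv, ha _ (hle hv)⟩

/-- A power of the letter `t` is killed. -/
def Z (D : Subgroup (FreeGroup α)) (f : FreeGroup α → F) (t : α) : Prop :=
  ∃ M : ℕ, 0 < M ∧ FreeGroup.of t ^ M ∈ D ∧ f (FreeGroup.of t ^ M) = 1

omit [IsFreeGroup F] in
theorem Z.cj {r : α} (h : Z D f r) (j : ℤ) : Z D (cj (FreeGroup.of r ^ j) f) r := by
  obtain ⟨M, h1, h2, h3⟩ := h
  refine ⟨M, h1, h2, ?_⟩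
  rw [K.cj, ((Commute.refl _).zpow_left j |>.pow_right M).eq, mul_inv_cancel_right, h3]

theorem KD.partB0 (H : KD J D Bb f) {r : α} (hr : r ∈ J) (hz : Z D f r) {E : Set α} (hE : E ⊆ J)
    (hrE : r ∉ E) (hle : D ⊓ std E ≤ Bb) {p q : α} (hp : p ∈ E) (hq : q ∈ E) (hpq : p ≠ q)
    {b : FreeGroup α} (hb : b ∈ D ⊓ std E) (hb' : b ∈ std ({p, q}ᶜ : Set α)) :
    cj (FreeGroup.of r) f b = 1 := by
  obtain ⟨M, M0, M1, M2⟩ := hz
  obtain ⟨K, hK, h2⟩ := H.eqv (r, true) hr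
  have rJ : FreeGroup.of r ∈ std J := of_mem_std hr
  have hpr : p ∉ ({r} : Set α) := fun e => hrE ((Set.mem_singleton_iff.1 e) ▸ hp)
  have hqr : q ∉ ({r} : Set α) := fun e => hrE ((Set.mem_singleton_iff.1 e) ▸ hq)
  have M3 : FreeGroup.of r ^ M ∈ Bb := H.co p (hE hp) q (hE hq) hpq {r}
    (Set.singleton_subset_iff.2 hr) hpr hqr ⟨M1, pow_mem (of_mem_std (Set.mem_singleton _)) M⟩
  have hl : K ⊓ (D ⊓ std E) ≤ Bb := inf_le_right.trans hle
  refine (H.conj rJ).partA hE hle hp hq hpq (ri_mono hK hE) ?_ hb hb'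
  have key : ∀ (v : ↥(K ⊓ (D ⊓ std E))) (n : ℕ),
      (FreeGroup.of r * v) ^ n * (FreeGroup.of r ^ n)⁻¹ ∈ Bb ∧
      f ((FreeGroup.of r * v) ^ n * (FreeGroup.of r ^ n)⁻¹) = pw ((List.range n).map fun i =>
        (hm (cj (FreeGroup.of r ^ (i + 1)) f) (K ⊓ (D ⊓ std E)), (1 : ℤ))) v := fun v n => by
    induction n with
    | zero => simpa [pw] using H.mul.one
    | succ n ih =>
      have e : (FreeGroup.of r * v) ^ (n + 1) * (FreeGroup.of r ^ (n + 1))⁻¹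
          = (FreeGroup.of r * v) ^ n * (FreeGroup.of r ^ n)⁻¹ *
            (FreeGroup.of r ^ (n + 1) * v * (FreeGroup.of r ^ (n + 1))⁻¹) := by
        rw [pow_succ (FreeGroup.of r * v)]; group
      have k := H.nB _ (pow_mem rJ (n + 1)) _ (hl v.2)
      rw [e]
      refine ⟨mul_mem ih.1 k, ?_⟩
      rw [H.mul _ ih.1 _ k, ih.2, List.range_succ, List.map_append, pw, pw, List.map_append,
        List.prod_append]
      simp only [List.map_cons, List.map_nil, List.prod_cons, List.prod_nil, zpow_one, mul_one]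
      rw [hm_apply ((H.conj (pow_mem rJ (n + 1))).mul.mono hl)]
      rfl
  have := bpp_pos ((List.range M).map fun i =>
    (hm (cj (FreeGroup.of r ^ (i + 1)) f) (K ⊓ (D ⊓ std E)), (1 : ℤ)))
    (fun x hx => by obtain ⟨i, -, rfl⟩ := List.mem_map.1 hx; exact one_pos) (fun v => ?_) _
    (List.mem_map.2 ⟨0, List.mem_range.2 M0, rfl⟩)
  · simpa using this
  have v1 : v.1 ∈ std ({r}ᶜ : Set α) := mem_std_compl hrE v.2.2.2
  obtain ⟨a, ha⟩ := h2 v v.2.1 (hl v.2) v1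
  have h3 := ha _ M3
  rw [map_pow, tw_true v1, M2, map_one] at h3
  have h4 := H.mul _ (key v M).1 _ M3
  rw [inv_mul_cancel_right, h3, M2, mul_one] at h4
  rw [← (key v M).2, ← h4]

/-- Part (b), the step. -/
theorem KD.partB1 (H : KD J D Bb f) {r : α} (hr : r ∈ J) (hz : Z D f r) (j : ℤ) {s p q : α}
    (hs : s ∈ J) (hp : p ∈ J) (hq : q ∈ J) (h1 : s ≠ r) (h2 : p ≠ r) (h3 : q ≠ r) (h4 : p ≠ s)
    (h5 : q ≠ s) (h6 : p ≠ q) {I : Set α} (hI : I ⊆ J) (i1 : r ∉ I) (i2 : s ∉ I) (i3 : p ∉ I)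
    (i4 : q ∉ I) {b : FreeGroup α} (hb : b ∈ D) (hb' : b ∈ std I) :
    cj (FreeGroup.of r ^ j) f b = 1 := by
  have := (H.conj (zpow_mem (of_mem_std hr) (j - 1))).partB0 hr (hz.cj (j - 1))
    (E := J ∩ {r, s}ᶜ) Set.inter_subset_left (by simp)
    (H.co r hr s hs h1.symm _ Set.inter_subset_left (by simp) (by simp)) (p := p) (q := q)
    (by simp [*]) (by simp [*]) h6 (b := b) ⟨hb, std_mono ?_ hb'⟩ (std_mono ?_ hb')
  · rwa [cj_cj, ← zpow_add_one, sub_add_cancel] at this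
  · refine fun x hx => ⟨hI hx, ?_⟩
    rintro (rfl | rfl)
    exacts [i1 hx, i2 hx]
  · rintro x hx (rfl | rfl)
    exacts [i3 hx, i4 hx]

theorem KD.partB2 (H : KD J D Bb f) {r : α} (hr : r ∈ J) (hz : Z D f r) (j : ℤ) :
    ∀ t ∈ J, Z D (cj (FreeGroup.of r ^ j) f) t := by
  intro t ht
  by_cases e : t = r
  · rw [e]; exact hz.cj j
  obtain ⟨s, hs, s1, s2, -⟩ := H.big r t t t
  obtain ⟨p, hp, p1, p2, p3, -⟩ := H.big r t s s
  obtain ⟨q, hq, q1, q2, q3, q4⟩ := H.big r t s p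
  obtain ⟨M, M0, -, M1⟩ := Subgroup.exists_pow_mem_of_relIndex_ne_zero H.fi (of_mem_std ht)
  exact ⟨M, M0, M1.1, H.partB1 hr hz j hs hp hq s1 p1 q1 p3 q3 q4.symm (I := {t})
    (Set.singleton_subset_iff.2 ht) (Ne.symm e) s2 p2 q2 M1.1 (pow_mem (of_mem_std (Set.mem_singleton _)) M)⟩

/-- Part (b). -/
theorem KD.partB (H : KD J D Bb f) {g : FreeGroup α} (hg : g ∈ std J) {r : α} (hr : r ∈ J)
    (hz : Z D (cj g f) r) : ∀ t ∈ J, Z D f t := by
  have key : ∀ w ∈ std J, ∀ g ∈ std J, (∀ t ∈ J, Z D (cj g f) t) →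
      (∀ t ∈ J, Z D (cj (g * w) f) t) ∧ ∀ t ∈ J, Z D (cj (g * w⁻¹) f) t := fun w hw => by
    induction hw using Subgroup.closure_induction with
    | mem x hx =>
      obtain ⟨x, hx, rfl⟩ := hx
      intro g hg h
      have h1 := (H.conj hg).partB2 hx (h x hx) 1
      have h2 := (H.conj hg).partB2 hx (h x hx) (-1)
      rw [cj_cj] at h1 h2
      exact ⟨by simpa using h1, by simpa using h2⟩
    | one => intro g _ h; simpa using h
    | mul x y hx hy ihx ihy =>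
      intro g hg h
      rw [← mul_assoc, mul_inv_rev, ← mul_assoc]
      exact ⟨(ihy _ (mul_mem hg hx) (ihx g hg h).1).1,
        (ihx _ (mul_mem hg (inv_mem hy)) (ihy g hg h).2).2⟩
    | inv x _ ih => intro g hg h; rw [inv_inv]; exact (ih g hg h).symm
  have h0 := (H.conj hg).partB2 hr hz 0
  rw [zpow_zero, cj_one] at h0
  have := (key g hg g hg h0).2
  rwa [mul_inv_cancel, cj_one] at this

end Pool.Agent.MP_3ce0a0_al.Q2T12.K
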