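import Pool.Agent.MP_3ce0a0_al.Q2T12.Spec
import Pool.Agent.MP_3ce0a0_al.Q2T15.Ext
import Pool.Agent.MP_3ce0a0_al.Q2T4A.BPP

/-! Lemma K, part (c): the descent. -/

set_option autoImplicit false

namespace Pool.Agent.MP_3ce0a0_al.Q2T12.KC

open H79 Q2T15 Q2T4A

noncomputable section

variable {α F : Type} [Group F]

/-- The hypotheses of Lemma K on the function `f`. -/
structure KD (J : Set α) (Bb : Subgroup (FreeGroup α)) (f : FreeGroup α → F) : Prop where
  le : Bb ≤ std J
  inv : NInv J Bb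
  hom : ∀ a ∈ Bb, ∀ b ∈ Bb, f (a * b) = f a * f b
  fin : ∃ R : Set (FreeGroup α → F), R.Finite ∧
    ∀ γ ∈ NA J, ∃ a : MulAut F, ∃ r ∈ R, ∀ b ∈ Bb, a (f b) = r (γ b)

variable {J : Set α} {Bb : Subgroup (FreeGroup α)} {f : FreeGroup α → F}

theorem KD.conj_mem (K : KD J Bb f) {g b : FreeGroup α} (hg : g ∈ std J) (hb : b ∈ Bb) :
    g * b * g⁻¹ ∈ Bb := by
  have := K.inv _ (innA_mem_NA ⟨g, hg⟩) b hb
  rwa [innA_apply _ (K.le hb)] at this

theorem KD.one (K : KD J Bb f) : f 1 = 1 := by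
  have := K.hom 1 Bb.one_mem 1 Bb.one_mem
  rw [mul_one] at this
  exact left_eq_mul.1 this

theorem KD.map_inv (K : KD J Bb f) {b : FreeGroup α} (hb : b ∈ Bb) : f b⁻¹ = (f b)⁻¹ :=
  eq_inv_of_mul_eq_one_left (by rw [← K.hom _ (Bb.inv_mem hb) _ hb, inv_mul_cancel, K.one])

theorem KD.map_conj (K : KD J Bb f) {u b : FreeGroup α} (hu : u ∈ Bb) (hb : b ∈ Bb) :
    f (u * b * u⁻¹) = f u * f b * (f u)⁻¹ := by
  rw [K.hom _ (Bb.mul_mem hu hb) _ (Bb.inv_mem hu), K.hom _ hu _ hb, K.map_inv hu]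

/-- The automorphisms that act on `f` through an automorphism of the target. -/
def KD.N0 (K : KD J Bb f) : Subgroup (MulAut (FreeGroup α)) where
  carrier := {γ | γ ∈ NA J ∧ ∃ a : MulAut F, ∀ b ∈ Bb, a (f b) = f (γ b)}
  one_mem' := ⟨one_mem _, 1, fun _ _ => rfl⟩
  mul_mem' := by
    rintro γ δ ⟨h1, a, ha⟩ ⟨h2, c, hc⟩
    exact ⟨mul_mem h1 h2, a * c, fun b hb => by
      rw [MulAut.mul_apply, hc b hb, ha _ (K.inv δ h2 b hb), MulAut.mul_apply]⟩
  inv_mem' := by
    rintro γ ⟨h1, a, ha⟩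
    exact ⟨inv_mem h1, a⁻¹, fun b hb => by
      rw [MulAut.inv_apply, MulEquiv.symm_apply_eq, ha _ (K.inv _ (inv_mem h1) b hb),
        MulAut.apply_inv_self]⟩

theorem KD.N0_fi (K : KD J Bb f) : K.N0.relIndex (NA J) ≠ 0 := by
  obtain ⟨R, hR, h⟩ := K.fin
  choose a r hr e using fun γ : NA J => h γ γ.2
  have := hR.to_subtype
  have : Finite (NA J ⧸ K.N0.subgroupOf (NA J)) := by
    refine Finite.of_injective (fun q => (⟨r q.out, hr _⟩ : R)) fun q q' hq => ?_
    rw [← q.out_eq', ← q'.out_eq', QuotientGroup.eq]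
    refine ⟨(q.out⁻¹ * q'.out).2, (a q.out)⁻¹ * a q'.out, fun b hb => ?_⟩
    have hb' := K.inv _ (q.out⁻¹ * q'.out).2 b hb
    rw [MulAut.mul_apply, MulAut.inv_apply, MulEquiv.symm_apply_eq, e _ b hb]
    erw [e _ _ hb']
    rw [show r q.out = r q'.out from congrArg Subtype.val hq]
    simp
  exact (Subgroup.finiteIndex_of_finite_quotient (H := K.N0.subgroupOf (NA J))).index_ne_zero

/-- Deep twists lie in `N0`. -/
theorem KD.tw_fi (K : KD J Bb f) {h : α × Bool} (hh : h.1 ∈ J) {I : Set α} (hI : I ⊆ J) :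
    (K.N0.comap (tw h)).relIndex (std I) ≠ 0 := by
  rw [Subgroup.relIndex_comap]
  refine fun e => K.N0_fi (Subgroup.relIndex_eq_zero_of_le_right ?_ e)
  rintro _ ⟨u, hu, rfl⟩
  exact tw_mem_NA hh (std_mono hI hu)

theorem KD.tw_diff (K : KD J Bb f) {h : α × Bool} {u : FreeGroup α} (hu : u ∈ Bb)
    (hu' : u ∈ std ({h.1}ᶜ : Set α)) {g : FreeGroup α} (hg : g ∈ std J) :
    tw h u g * g⁻¹ ∈ Bb := by
  induction hg using Subgroup.closure_induction with
  | mem x hx =>
    obtain ⟨y, hy, rfl⟩ := hx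
    obtain ⟨z, s⟩ := h
    by_cases e : y = z
    · subst e
      cases s
      · rw [tw_false hu', mul_inv_cancel_right]
        exact Bb.inv_mem hu
      · rw [tw_true hu']
        exact K.conj_mem (of_mem_std hy) hu
    · rw [tw_of_ne _ _ e, mul_inv_cancel]
      exact Bb.one_mem
  | one => simp
  | mul x y hx _ h1 h2 =>
    have := Bb.mul_mem h1 (K.conj_mem hx h2)
    rw [map_mul]
    rwa [show tw h u x * x⁻¹ * (x * (tw h u y * y⁻¹) * x⁻¹) = tw h u x * tw h u y * (x * y)⁻¹ by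
      group] at this
  | inv x hx h1 =>
    have := K.conj_mem (inv_mem hx) (Bb.inv_mem h1)
    rw [_root_.map_inv]
    rwa [show x⁻¹ * (tw h u x * x⁻¹)⁻¹ * x⁻¹⁻¹ = (tw h u x)⁻¹ * x⁻¹⁻¹ by group] at this

/-- An element of `N0` that moves `g` inside its coset acts on the conjugate of `f` by `g`. -/
theorem KD.equiv (K : KD J Bb f) {γ : MulAut (FreeGroup α)} (hγ : γ ∈ K.N0) {g : FreeGroup α}
    (hg : g ∈ std J) (hd : γ g * g⁻¹ ∈ Bb) :
    ∃ a : MulAut F, ∀ b ∈ Bb, a (f (g * b * g⁻¹)) = f (g * γ b * g⁻¹) := by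
  obtain ⟨h1, a, ha⟩ := hγ
  refine ⟨(MulAut.conj (f (γ g * g⁻¹)))⁻¹ * a, fun b hb => ?_⟩
  rw [MulAut.mul_apply, ha _ (K.conj_mem hg hb), MulAut.inv_apply, MulEquiv.symm_apply_eq,
    MulAut.conj_apply, ← K.map_conj hd (K.conj_mem hg (K.inv γ h1 b hb)), map_mul, map_mul,
    _root_.map_inv]
  congr 1
  group

open Classical in
/-- The conjugate of `f` by `g`, as a homomorphism on `Bb`. -/
def KD.ψ (K : KD J Bb f) (g : FreeGroup α) : Bb →* F :=
  if hg : g ∈ std J then MonoidHom.mk' (fun b => f (g * b * g⁻¹)) fun a b => by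
    rw [← K.hom _ (K.conj_mem hg a.2) _ (K.conj_mem hg b.2), Subgroup.coe_mul]
    congr 1
    group
  else 1

theorem KD.ψ_apply (K : KD J Bb f) {g : FreeGroup α} (hg : g ∈ std J) (b : Bb) :
    K.ψ g b = f (g * b * g⁻¹) := by
  rw [KD.ψ, dif_pos hg]
  rfl

theorem mk_mem {I : Set α} {l : List (α × Bool)} (h : ∀ x ∈ l, x.1 ∈ I) :
    FreeGroup.mk l ∈ std I := by
  induction l with
  | nil => exact one_mem _
  | cons x l ih =>
    rw [show x :: l = [x] ++ l from rfl, ← FreeGroup.mul_mk]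
    refine mul_mem ?_ (ih fun y hy => h y (List.mem_cons_of_mem _ hy))
    obtain ⟨y, s⟩ := x
    have hy : FreeGroup.of y ∈ std I := of_mem_std (h (y, s) List.mem_cons_self)
    cases s
    · exact inv_mem hy
    · exact hy

theorem toWord_mem [DecidableEq α] {I : Set α} {w : FreeGroup α} (hw : w ∈ std I) :
    ∀ x ∈ w.toWord, x.1 ∈ I := by
  induction hw using Subgroup.closure_induction with
  | mem x hx =>
    obtain ⟨y, hy, rfl⟩ := hx
    simpa using hy
  | one => simp
  | mul x y _ _ h1 h2 =>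
    intro z hz
    exact (List.mem_append.1 ((FreeGroup.toWord_mul_sublist x y).subset hz)).elim (h1 z) (h2 z)
  | inv x _ h1 =>
    intro z hz
    rw [FreeGroup.toWord_inv, FreeGroup.invRev, List.mem_reverse, List.mem_map] at hz
    obtain ⟨y, hy, rfl⟩ := hz
    exact h1 y hy

open Classical in
/-- The places where a twist of `z` inserts a word, with the signs. -/
def pos (z : α × Bool) : List (α × Bool) → List (ℕ × ℤ)
  | [] => []
  | x :: l => (if x = z then [(1, 1)] else if x.1 = z.1 then [(0, -1)] else []) ++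
      (pos z l).map fun p => (p.1 + 1, p.2)

theorem pos_mem (z : α × Bool) (l : List (α × Bool)) : ∀ p ∈ pos z l, p.1 ≤ l.length ∧
    p.2 ≠ 0 ∧ (p.1 = 0 → ∃ x l', l = x :: l' ∧ x.1 = z.1 ∧ x ≠ z) := by
  induction l with
  | nil => simp [pos]
  | cons x l ih =>
    intro p hp
    rw [pos, List.mem_append] at hp
    rcases hp with hp | hp
    · split_ifs at hp with h1 h2
      · obtain rfl := List.mem_singleton.1 hp
        simp
      · obtain rfl := List.mem_singleton.1 hp
        exact ⟨by simp, by simp, fun _ => ⟨x, l, rfl, h2, h1⟩⟩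
      · simp at hp
    · obtain ⟨q, hq, rfl⟩ := List.mem_map.1 hp
      exact ⟨by simpa using (ih q hq).1, (ih q hq).2.1, by simp⟩

theorem pos_lt (z : α × Bool) {l : List (α × Bool)} (hl : FreeGroup.IsReduced l) :
    (pos z l).Pairwise fun p q => p.1 < q.1 := by
  induction l with
  | nil => simp [pos]
  | cons x l ih =>
    rw [pos, List.pairwise_append]
    refine ⟨by split_ifs <;> simp, ?_, fun p hp q hq => ?_⟩
    · rw [List.pairwise_map]
      exact (ih (List.IsChain.drop hl 1)).imp (by simp)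
    · obtain ⟨q, hq', rfl⟩ := List.mem_map.1 hq
      split_ifs at hp with h1 h2
      · obtain rfl := List.mem_singleton.1 hp
        have : q.1 ≠ 0 := fun e => by
          obtain ⟨y, l', rfl, e1, e2⟩ := (pos_mem z l q hq').2.2 e
          subst h1
          exact e2 (Prod.ext e1 ((List.isChain_cons_cons.1 hl).1 e1.symm).symm)
        simp only
        omega
      · obtain rfl := List.mem_singleton.1 hp
        simp
      · simp at hp

theorem tw_prod (z : α × Bool) {u : FreeGroup α} (hu : u ∈ std ({z.1}ᶜ : Set α))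
    (l : List (α × Bool)) : tw z u (FreeGroup.mk l) * (FreeGroup.mk l)⁻¹ = ((pos z l).map
      fun p => FreeGroup.mk (l.take p.1) * u ^ p.2 * (FreeGroup.mk (l.take p.1))⁻¹).prod := by
  induction l with
  | nil => simp [pos, ← FreeGroup.one_eq_mk]
  | cons x l ih =>
    have e : ∀ m, FreeGroup.mk (x :: m) = FreeGroup.mk [x] * FreeGroup.mk m := fun m => rfl
    have e1 : ((pos z l).map fun p => FreeGroup.mk ((x :: l).take (p.1 + 1)) * u ^ p.2 *
        (FreeGroup.mk ((x :: l).take (p.1 + 1)))⁻¹).prod = FreeGroup.mk [x] *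
          (tw z u (FreeGroup.mk l) * (FreeGroup.mk l)⁻¹) * (FreeGroup.mk [x])⁻¹ := by
      rw [ih, ← MulAut.conj_apply, map_list_prod, List.map_map]
      congr 2
      funext p
      rw [List.take_succ_cons, e, Function.comp_apply, MulAut.conj_apply]
      group
    rw [pos, List.map_append, List.prod_append, List.map_map]
    erw [e1]
    rw [e, map_mul, show tw z u (FreeGroup.mk [x]) * tw z u (FreeGroup.mk l) *
      (FreeGroup.mk [x] * FreeGroup.mk l)⁻¹ = tw z u (FreeGroup.mk [x]) * (FreeGroup.mk [x])⁻¹ *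
        (FreeGroup.mk [x] * (tw z u (FreeGroup.mk l) * (FreeGroup.mk l)⁻¹) *
          (FreeGroup.mk [x])⁻¹) by group]
    congr 1
    obtain ⟨y, s⟩ := x
    obtain ⟨t, s'⟩ := z
    have et : FreeGroup.mk [(y, true)] = FreeGroup.of y := rfl
    have ef : FreeGroup.mk [(y, false)] = (FreeGroup.of y)⁻¹ := rfl
    by_cases h : y = t
    · subst h
      cases s <;> cases s' <;>
        simp [et, ef, tw_true hu, tw_false hu, ← FreeGroup.one_eq_mk, -FreeGroup.inv_mk]
    · cases s <;> simp [et, ef, h, tw_of_ne (t, s') u h]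

theorem KD.descent [IsFreeGroup F] (K : KD J Bb f) {I : Set α} (hI : I ⊆ J)
    {H : Subgroup (FreeGroup α)} (hB : H ≤ Bb) (hle : H ≤ std I)
    (hna : ∀ g ∈ std J, NonAb ((K.ψ g).comp (Subgroup.inclusion hB))) (n : ℕ) :
    ∀ l : List (α × Bool), l.length < n → FreeGroup.IsReduced l → l ≠ [] →
      (∀ x ∈ l, x.1 ∈ J ∧ x.1 ∉ I) → ∀ g ∈ std J, (K.ψ g).comp (Subgroup.inclusion hB) ≠
        (K.ψ (g * FreeGroup.mk l)).comp (Subgroup.inclusion hB) := by
  induction n with
  | zero => exact fun l h => absurd h (Nat.not_lt_zero _)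
  | succ n ih =>
    intro l hn hr hne hl g hg heq
    obtain ⟨z, l', rfl⟩ := List.exists_cons_of_ne_nil hne
    set l := z :: l' with hl'
    have hz := hl z List.mem_cons_self
    have mJ : ∀ i, FreeGroup.mk (l.take i) ∈ std J := fun i =>
      mk_mem fun x hx => (hl x (List.mem_of_mem_take hx)).1
    have hw : FreeGroup.mk l ∈ std J := mk_mem fun x hx => (hl x hx).1
    let D : Subgroup H := (K.N0.comap (tw z)).subgroupOf H
    have hD : D.FiniteIndex :=
      ⟨fun e => K.tw_fi hz.1 hI (Subgroup.relIndex_eq_zero_of_le_right hle e)⟩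
    let φ : ℕ → H →* F := fun i =>
      (K.ψ (g * FreeGroup.mk (l.take i))).comp (Subgroup.inclusion hB)
    refine bpp_chain ((pos z l).map fun p => ((φ p.1).comp D.subtype, p.2)) ?_ ?_ ?_ ?_
    · simp [hl', pos]
    · intro p hp
      obtain ⟨q, hq, rfl⟩ := List.mem_map.1 hp
      exact ⟨(hna _ (mul_mem hg (mJ _))).finiteIndex D, (pos_mem z l q hq).2.1⟩
    · rintro ⟨⟨u, huH⟩, huD⟩
      have hu : u ∈ Bb := hB huH
      have hu' : u ∈ std ({z.1}ᶜ : Set α) := mem_std_compl hz.2 (hle huH)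
      obtain ⟨a, ha⟩ := K.equiv (γ := tw z u) huD hg (K.tw_diff hu hu' hg)
      have hd := K.tw_diff hu hu' hw
      have fx : ∀ b : H, tw z u b = b := fun b => tw_std _ _ (mem_std_compl hz.2 (hle b.2))
      have e0 : ∀ b : H, f (g * b * g⁻¹) =
          f (g * (FreeGroup.mk l * b * (FreeGroup.mk l)⁻¹) * g⁻¹) := fun b => by
        have := DFunLike.congr_fun heq b
        rw [MonoidHom.comp_apply, MonoidHom.comp_apply, K.ψ_apply hg,
          K.ψ_apply (mul_mem hg hw), Subgroup.coe_inclusion] at this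
        rw [this]
        congr 1
        group
      have e1 : K.ψ g ⟨_, hd⟩ = 1 := by
        refine (hna g hg).eq_one fun b => ?_
        have h1 := ha _ (K.conj_mem hw (hB b.2))
        rw [← e0, ha _ (hB b.2), fx, map_mul, map_mul, fx, _root_.map_inv] at h1
        have h2 := K.map_conj (K.conj_mem hg hd) (K.conj_mem hg (K.conj_mem hw (hB b.2)))
        rw [← e0, show g * (tw z u (FreeGroup.mk l) * (FreeGroup.mk l)⁻¹) * g⁻¹ *
          (g * (FreeGroup.mk l * b * (FreeGroup.mk l)⁻¹) * g⁻¹) *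
          (g * (tw z u (FreeGroup.mk l) * (FreeGroup.mk l)⁻¹) * g⁻¹)⁻¹ =
          g * (tw z u (FreeGroup.mk l) * b * (tw z u (FreeGroup.mk l))⁻¹) * g⁻¹ by group,
          ← h1] at h2
        rw [MonoidHom.comp_apply, K.ψ_apply hg, K.ψ_apply hg, Subgroup.coe_inclusion]
        exact mul_inv_eq_iff_eq_mul.1 h2.symm
      have e2 : (⟨_, hd⟩ : Bb) = ((pos z l).map fun p =>
          (⟨_, K.conj_mem (mJ p.1) hu⟩ : Bb) ^ p.2).prod := by
        apply Subtype.ext
        rw [SubmonoidClass.coe_list_prod, List.map_map]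
        refine (tw_prod z hu' l).trans ?_
        refine congrArg List.prod (List.map_congr_left fun p _ => ?_)
        simp only [Function.comp_apply, SubgroupClass.coe_zpow, conj_zpow]
      rw [e2, map_list_prod, List.map_map] at e1
      rw [pw, List.map_map, ← e1]
      congr 2
      funext p
      simp only [Function.comp_apply, map_zpow, φ, MonoidHom.comp_apply]
      rw [K.ψ_apply hg, K.ψ_apply (mul_mem hg (mJ _))]
      congr 2
      simp [mul_assoc]
    · rw [List.isChain_map]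
      refine ((pos_lt z hr).imp_of_mem fun {p q} hp hq hlt e => ?_).isChain
      exfalso
      have h0 : p.1 ≠ 0 := fun e0 => by
        obtain ⟨x, m, e1, -, e3⟩ := (pos_mem z l p hp).2.2 e0
        exact e3 (List.cons.inj e1).1.symm
      have hq1 := (pos_mem z l q hq).1
      have e1 : φ p.1 = φ q.1 := hom_eq_of_finiteIndex D fun x hx => DFunLike.congr_fun e ⟨x, hx⟩
      have e2 : l.take q.1 = l.take p.1 ++ (l.take q.1).drop p.1 := by
        conv_lhs => rw [← List.take_append_drop p.1 (l.take q.1), List.take_take,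
          min_eq_left hlt.le]
      have len : ((l.take q.1).drop p.1).length = q.1 - p.1 := by
        rw [List.length_drop, List.length_take, min_eq_left hq1]
      refine ih ((l.take q.1).drop p.1) (by omega)
        (List.IsChain.drop (List.IsChain.take hr _) _)
        (List.ne_nil_of_length_pos (by omega))
        (fun x hx => hl x (List.mem_of_mem_take (List.mem_of_mem_drop hx))) _
        (mul_mem hg (mJ p.1)) ?_
      rw [mul_assoc, FreeGroup.mul_mk, ← e2]
      exact e1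

/-- Lemma K, part (c). -/
theorem KD.inj [IsFreeGroup F] (K : KD J Bb f) {I : Set α} (hI : I ⊆ J)
    {H : Subgroup (FreeGroup α)} (hB : H ≤ Bb) (hle : H ≤ std I)
    (hna : ∀ g ∈ std J, ∃ a ∈ H, ∃ b ∈ H, ¬ Commute (f (g * a * g⁻¹)) (f (g * b * g⁻¹)))
    {w : FreeGroup α} (hw : w ∈ Bb) (hw' : w ∈ std (J \ I)) (h1 : f w = 1) : w = 1 := by
  classical
  by_contra hne
  refine K.descent hI hB hle (fun g hg => ?_) _ w.toWord (Nat.lt_succ_self _)
    FreeGroup.isReduced_toWord (by simpa using hne) (toWord_mem hw') 1 (one_mem _) ?_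
  · obtain ⟨a, ha, b, hb, hn⟩ := hna g hg
    exact ⟨⟨a, ha⟩, ⟨b, hb⟩, by
      rwa [MonoidHom.comp_apply, MonoidHom.comp_apply, K.ψ_apply hg, K.ψ_apply hg]⟩
  · ext b
    rw [FreeGroup.mk_toWord, one_mul, MonoidHom.comp_apply, MonoidHom.comp_apply,
      K.ψ_apply (one_mem _), K.ψ_apply (K.le hw), Subgroup.coe_inclusion,
      K.map_conj hw (hB b.2), h1]
    simp

end

end Pool.Agent.MP_3ce0a0_al.Q2T12.KC
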