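import Pool.Agent.MP_3ce0a0_al.Q2T12.Sec

/-! Moves, and the two families of homomorphisms to the vertex groups. -/

set_option autoImplicit false

namespace Pool.Agent.MP_3ce0a0_al.Q2T12

open H79 Q2T1 Q2T15 Q2T13

noncomputable section

variable {α F : Type} [Group F] {ρ : Out (FreeGroup α) →* Out F} {L : Finset α} {S : FTree F}
  {D : Subgroup (FreeGroup α)}

theorem one_eq {ι A : Type} [Group A] [DecidableEq ι] (h : ι) (b : A) :
    one h b = Pi.mulSingle (M := fun _ : ι => A) h b := by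
  funext h'
  by_cases e : h' = h
  · rw [e, one_same, Pi.mulSingle_eq_same]
  · rw [one_ne e, Pi.mulSingle_eq_of_ne e]

variable (ρ L) in
/-- The outer multitwists, seen in `Out F`. -/
def kp : (α × Bool → FreeGroup α) →* Out F := ρ.comp (multiO (L : Set α)ᶜ)

/-- The parameter moved by an automorphism. -/
def mv (γ : MulAut (FreeGroup α)) (k : α × Bool → FreeGroup α) : α × Bool → FreeGroup α :=
  fun h => γ (k h)

theorem mv_one (γ : MulAut (FreeGroup α)) (h : α × Bool) (b : FreeGroup α) :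
    mv γ (one h b) = one h (γ b) := by
  funext h'
  by_cases e : h' = h
  · rw [mv, e, one_same, one_same]
  · rw [mv, one_ne e, one_ne e, map_one]

theorem kp_one {h : α × Bool} (hh : h.1 ∈ L) {b : FreeGroup α} (hb : b ∈ std (L : Set α)ᶜ) :
    kp ρ L (one h b) = ρ (tau h b) := by
  classical
  rw [kp, MonoidHom.comp_apply, multiO_apply, one_eq, multi_mulSingle (by simpa using hh) hb,
    tau_apply]

theorem one_mem_KK {B : Subgroup (FreeGroup α)} {h : α × Bool} (hh : h.1 ∈ L) {b : FreeGroup α}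
    (hb : b ∈ B) : one h b ∈ KK B L := fun h' => by
  by_cases e : h' = h
  · rw [e, one_same]
    exact ⟨hb, fun k => absurd hh k⟩
  · rw [one_ne e]
    exact ⟨B.one_mem, fun _ => rfl⟩

theorem KK_mono {B B' : Subgroup (FreeGroup α)} (h : B ≤ B') : KK B L ≤ KK B' L :=
  fun _ hk h' => ⟨h (hk h').1, (hk h').2⟩

/-- A subgroup that contains the parameters supported at one label contains all parameters. -/
theorem KK_le [Finite α] {B : Subgroup (FreeGroup α)} {H : Subgroup (α × Bool → FreeGroup α)}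
    (h : ∀ l : α × Bool, l.1 ∈ L → ∀ b ∈ B, one l b ∈ H) : KK B L ≤ H := fun k hk =>
  mem_of_one fun l => by
    by_cases e : l.1 ∈ L
    · exact h l e _ (hk l).1
    · rw [(hk l).2 e, map_one]
      exact H.one_mem

theorem mv_mem {J : Set α} {B : Subgroup (FreeGroup α)} (hB : NInv J B) {γ : MulAut (FreeGroup α)}
    (hγ : γ ∈ NA J) {k : α × Bool → FreeGroup α} (hk : k ∈ KK B L) : mv γ k ∈ KK B L :=
  fun h => ⟨hB γ hγ _ (hk h).1, fun e => by rw [mv, (hk h).2 e, map_one]⟩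

variable (ρ) in
/-- `a` is a lift of the image of `γ`. -/
def Lf (γ : MulAut (FreeGroup α)) (a : MulAut F) : Prop := mkOut F a = ρ (mkOut _ γ)

theorem ex_lf (γ : MulAut (FreeGroup α)) : ∃ a, Lf ρ γ a := mkOut_surjective F _

theorem Lf.inv {γ : MulAut (FreeGroup α)} {a : MulAut F} (h : Lf ρ γ a) : Lf ρ γ⁻¹ a⁻¹ := by
  rw [Lf, map_inv, map_inv, map_inv, h]

theorem Lf.conj {γ : MulAut (FreeGroup α)} {a : MulAut F} (h : Lf ρ γ a) (g : F) :
    Lf ρ γ (MulAut.conj g * a) := by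
  rw [Lf, map_mul, mkOut_conj, one_mul, h]

theorem kp_mv (H : In4d ρ L S D) {γ : MulAut (FreeGroup α)} (hγ : γ ∈ NA (L : Set α)ᶜ)
    {a : MulAut F} (ha : Lf ρ γ a) {k : α × Bool → FreeGroup α} (hk : k ∈ KK D L) :
    mkOut F a * kp ρ L k * (mkOut F a)⁻¹ = kp ρ L (mv γ k) := by
  rw [ha, kp, MonoidHom.comp_apply, ← map_inv, ← map_mul, ← map_mul,
    NA_conj_multiO hγ fun h => H.chr.le (hk h).1]
  rfl

theorem kp_mem (H : In4d ρ L S D) {k : α × Bool → FreeGroup α} (hk : k ∈ KK D L) :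
    kp ρ L k ∈ EO S := by
  obtain ⟨a, ha⟩ := mkOut_surjective F (kp ρ L k)
  exact ⟨a, H.mem k hk a ha, ha⟩

theorem ex_cor (H : In4d ρ L S D) {γ : MulAut (FreeGroup α)} (hγ : γ ∈ NA (L : Set α)ᶜ)
    {a : MulAut F} (ha : Lf ρ γ a) {v : S.X} (hv : ∃ g : F, g ≠ 1 ∧ S.ι g • v = v) :
    ∃ v', Cor S a v v' := vperm S a (H.inv γ hγ a ha) (H.inv γ⁻¹ (inv_mem hγ) a⁻¹ ha.inv) hv

theorem mv1 (H : In4d ρ L S D) {γ : MulAut (FreeGroup α)} (hγ : γ ∈ NA (L : Set α)ᶜ)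
    {a : MulAut F} (ha : Lf ρ γ a) {v w v' : S.X} (hvw : dist v w = 1)
    (hv : ∃ g : F, g ≠ 1 ∧ S.ι g • v = v) (hc : Cor S a v v') :
    ∃ w', dist v' w' = 1 ∧ ∀ k ∈ KK D L, (tt S v' w' (kp ρ L (mv γ k)) : MulAut F) =
      a * tt S v w (kp ρ L k) * a⁻¹ := by
  obtain ⟨w', h1, h2⟩ := tt_move H.trivE (K := kp ρ L '' KK D L)
    (by rintro _ ⟨k, hk, rfl⟩; exact kp_mem H hk)
    (fun g hg => H.per g fun k hk => hg _ ⟨k, hk, rfl⟩) (H.inv γ hγ a ha)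
    (H.inv γ⁻¹ (inv_mem hγ) a⁻¹ ha.inv)
    (by rintro _ ⟨k, hk, rfl⟩; rw [kp_mv H hγ ha hk]; exact kp_mem H (mv_mem H.chr.inv hγ hk))
    hvw hv hc
  exact ⟨w', h1, fun k hk => by rw [← kp_mv H hγ ha hk]; exact h2 _ ⟨k, hk, rfl⟩⟩

theorem mv2 (H : In4d ρ L S D) {s : Set (S.X × S.X)}
    (hs : ∀ v w : S.X, dist v w = 1 → ∃ g : F, (S.ι g • v, S.ι g • w) ∈ s)
    {γ : MulAut (FreeGroup α)} (hγ : γ ∈ NA (L : Set α)ᶜ) {v w : S.X} (hvw : dist v w = 1)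
    (hv : ∃ g : F, g ≠ 1 ∧ S.ι g • v = v) :
    ∃ a, Lf ρ γ a ∧ ∃ r ∈ s, dist r.1 r.2 = 1 ∧ Cor S a v r.1 ∧
      ∀ k ∈ KK D L, (tt S r.1 r.2 (kp ρ L (mv γ k)) : MulAut F) =
        a * tt S v w (kp ρ L k) * a⁻¹ := by
  obtain ⟨a, ha⟩ := ex_lf (ρ := ρ) γ
  obtain ⟨v', hc⟩ := ex_cor H hγ ha hv
  obtain ⟨w', h1, h2⟩ := mv1 H hγ ha hvw hv hc
  obtain ⟨g, hg⟩ := hs v' w' h1
  refine ⟨_, ha.conj g, _, hg, by rwa [dist_smul], ?_, fun k hk => ?_⟩
  · rw [← S.coe_ι]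
    exact hc.trans (cor_smul (S.ι g) v')
  · rw [tt_smul H.trivE h1 (kp_mem H (mv_mem H.chr.inv hγ hk)), Subgroup.coe_mul, Subgroup.coe_mul,
      Subgroup.coe_inv, h2 k hk, S.coe_ι]
    group

/-! ### Non-abelian vertex groups -/

variable (ρ L S D) in
/-- The parameters with a lift that centralises any given non-abelian vertex group. -/
def KN : Subgroup (α × Bool → FreeGroup α) where
  carrier := {k | k ∈ KK D L ∧ ∀ v, Nab S v →
    ∃ a : MulAut F, mkOut F a = kp ρ L k ∧ ∀ g, S.ι g • v = v → a g = g}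
  one_mem' := ⟨one_mem _, fun _ _ => ⟨1, by rw [map_one, map_one], fun _ _ => rfl⟩⟩
  mul_mem' := fun {a b} ha hb => ⟨mul_mem ha.1 hb.1, fun v hv => by
    obtain ⟨x, h1, h2⟩ := ha.2 v hv
    obtain ⟨y, h3, h4⟩ := hb.2 v hv
    exact ⟨x * y, by rw [map_mul, map_mul, h1, h3],
      fun g hg => by rw [MulAut.mul_apply, h4 g hg, h2 g hg]⟩⟩
  inv_mem' := fun {a} ha => ⟨inv_mem ha.1, fun v hv => by
    obtain ⟨x, h1, h2⟩ := ha.2 v hv
    exact ⟨x⁻¹, by rw [map_inv, map_inv, h1],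
      fun g hg => by rw [MulAut.inv_apply, MulEquiv.symm_apply_eq, h2 g hg]⟩⟩

theorem cen_conj {a x : MulAut F} {v v' : S.X} (hc : Cor S a v v')
    (hx : ∀ g, S.ι g • v = v → x g = g) (g : F) (hg : S.ι g • v' = v') : (a * x * a⁻¹) g = g := by
  rw [MulAut.mul_apply, MulAut.mul_apply, hx _ ((hc.symm g).1 hg), MulAut.apply_inv_self]

theorem KN_mv (H : In4d ρ L S D) {γ : MulAut (FreeGroup α)} (hγ : γ ∈ NA (L : Set α)ᶜ)
    {k : α × Bool → FreeGroup α} (hk : k ∈ KN ρ L S D) : mv γ k ∈ KN ρ L S D := by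
  refine ⟨mv_mem H.chr.inv hγ hk.1, fun v' hv' => ?_⟩
  obtain ⟨a, ha⟩ := ex_lf (ρ := ρ) γ
  obtain ⟨v, hc⟩ := ex_cor H (inv_mem hγ) ha.inv hv'.ntr
  obtain ⟨x, h1, h2⟩ := hk.2 v (hc.nab hv')
  have hc' := hc.symm
  rw [inv_inv] at hc'
  exact ⟨a * x * a⁻¹, by rw [map_mul, map_mul, map_inv, h1, kp_mv H hγ ha hk.1], cen_conj hc' h2⟩

theorem ss_kn (H : In4d ρ L S D) {v : S.X} (hv : Nab S v) {k : α × Bool → FreeGroup α}
    (hk : k ∈ KN ρ L S D) : mkOut F (ss S v (kp ρ L k)) = kp ρ L k ∧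
      ∀ g, S.ι g • v = v → (ss S v (kp ρ L k) : MulAut F) g = g :=
  ss_spec (kp_mem H hk.1) (hk.2 v hv)

theorem ss_fix (H : In4d ρ L S D) {v : S.X} (hv : Nab S v) {k : α × Bool → FreeGroup α}
    (hk : k ∈ KN ρ L S D) : ss S v (kp ρ L k) • v = v :=
  fix_of_cor hv.ntr (cor_of_cen (ss_kn H hv hk).2)

variable (ρ L S) in
/-- The twisting element of the edge from `v` to `w`. -/
def ff (v w : S.X) (k : α × Bool → FreeGroup α) : F :=
  dif (tt S v w (kp ρ L k) : MulAut F) (ss S v (kp ρ L k))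

theorem ff_out (H : In4d ρ L S D) {v w : S.X} (hvw : dist v w = 1) (hv : Nab S v)
    {k : α × Bool → FreeGroup α} (hk : k ∈ KN ρ L S D) :
    mkOut F (tt S v w (kp ρ L k)) = mkOut F (ss S v (kp ρ L k)) :=
  (tt_spec H.trivE hvw (kp_mem H hk.1)).1.trans (ss_kn H hv hk).1.symm

theorem ff_fix (H : In4d ρ L S D) {v w : S.X} (hvw : dist v w = 1) (hv : Nab S v)
    {k : α × Bool → FreeGroup α} (hk : k ∈ KN ρ L S D) : S.ι (ff ρ L S v w k) • v = v :=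
  dif_fix (ff_out H hvw hv hk) (tt_spec H.trivE hvw (kp_mem H hk.1)).2.1 (ss_fix H hv hk)

theorem ff_tfix (H : In4d ρ L S D) {v w : S.X} (hvw : dist v w = 1) (hv : Nab S v)
    {k : α × Bool → FreeGroup α} (hk : k ∈ KN ρ L S D) :
    (S.ι (ff ρ L S v w k) * ss S v (kp ρ L k)) • w = w := by
  rw [ff, ← eq_iota_mul (dif_spec (ff_out H hvw hv hk))]
  exact (tt_spec H.trivE hvw (kp_mem H hk.1)).2.2

variable [IsFreeGroup F]

theorem ff_mul (H : In4d ρ L S D) (hZ : ZT F) {v w : S.X} (hvw : dist v w = 1) (hv : Nab S v) :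
    ∀ k ∈ KN ρ L S D, ∀ k' ∈ KN ρ L S D,
      ff ρ L S v w (k * k') = ff ρ L S v w k * ff ρ L S v w k' := by
  intro k hk k' hk'
  obtain ⟨a1, a2⟩ := ss_kn H hv hk
  obtain ⟨b1, b2⟩ := ss_kn H hv hk'
  obtain ⟨c1, c2⟩ := ss_kn H hv (mul_mem hk hk')
  have e : (ss S v (kp ρ L (k * k')) : MulAut F) = ss S v (kp ρ L k) * ss S v (kp ρ L k') :=
    cen_eq (by rw [c1, map_mul, map_mul, a1, b1]) hv c2
      fun g hg => by rw [MulAut.mul_apply, b2 g hg, a2 g hg]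
  rw [ff, e, map_mul, tt_mul H.trivE hvw (kp_mem H hk.1) (kp_mem H hk'.1), Subgroup.coe_mul]
  exact dif_mul hZ (ff_out H hvw hv hk) (ff_out H hvw hv hk') (a2 _ (ff_fix H hvw hv hk'))

theorem ff_fam (H : In4d ρ L S D) (hZ : ZT F) {v w : S.X} (hvw : dist v w = 1) (hv : Nab S v)
    (h : α × Bool) : ∃ R : Set (FreeGroup α → F), R.Finite ∧ ∀ γ ∈ NA (L : Set α)ᶜ,
      ∃ a : MulAut F, ∃ r ∈ R, ∀ b, one h b ∈ KN ρ L S D → a (ff ρ L S v w (one h b)) = r (γ b) := by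
  obtain ⟨s, hs1, hs⟩ := S.fin
  refine ⟨_, hs1.image fun r b => ff ρ L S r.1 r.2 (one h b), fun γ hγ => ?_⟩
  obtain ⟨a, ha, r, hr, -, hc, h2⟩ := mv2 H hs hγ hvw hv.ntr
  refine ⟨a, _, ⟨r, hr, rfl⟩, fun b hb => ?_⟩
  obtain ⟨a1, a2⟩ := ss_kn H hv hb
  obtain ⟨b1, b2⟩ := ss_kn H (hc.nab hv) (KN_mv H hγ hb)
  have e : (ss S r.1 (kp ρ L (mv γ (one h b))) : MulAut F) =
      a * ss S v (kp ρ L (one h b)) * a⁻¹ :=
    cen_eq (by rw [b1, map_mul, map_mul, map_inv, a1, kp_mv H hγ ha hb.1]) (hc.nab hv) b2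
      (cen_conj hc a2)
  rw [ff, ← dif_conj hZ (ff_out H hvw hv hb), ← e, ← h2 _ hb.1, mv_one]
  rfl

/-! ### Abelian vertex groups -/

variable (D) in
/-- The subgroup generated by the squares. -/
def sq : Subgroup (FreeGroup α) := Subgroup.closure {x | ∃ b ∈ D, x = b * b}

omit [IsFreeGroup F] in
theorem sq_le : sq D ≤ D := (Subgroup.closure_le _).2 (by
  rintro _ ⟨b, hb, rfl⟩
  exact D.mul_mem hb hb)

theorem tt_cen [Finite α] (H : In4d ρ L S D) {v w : S.X} (hvw : dist v w = 1) (hv : ¬ Nab S v)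
    {k : α × Bool → FreeGroup α} (hk : k ∈ KK (sq D) L) (g : F) (hg : S.ι g • v = v) :
    (tt S v w (kp ρ L k) : MulAut F) g = g := by
  let Z : Subgroup (α × Bool → FreeGroup α) :=
    { carrier := {k | k ∈ KK D L ∧ ∀ g, S.ι g • v = v → (tt S v w (kp ρ L k) : MulAut F) g = g}
      one_mem' := ⟨one_mem _, fun g _ => by rw [map_one, tt_one H.trivE hvw]; rfl⟩
      mul_mem' := fun {a b} ha hb => ⟨mul_mem ha.1 hb.1, fun g hg => by
        rw [map_mul, tt_mul H.trivE hvw (kp_mem H ha.1) (kp_mem H hb.1), Subgroup.coe_mul,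
          MulAut.mul_apply, hb.2 g hg, ha.2 g hg]⟩
      inv_mem' := fun {a} ha => ⟨inv_mem ha.1, fun g hg => by
        rw [map_inv, tt_inv H.trivE hvw (kp_mem H ha.1), Subgroup.coe_inv, MulAut.inv_apply,
          MulEquiv.symm_apply_eq, ha.2 g hg]⟩ }
  have key : KK (sq D) L ≤ Z := KK_le fun l hl b hb => by
    have : sq D ≤ Z.comap (one l) := (Subgroup.closure_le _).2 (by
      rintro _ ⟨c, hc, rfl⟩
      have h1 := one_mem_KK hl hc
      refine ⟨one_mem_KK hl (D.mul_mem hc hc), fun x hx => ?_⟩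
      rw [map_mul, map_mul, tt_mul H.trivE hvw (kp_mem H h1) (kp_mem H h1), Subgroup.coe_mul,
        MulAut.mul_apply]
      refine sq_fix (St S v) (fun p hp q hq => ?_) _ (fun y => ?_) hx
      · by_contra hn
        exact hv ⟨p, q, hp, hq, hn⟩
      · have c4 := cor_smul (tt S v w (kp ρ L (one l c))) v y
        rw [(tt_spec H.trivE hvw (kp_mem H h1)).2.1] at c4
        exact c4.symm)
    exact this hb
  exact (key hk).2 g hg

variable (ρ L S) in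
/-- The difference of the sections of two edges at one vertex. -/
def gg (v u w : S.X) (k : α × Bool → FreeGroup α) : F :=
  dif (tt S v w (kp ρ L k) : MulAut F) (tt S v u (kp ρ L k))

omit [IsFreeGroup F] in
theorem gg_out (H : In4d ρ L S D) {v u w : S.X} (hvu : dist v u = 1) (hvw : dist v w = 1)
    {k : α × Bool → FreeGroup α} (hk : k ∈ KK D L) :
    mkOut F (tt S v w (kp ρ L k)) = mkOut F (tt S v u (kp ρ L k)) :=
  (tt_spec H.trivE hvw (kp_mem H hk)).1.trans (tt_spec H.trivE hvu (kp_mem H hk)).1.symm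

omit [IsFreeGroup F] in
theorem gg_fix (H : In4d ρ L S D) {v u w : S.X} (hvu : dist v u = 1) (hvw : dist v w = 1)
    {k : α × Bool → FreeGroup α} (hk : k ∈ KK D L) : S.ι (gg ρ L S v u w k) • v = v :=
  dif_fix (gg_out H hvu hvw hk) (tt_spec H.trivE hvw (kp_mem H hk)).2.1
    (tt_spec H.trivE hvu (kp_mem H hk)).2.1

theorem gg_mul [Finite α] (H : In4d ρ L S D) (hZ : ZT F) {v u w : S.X} (hvu : dist v u = 1)
    (hvw : dist v w = 1) (hv : ¬ Nab S v) : ∀ k ∈ KK (sq D) L, ∀ k' ∈ KK (sq D) L,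
      gg ρ L S v u w (k * k') = gg ρ L S v u w k * gg ρ L S v u w k' := by
  intro k hk k' hk'
  have h1 := KK_mono sq_le hk
  have h2 := KK_mono sq_le hk'
  rw [gg, map_mul, tt_mul H.trivE hvw (kp_mem H h1) (kp_mem H h2),
    tt_mul H.trivE hvu (kp_mem H h1) (kp_mem H h2), Subgroup.coe_mul, Subgroup.coe_mul]
  exact dif_mul hZ (gg_out H hvu hvw h1) (gg_out H hvu hvw h2)
    (tt_cen H hvu hv hk _ (gg_fix H hvu hvw h2))

theorem gg_fam [Finite α] (H : In4d ρ L S D) (hZ : ZT F) (hD : NInv (L : Set α)ᶜ (sq D))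
    {v u w : S.X} (hvu : dist v u = 1) (hvw : dist v w = 1) (hv : ¬ Nab S v)
    (hv1 : ∃ g : F, g ≠ 1 ∧ S.ι g • v = v) {h : α × Bool} (hh : h.1 ∈ L) :
    ∃ R : Set (FreeGroup α → F), R.Finite ∧ ∀ γ ∈ NA (L : Set α)ᶜ,
      ∃ a : MulAut F, ∃ r ∈ R, ∀ b ∈ sq D, a (gg ρ L S v u w (one h b)) = r (γ b) := by
  obtain ⟨s, hs1, hs⟩ := S.fin
  let c : S.X → S.X → F := fun x y => Classical.epsilon fun g => S.ι g • x = y
  refine ⟨_, (hs1.prod hs1).image fun r b =>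
    gg ρ L S r.1.1 r.1.2 (S.ι (c r.2.1 r.1.1) • r.2.2) (one h b), fun γ hγ => ?_⟩
  obtain ⟨a, ha, r, hr, hd, hc, h2⟩ := mv2 H hs hγ hvu hv1
  obtain ⟨w', hw', h3⟩ := mv1 H hγ ha hvw hv1 hc
  obtain ⟨g, hg⟩ := hs r.1 w' hw'
  refine ⟨a, _, ⟨(r, _), ⟨hr, hg⟩, rfl⟩, fun b hb => ?_⟩
  have hb1 := one_mem_KK hh hb
  have hb2 := KK_mono sq_le hb1
  have hb3 := mv_mem hD hγ hb1
  have hb4 := KK_mono sq_le hb3
  have e1 : S.ι (c (S.ι g • r.1) r.1) • S.ι g • r.1 = r.1 :=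
    Classical.epsilon_spec (p := fun x => S.ι x • S.ι g • r.1 = r.1)
      ⟨g⁻¹, by rw [map_inv, inv_smul_smul]⟩
  rw [← mul_smul, ← map_mul] at e1
  have e2 := tt_smul H.trivE hw' (kp_mem H hb4) (c (S.ι g • r.1) r.1 * g)
  have e3 := iota_map (tt S r.1 w' (kp ρ L (mv γ (one h b)))) (c (S.ι g • r.1) r.1 * g)
  rw [tt_cen H hw' (fun k => hv (hc.symm.nab k)) hb3 _ e1, eq_mul_inv_iff_mul_eq] at e3
  rw [e1, e3, mul_inv_cancel_right, map_mul, mul_smul] at e2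
  rw [gg, ← dif_conj hZ (gg_out H hvu hvw hb2), ← h2 _ hb2, ← h3 _ hb2, ← e2, mv_one]
  rfl

end

end Pool.Agent.MP_3ce0a0_al.Q2T12
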