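import Pool.Agent.MP_3ce0a0_al.Q2T12.Walk

/-! The sections that fix an edge or centralise a vertex group, and their behaviour under
automorphisms. -/

set_option autoImplicit false

namespace Pool.Agent.MP_3ce0a0_al.Q2T12

open H79 Q2T1 Q2T15 Q2T13

noncomputable section

section Dif

variable {F : Type} [Group F]

/-- The element `u` with `a = i_u b`. -/
def dif (a b : MulAut F) : F := Classical.epsilon fun u => a = MulAut.conj u * b

theorem dif_spec {a b : MulAut F} (h : mkOut F a = mkOut F b) :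
    a = MulAut.conj (dif a b) * b :=
  Classical.epsilon_spec (p := fun u => a = MulAut.conj u * b) (mkOut_eq_iff.1 h)

theorem conj_map (c : MulAut F) (u : F) : MulAut.conj (c u) = c * MulAut.conj u * c⁻¹ := by
  ext x
  simp

/-- The centre is trivial. -/
def ZT (F : Type) [Group F] : Prop := ∀ u : F, MulAut.conj u = 1 → u = 1

theorem zt_of [IsFreeGroup F] (h : ∃ g g' : F, ¬ Commute g g') : ZT F := by
  obtain ⟨g, g', hg⟩ := h
  intro u hu
  have key : ∀ x, Commute u x := fun x => by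
    have := DFunLike.congr_fun hu x
    rw [MulAut.conj_apply, MulAut.one_apply, mul_inv_eq_iff_eq_mul] at this
    exact this
  exact Q2T4A.eq_one_of_comm hg (key g) (key g')

theorem dif_eq (hZ : ZT F) {a b : MulAut F} {u : F} (h : a = MulAut.conj u * b) :
    dif a b = u := by
  have h1 : mkOut F a = mkOut F b := mkOut_eq_iff.2 ⟨u, h⟩
  have h2 := mul_right_cancel ((dif_spec h1).symm.trans h)
  have h3 := hZ (u⁻¹ * dif a b) (by rw [map_mul, h2, map_inv, inv_mul_cancel])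
  exact (inv_mul_eq_one.1 h3).symm

theorem dif_conj (hZ : ZT F) {a b : MulAut F} (h : mkOut F a = mkOut F b) (c : MulAut F) :
    dif (c * a * c⁻¹) (c * b * c⁻¹) = c (dif a b) := by
  refine dif_eq hZ ?_
  rw [conj_map]
  conv_lhs => rw [dif_spec h]
  group

theorem dif_mul (hZ : ZT F) {a b a' b' : MulAut F} (h : mkOut F a = mkOut F b)
    (h' : mkOut F a' = mkOut F b') (hb : b (dif a' b') = dif a' b') :
    dif (a * a') (b * b') = dif a b * dif a' b' := by
  refine dif_eq hZ ?_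
  have e : MulAut.conj (dif a' b') = b * MulAut.conj (dif a' b') * b⁻¹ := by
    rw [← conj_map, hb]
  rw [map_mul, e]
  conv_lhs => rw [dif_spec h, dif_spec h']
  group

end Dif

section Pi

variable {ι A M : Type} [Group A] [Group M]

/-- The kernel of a function that is multiplicative on a subgroup. -/
def kerOn (H : Subgroup A) (f : A → M) (hf : ∀ a ∈ H, ∀ b ∈ H, f (a * b) = f a * f b) :
    Subgroup A where
  carrier := {a | a ∈ H ∧ f a = 1}
  one_mem' := ⟨H.one_mem, by simpa using hf 1 H.one_mem 1 H.one_mem⟩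
  mul_mem' := fun {a b} ha hb => ⟨H.mul_mem ha.1 hb.1, by
    rw [hf a ha.1 b hb.1, ha.2, hb.2, mul_one]⟩
  inv_mem' := fun {a} ha => ⟨H.inv_mem ha.1, by
    have h1 : f 1 = 1 := by simpa using hf 1 H.one_mem 1 H.one_mem
    have h2 := hf a ha.1 a⁻¹ (H.inv_mem ha.1)
    rwa [mul_inv_cancel, h1, ha.2, one_mul, eq_comm] at h2⟩

open Classical in
/-- The parameter supported at one label. -/
def one (h : ι) : A →* (ι → A) := MonoidHom.mulSingle (fun _ : ι => A) h

theorem one_same (h : ι) (b : A) : one h b h = b := by simp [one]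

theorem one_ne {h h' : ι} (hne : h' ≠ h) (b : A) : one h b h' = 1 := by simp [one, hne]

theorem one_commute {h h' : ι} (hne : h ≠ h') (b c : A) : Commute (one h b) (one h' c) := by
  classical
  exact Pi.mulSingle_commute (f := fun _ : ι => A) hne b c

theorem mem_of_one [Finite ι] {H : Subgroup (ι → A)} {k : ι → A} (h : ∀ i, one i (k i) ∈ H) :
    k ∈ H := by
  classical
  exact Subgroup.pi_mem_of_mulSingle_mem k h

end Pi

section Tree

variable {F : Type} [Group F] (S : FTree F)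

/-- The vertex group. -/
def St (v : S.X) : Subgroup F := (MulAction.stabilizer S.E v).comap S.ι

/-- The vertex group is not abelian. -/
def Nab (v : S.X) : Prop := ∃ g g' : F, S.ι g • v = v ∧ S.ι g' • v = v ∧ ¬ Commute g g'

/-- The automorphism `a` carries the group of `v` onto the group of `v'`. -/
def Cor (a : MulAut F) (v v' : S.X) : Prop := ∀ g : F, S.ι g • v = v ↔ S.ι (a g) • v' = v'

variable {S}

theorem mem_St {v : S.X} {g : F} : g ∈ St S v ↔ S.ι g • v = v := Iff.rfl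

theorem iota_map (e : S.E) (g : F) : S.ι ((e : MulAut F) g) = e * S.ι g * e⁻¹ :=
  Subtype.ext (by simp [S.coe_ι, conj_map])

theorem cor_smul (e : S.E) (v : S.X) : Cor S e v (e • v) := fun g => by
  rw [iota_map, mul_smul, mul_smul, inv_smul_smul, smul_left_cancel_iff]

theorem Cor.trans {a b : MulAut F} {u v w : S.X} (h : Cor S a u v) (h' : Cor S b v w) :
    Cor S (b * a) u w := fun g => (h g).trans (h' _)

theorem Cor.symm {a : MulAut F} {v w : S.X} (h : Cor S a v w) : Cor S a⁻¹ w v := fun g => by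
  rw [h, MulAut.apply_inv_self]

theorem Cor.nab {a : MulAut F} {v w : S.X} (h : Cor S a v w) (hv : Nab S v) : Nab S w := by
  obtain ⟨g, g', h1, h2, h3⟩ := hv
  exact ⟨a g, a g', (h g).1 h1, (h g').1 h2, fun k => h3 (by simpa using k.map a⁻¹)⟩

theorem Cor.ntr {a : MulAut F} {v w : S.X} (h : Cor S a v w) (hv : ∃ g : F, g ≠ 1 ∧ S.ι g • v = v) :
    ∃ g : F, g ≠ 1 ∧ S.ι g • w = w := by
  obtain ⟨g, h1, h2⟩ := hv
  exact ⟨a g, by simpa using h1, (h g).1 h2⟩

theorem Nab.ntr {v : S.X} (hv : Nab S v) : ∃ g : F, g ≠ 1 ∧ S.ι g • v = v := by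
  obtain ⟨g, g', h1, -, h3⟩ := hv
  exact ⟨g, by rintro rfl; exact h3 (Commute.one_left _), h1⟩

theorem fix_uniq {g : F} (hg : g ≠ 1) {v w : S.X} (hv : S.ι g • v = v) (hw : S.ι g • w = w) :
    v = w := by
  by_contra hne
  obtain ⟨z, h1, h2⟩ := IsSimp.geo v w hne
  exact hg (S.edge g v z h1 hv (h2.fix hv hw))

/-- An element that preserves a non-trivial vertex group fixes the vertex. -/
theorem fix_of_cor {e : S.E} {v : S.X} (hv : ∃ g : F, g ≠ 1 ∧ S.ι g • v = v) (h : Cor S e v v) :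
    e • v = v := by
  obtain ⟨g, h1, h2⟩ := hv
  exact fix_uniq (g := (e : MulAut F) g) (by simpa using h1) ((cor_smul e v g).1 h2) ((h g).1 h2)

theorem cor_of_cen {a : MulAut F} {v : S.X} (h : ∀ g, S.ι g • v = v → a g = g) : Cor S a v v := by
  refine fun g => ⟨fun k => by rwa [h g k], fun k => ?_⟩
  rwa [a.injective (h _ k)] at k

theorem eq_iota_mul {a b : S.E} {u : F} (h : (a : MulAut F) = MulAut.conj u * b) :
    a = S.ι u * b := Subtype.ext (by rw [h, Subgroup.coe_mul, S.coe_ι])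

/-- Two lifts of one outer automorphism that agree on an edge are equal. -/
theorem lift_eq {a b : S.E} (h : mkOut F a = mkOut F b) {v w : S.X} (hvw : dist v w = 1)
    (hv : a • v = b • v) (hw : a • w = b • w) : a = b := by
  have e := eq_iota_mul (dif_spec h)
  have h1 : dif (a : MulAut F) b = 1 := by
    refine S.edge _ (b • v) (b • w) (by rwa [dist_smul]) ?_ ?_
    · rw [← mul_smul, ← e, hv]
    · rw [← mul_smul, ← e, hw]
  rw [e, h1, map_one, one_mul]

theorem dif_fix {a b : S.E} (h : mkOut F a = mkOut F b) {v : S.X} (ha : a • v = v)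
    (hb : b • v = v) : S.ι (dif (a : MulAut F) b) • v = v := by
  have e := eq_iota_mul (dif_spec h)
  rw [← hb, ← mul_smul, ← e, ha, hb]

/-- Two lifts that centralise a non-abelian vertex group are equal. -/
theorem cen_eq [IsFreeGroup F] {a b : MulAut F} (h : mkOut F a = mkOut F b) {v : S.X}
    (hv : Nab S v) (ha : ∀ g, S.ι g • v = v → a g = g) (hb : ∀ g, S.ι g • v = v → b g = g) :
    a = b := by
  obtain ⟨g, g', h1, h2, h3⟩ := hv
  have e := dif_spec h
  have key : ∀ x, S.ι x • v = v → Commute (dif a b) x := fun x hx => by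
    have := ha x hx
    rw [e, MulAut.mul_apply, hb x hx, MulAut.conj_apply, mul_inv_eq_iff_eq_mul] at this
    exact this
  rw [e, Q2T4A.eq_one_of_comm h3 (key g h1) (key g' h2), map_one, one_mul]

variable (S)

/-- The lift of `φ` that fixes `v` and `w`. -/
def tt (v w : S.X) (φ : Out F) : S.E :=
  Classical.epsilon fun a : S.E => mkOut F a = φ ∧ a • v = v ∧ a • w = w

/-- The lift of `φ` that centralises the group of `v`. -/
def ss (v : S.X) (φ : Out F) : S.E :=
  Classical.epsilon fun a : S.E => mkOut F a = φ ∧ ∀ g, S.ι g • v = v → (a : MulAut F) g = g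

/-- The image of the acting group. -/
def EO : Subgroup (Out F) := S.E.map (mkOut F)

/-- The acting group is trivial on the oriented edges of the quotient. -/
def TrE : Prop :=
  ∀ (e : S.E) (v w : S.X), dist v w = 1 → ∃ g : F, S.ι g • v = e • v ∧ S.ι g • w = e • w

variable {S}

theorem mem_E {a : MulAut F} (h : mkOut F a ∈ EO S) : a ∈ S.E := by
  obtain ⟨b, hb, e⟩ := h
  obtain ⟨u, hu⟩ := mkOut_eq_iff.1 e.symm
  rw [hu, ← S.coe_ι]
  exact S.E.mul_mem (S.ι u).2 hb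

theorem mkOut_iota (g : F) : mkOut F (S.ι g) = 1 := by rw [S.coe_ι, mkOut_conj]

theorem tt_spec (hE : TrE S) {v w : S.X} (hvw : dist v w = 1) {φ : Out F} (hφ : φ ∈ EO S) :
    mkOut F (tt S v w φ) = φ ∧ tt S v w φ • v = v ∧ tt S v w φ • w = w := by
  refine Classical.epsilon_spec
    (p := fun a : S.E => mkOut F a = φ ∧ a • v = v ∧ a • w = w) ?_
  obtain ⟨b, hb, e⟩ := hφ
  obtain ⟨g, h1, h2⟩ := hE ⟨b, hb⟩ v w hvw
  refine ⟨(S.ι g)⁻¹ * ⟨b, hb⟩, ?_, ?_, ?_⟩
  · rw [Subgroup.coe_mul, Subgroup.coe_inv, map_mul, map_inv, mkOut_iota, inv_one, one_mul, e]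
  · rw [mul_smul, ← h1, inv_smul_smul]
  · rw [mul_smul, ← h2, inv_smul_smul]

theorem tt_eq (hE : TrE S) {v w : S.X} (hvw : dist v w = 1) {φ : Out F} {a : S.E}
    (h : mkOut F a = φ) (hv : a • v = v) (hw : a • w = w) : tt S v w φ = a := by
  obtain ⟨h1, h2, h3⟩ := tt_spec hE hvw (φ := φ) ⟨a, a.2, h⟩
  exact lift_eq (h1.trans h.symm) hvw (h2.trans hv.symm) (h3.trans hw.symm)

theorem tt_mul (hE : TrE S) {v w : S.X} (hvw : dist v w = 1) {φ ψ : Out F} (hφ : φ ∈ EO S)
    (hψ : ψ ∈ EO S) : tt S v w (φ * ψ) = tt S v w φ * tt S v w ψ := by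
  obtain ⟨h1, h2, h3⟩ := tt_spec hE hvw hφ
  obtain ⟨k1, k2, k3⟩ := tt_spec hE hvw hψ
  refine tt_eq hE hvw ?_ ?_ ?_
  · rw [Subgroup.coe_mul, map_mul, h1, k1]
  · rw [mul_smul, k2, h2]
  · rw [mul_smul, k3, h3]

theorem tt_one (hE : TrE S) {v w : S.X} (hvw : dist v w = 1) : tt S v w 1 = 1 :=
  tt_eq hE hvw (by simp) (one_smul _ _) (one_smul _ _)

theorem tt_inv (hE : TrE S) {v w : S.X} (hvw : dist v w = 1) {φ : Out F} (hφ : φ ∈ EO S) :
    tt S v w φ⁻¹ = (tt S v w φ)⁻¹ := by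
  rw [eq_inv_iff_mul_eq_one, ← tt_mul hE hvw (inv_mem hφ) hφ, inv_mul_cancel, tt_one hE hvw]

theorem tt_smul (hE : TrE S) {v w : S.X} (hvw : dist v w = 1) {φ : Out F} (hφ : φ ∈ EO S)
    (g : F) : tt S (S.ι g • v) (S.ι g • w) φ = S.ι g * tt S v w φ * (S.ι g)⁻¹ := by
  obtain ⟨h1, h2, h3⟩ := tt_spec hE hvw hφ
  refine tt_eq hE (by rwa [dist_smul]) ?_ ?_ ?_
  · simp [mkOut_iota, h1]
  · rw [mul_smul, mul_smul, inv_smul_smul, h2]
  · rw [mul_smul, mul_smul, inv_smul_smul, h3]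

theorem ss_spec {v : S.X} {φ : Out F} (hφ : φ ∈ EO S)
    (h : ∃ a : MulAut F, mkOut F a = φ ∧ ∀ g, S.ι g • v = v → a g = g) :
    mkOut F (ss S v φ) = φ ∧ ∀ g, S.ι g • v = v → (ss S v φ : MulAut F) g = g := by
  refine Classical.epsilon_spec
    (p := fun a : S.E => mkOut F a = φ ∧ ∀ g, S.ι g • v = v → (a : MulAut F) g = g) ?_
  obtain ⟨a, h1, h2⟩ := h
  exact ⟨⟨a, mem_E (h1 ▸ hφ)⟩, h1, h2⟩

/-- The sections of the edges at a vertex with non-trivial group are carried along by every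
automorphism that preserves the elliptic elements. -/
theorem tt_move (hE : TrE S) {K : Set (Out F)} (hK : ∀ φ ∈ K, φ ∈ EO S)
    (hper : ∀ g : F, (∀ φ ∈ K, ∃ a : MulAut F, mkOut F a = φ ∧ a g = g) → Ell S.X (S.ι g))
    {a : MulAut F} (h1 : ∀ g : F, Ell S.X (S.ι g) → Ell S.X (S.ι (a g)))
    (h2 : ∀ g : F, Ell S.X (S.ι g) → Ell S.X (S.ι (a⁻¹ g)))
    (ha : ∀ φ ∈ K, mkOut F a * φ * (mkOut F a)⁻¹ ∈ EO S) {v w v' : S.X} (hvw : dist v w = 1)
    (hv : ∃ g : F, g ≠ 1 ∧ S.ι g • v = v) (hc : Cor S a v v') :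
    ∃ w', dist v' w' = 1 ∧ ∀ φ ∈ K, (tt S v' w' (mkOut F a * φ * (mkOut F a)⁻¹) : MulAut F) =
      a * tt S v w φ * a⁻¹ := by
  obtain ⟨z, hz, hz1, hz2⟩ := walk S (tt S v w '' K) hvw
    (by rintro _ ⟨φ, hφ, rfl⟩; exact (tt_spec hE hvw (hK φ hφ)).2)
    (fun t _ x y hxy => hE t x y hxy)
    (fun g hg => hper g fun φ hφ => ⟨_, (tt_spec hE hvw (hK φ hφ)).1, hg _ ⟨φ, hφ, rfl⟩⟩)
  obtain ⟨z', hz'⟩ := vperm S a h1 h2 hz1
  have hz'' : Cor S a z z' := hz'
  have hne : v' ≠ z' := by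
    rintro rfl
    obtain ⟨g, k1, k2⟩ := hv
    exact hz (fix_uniq k1 ((hz' g).2 ((hc g).1 k2)) k2)
  obtain ⟨w', k1, k2⟩ := IsSimp.geo v' z' hne
  refine ⟨w', k1, fun φ hφ => ?_⟩
  obtain ⟨e1, e2, -⟩ := tt_spec hE hvw (hK φ hφ)
  have e4 : mkOut F (a * tt S v w φ * a⁻¹) = mkOut F a * φ * (mkOut F a)⁻¹ := by
    rw [map_mul, map_mul, map_inv, e1]
  let s : S.E := ⟨a * tt S v w φ * a⁻¹, mem_E (e4 ▸ ha φ hφ)⟩
  have key : ∀ x x' : S.X, Cor S a x x' → (∃ g : F, g ≠ 1 ∧ S.ι g • x = x) →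
      tt S v w φ • x = x → s • x' = x' := fun x x' c1 c2 c3 => by
    refine fix_of_cor (c1.ntr c2) ?_
    have c4 := cor_smul (tt S v w φ) x
    rw [c3] at c4
    have c5 := (c1.symm.trans c4).trans c1
    rwa [← mul_assoc] at c5
  have f1 := key v v' hc hv e2
  have f2 := key z z' hz'' hz1 (hz2 _ ⟨φ, hφ, rfl⟩)
  rw [tt_eq hE k1 (a := s) e4 f1 (k2.fix f1 f2)]

end Tree

end

end Pool.Agent.MP_3ce0a0_al.Q2T12
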