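import Pool.Agent.MP_3ce0a0_al.Q2T12.Walk

/-! Step 4d: sections at edges and their transport. -/

set_option autoImplicit false

namespace Pool.Agent.MP_3ce0a0_al.Q2T12.W

open H79 Q2T1 Q2T15 Q2T13

noncomputable section

section Tree

variable {F : Type} [Group F] (S : FTree F)

/-- The stabiliser of a vertex in `F`. -/
def St (v : S.X) : Subgroup F := (MulAction.stabilizer S.E v).comap S.ι

/-- `a` carries the stabiliser of `v` to the stabiliser of `v'`. -/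
def Mv (a : MulAut F) (v v' : S.X) : Prop := ∀ g : F, S.ι g • v = v ↔ S.ι (a g) • v' = v'

open Classical in
/-- The lift of `t` that fixes `v` and `w`. -/
def tE (v w : S.X) (t : Out F) : S.E :=
  if h : ∃ e : S.E, mkOut F e = t ∧ e • v = v ∧ e • w = w then h.choose else 1

variable {S}

theorem mem_St {v : S.X} {g : F} : g ∈ St S v ↔ S.ι g • v = v := Iff.rfl

theorem mkOut_ι (g : F) : mkOut F (S.ι g) = 1 := by rw [S.coe_ι, mkOut_conj]

theorem lift_eq {e e' : S.E} (h : mkOut F e = mkOut F e') : ∃ g : F, e = S.ι g * e' := by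
  obtain ⟨g, hg⟩ := mkOut_eq_iff.1 h
  exact ⟨g, Subtype.ext (by rw [Subgroup.coe_mul, S.coe_ι, hg])⟩

theorem lift_unique {e e' : S.E} (h : mkOut F e = mkOut F e') {v w : S.X} (hne : v ≠ w)
    (hv : e • v = e' • v) (hw : e • w = e' • w) : e = e' := by
  obtain ⟨g, rfl⟩ := lift_eq h
  rw [mul_smul] at hv hw
  have : g = 1 := by
    by_contra hg
    exact hne (smul_left_cancel e' (fix_unique hg hv hw))
  rw [this, map_one, one_mul]

theorem mv_smul (e : S.E) (v : S.X) : Mv S e v (e • v) := fun g => by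
  rw [ι_smul, smul_left_cancel_iff]

theorem Mv.symm {a : MulAut F} {v v' : S.X} (h : Mv S a v v') : Mv S a⁻¹ v' v := fun g => by
  rw [h, MulAut.apply_inv_self]

theorem Mv.trans {a b : MulAut F} {u v w : S.X} (h : Mv S a u v) (h' : Mv S b v w) :
    Mv S (b * a) u w := fun g => by rw [h, h', MulAut.mul_apply]

theorem Mv.unique {a : MulAut F} {v v₁ v₂ : S.X} (h : Mv S a v v₁) (h' : Mv S a v v₂) {g : F}
    (hg : g ≠ 1) (hv : S.ι g • v = v) : v₁ = v₂ :=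
  fix_unique (g := a g) (by simpa using hg) ((h g).1 hv) ((h' g).1 hv)

theorem Mv.smul_eq {e : S.E} {v v' : S.X} (h : Mv S e v v') {g : F} (hg : g ≠ 1)
    (hv : S.ι g • v = v) : e • v = v' := (mv_smul e v).unique h hg hv

theorem tE_spec {v w : S.X} {t : Out F} (h : ∃ e : S.E, mkOut F e = t ∧ e • v = v ∧ e • w = w) :
    mkOut F (tE S v w t) = t ∧ tE S v w t • v = v ∧ tE S v w t • w = w := by
  rw [tE, dif_pos h]
  exact h.choose_spec

theorem eq_tE {v w : S.X} (hne : v ≠ w) {t : Out F} {e : S.E} (h : mkOut F e = t)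
    (hv : e • v = v) (hw : e • w = w) : e = tE S v w t := by
  obtain ⟨h1, h2, h3⟩ := tE_spec ⟨e, h, hv, hw⟩
  exact lift_unique (h.trans h1.symm) hne (hv.trans h2.symm) (hw.trans h3.symm)

end Tree

section In

variable {α F : Type} [Group F] {ρ : Out (FreeGroup α) →* Out F} {L : Finset α} {S : FTree F}
  {D : Subgroup (FreeGroup α)}

theorem ex_lift (H : In4d ρ L S D) {k : α × Bool → FreeGroup α} (hk : k ∈ KK D L) :
    ∃ e : S.E, mkOut F e = ρ (multiO (L : Set α)ᶜ k) := by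
  obtain ⟨a, ha⟩ := mkOut_surjective F (ρ (multiO (L : Set α)ᶜ k))
  exact ⟨⟨a, H.mem k hk a ha⟩, ha⟩

theorem ex_fix (H : In4d ρ L S D) (e : S.E) {v w : S.X} (h : dist v w = 1) :
    ∃ e' : S.E, mkOut F e' = mkOut F e ∧ e' • v = v ∧ e' • w = w := by
  obtain ⟨g, h1, h2⟩ := H.trivE e v w h
  refine ⟨(S.ι g)⁻¹ * e, ?_, ?_, ?_⟩
  · rw [Subgroup.coe_mul, map_mul, ← map_inv, mkOut_ι, one_mul]
  · rw [mul_smul, ← h1, inv_smul_smul]
  · rw [mul_smul, ← h2, inv_smul_smul]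

theorem ex_fixV (H : In4d ρ L S D) (e : S.E) (v : S.X) :
    ∃ e' : S.E, mkOut F e' = mkOut F e ∧ e' • v = v := by
  obtain ⟨g, h1⟩ := H.trivV e v
  refine ⟨(S.ι g)⁻¹ * e, ?_, ?_⟩
  · rw [Subgroup.coe_mul, map_mul, ← map_inv, mkOut_ι, one_mul]
  · rw [mul_smul, ← h1, inv_smul_smul]

/-- The section at an edge. -/
theorem tE_K (H : In4d ρ L S D) {k : α × Bool → FreeGroup α} (hk : k ∈ KK D L) {v w : S.X}
    (h : dist v w = 1) :
    mkOut F (tE S v w (ρ (multiO (L : Set α)ᶜ k))) = ρ (multiO (L : Set α)ᶜ k) ∧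
      tE S v w (ρ (multiO (L : Set α)ᶜ k)) • v = v ∧
      tE S v w (ρ (multiO (L : Set α)ᶜ k)) • w = w := by
  obtain ⟨e, he⟩ := ex_lift H hk
  obtain ⟨e', h1, h2⟩ := ex_fix H e h
  exact tE_spec ⟨e', h1.trans he, h2⟩

open Classical in
theorem single_mem_KK {B : Subgroup (FreeGroup α)} {h : α × Bool} (hh : h.1 ∈ L)
    {b : FreeGroup α} (hb : b ∈ B) : (Pi.mulSingle h b : α × Bool → FreeGroup α) ∈ KK B L := by
  intro h'
  by_cases e : h' = h
  · subst e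
    rw [Pi.mulSingle_eq_same]
    exact ⟨hb, fun hn => absurd hh hn⟩
  · rw [Pi.mulSingle_eq_of_ne e]
    exact ⟨B.one_mem, fun _ => rfl⟩

open Classical in
theorem multiO_single {h : α × Bool} (hh : h.1 ∈ L) {b : FreeGroup α}
    (hb : b ∈ std (L : Set α)ᶜ) : multiO (L : Set α)ᶜ (Pi.mulSingle h b) = tau h b := by
  rw [multiO_apply, multi_mulSingle (by simpa using hh) hb, tau_apply]

theorem mem_tau (H : In4d ρ L S D) {h : α × Bool} (hh : h.1 ∈ L) {b : FreeGroup α}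
    (hb : b ∈ D) {a : MulAut F} (ha : mkOut F a = ρ (tau h b)) : a ∈ S.E :=
  H.mem _ (single_mem_KK hh hb) a (by rw [multiO_single hh (H.chr.le hb), ha])

/-- The section at an edge, for one label. -/
theorem tE_tau (H : In4d ρ L S D) {h : α × Bool} (hh : h.1 ∈ L) {b : FreeGroup α}
    (hb : b ∈ D) {v w : S.X} (hvw : dist v w = 1) :
    mkOut F (tE S v w (ρ (tau h b))) = ρ (tau h b) ∧ tE S v w (ρ (tau h b)) • v = v ∧
      tE S v w (ρ (tau h b)) • w = w := by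
  have := tE_K H (single_mem_KK hh hb) hvw
  rwa [multiO_single hh (H.chr.le hb)] at this

/-- A subgroup that contains the functions supported at one label contains `KK`. -/
theorem KK_le [Finite α] {B : Subgroup (FreeGroup α)} {P : Subgroup (α × Bool → FreeGroup α)}
    (h : ∀ h : α × Bool, h.1 ∈ L → ∀ b ∈ B, (open Classical in Pi.mulSingle h b) ∈ P) :
    KK B L ≤ P := by
  classical
  intro k hk
  refine Subgroup.pi_mem_of_mulSingle_mem k fun i => ?_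
  by_cases hi : i.1 ∈ L
  · exact h i hi _ (hk i).1
  · rw [(hk i).2 hi, Pi.mulSingle_one]
    exact P.one_mem

theorem fix_nbr (H : In4d ρ L S D) {v w : S.X} (h : dist v w = 1)
    (hv : ∀ g : F, S.ι g • v = v → g = 1) {e : S.E} (he : e • v = v) : e • w = w := by
  obtain ⟨g, h1, h2⟩ := H.trivE e v w h
  rw [hv g (h1.trans he), map_one, one_smul] at h2
  exact h2.symm

theorem walk_in (H : In4d ρ L S D) {v w : S.X} (hvw : dist v w = 1) :
    ∃ v', v' ≠ v ∧ (∃ g : F, g ≠ 1 ∧ S.ι g • v' = v') ∧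
      ∀ e : S.E, e • v = v → e • w = w → e • v' = v' := by
  obtain ⟨z, h1, h2, h3⟩ := walk S {e | e • v = v ∧ e • w = w} hvw (fun _ h => h)
    (fun t _ => H.trivE t) fun g hg => H.per g fun k hk => by
      obtain ⟨t1, t2⟩ := tE_K H hk hvw
      exact ⟨_, t1, hg _ t2⟩
  exact ⟨z, h1, h2, fun e e1 e2 => h3 e ⟨e1, e2⟩⟩

theorem ex_Mv (H : In4d ρ L S D) {γ : MulAut (FreeGroup α)} (hγ : γ ∈ NA (L : Set α)ᶜ)
    {a : MulAut F} (ha : mkOut F a = ρ (mkOut _ γ)) {v : S.X} {g : F} (hg : g ≠ 1)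
    (hv : S.ι g • v = v) : ∃ v', Mv S a v v' :=
  vperm S a (H.inv γ hγ a ha)
    (H.inv γ⁻¹ (inv_mem hγ) a⁻¹ (by rw [map_inv, ha, map_inv, map_inv])) ⟨g, hg, hv⟩

/-- The sections at the edges at non-trivial vertices are permuted by the lifts of `NA`. -/
theorem transport (H : In4d ρ L S D) {γ : MulAut (FreeGroup α)}
    (hγ : γ ∈ NA (L : Set α)ᶜ) {a : MulAut F} (ha : mkOut F a = ρ (mkOut _ γ)) {v w : S.X}
    (hvw : dist v w = 1) {g : F} (hg : g ≠ 1) (hv : S.ι g • v = v) :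
    ∃ v₁ w₁, dist v₁ w₁ = 1 ∧ Mv S a v v₁ ∧ ∀ e e' : S.E, (e' : MulAut F) = a * e * a⁻¹ →
      e • v = v → e • w = w → e' • v₁ = v₁ ∧ e' • w₁ = w₁ := by
  obtain ⟨v', hb, ⟨g', hg', hv'⟩, hfix⟩ := walk_in H hvw
  obtain ⟨v₁, m1⟩ := ex_Mv H hγ ha hg hv
  obtain ⟨v₂, m2⟩ := ex_Mv H hγ ha hg' hv'
  have hne : v₁ ≠ v₂ := by
    rintro rfl
    exact hb (fix_unique hg ((m2 g).2 ((m1 g).1 hv)) hv)
  obtain ⟨w₁, hd, hb1⟩ := IsSimp.geo v₁ v₂ hne
  have key : ∀ (e e' : S.E) (x y : S.X) (c : F), (e' : MulAut F) = a * e * a⁻¹ → c ≠ 1 →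
      S.ι c • x = x → Mv S a x y → e • x = x → e' • y = y := by
    intro e e' x y c he hc hx m hex
    have m0 : Mv S e x x := by simpa only [hex] using mv_smul e x
    have m3 : Mv S e' y y := by
      rw [he, mul_assoc]
      exact (m.symm.trans m0).trans m
    exact m3.smul_eq (g := a c) (by simpa using hc) ((m c).1 hx)
  refine ⟨v₁, w₁, hd, m1, fun e e' he e1 e2 => ?_⟩
  have f1 := key e e' v v₁ g he hg hv m1 e1
  exact ⟨f1, hb1.fix f1 (key e e' v' v₂ g' he hg' hv' m2 (hfix e e1 e2))⟩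

/-- Transport for the sections of one label. -/
theorem transport_tau (H : In4d ρ L S D) {γ : MulAut (FreeGroup α)}
    (hγ : γ ∈ NA (L : Set α)ᶜ) {a : MulAut F} (ha : mkOut F a = ρ (mkOut _ γ)) {v w : S.X}
    (hvw : dist v w = 1) {g : F} (hg : g ≠ 1) (hv : S.ι g • v = v) :
    ∃ v₁ w₁, dist v₁ w₁ = 1 ∧ Mv S a v v₁ ∧ ∀ h : α × Bool, h.1 ∈ L → ∀ b ∈ D,
      (tE S v₁ w₁ (ρ (tau h (γ b))) : MulAut F) = a * tE S v w (ρ (tau h b)) * a⁻¹ := by
  obtain ⟨v₁, w₁, hd, m, ht⟩ := transport H hγ ha hvw hg hv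
  refine ⟨v₁, w₁, hd, m, fun h hh b hb => ?_⟩
  obtain ⟨t1, t2, t3⟩ := tE_tau H hh hb hvw
  have hl : mkOut F (a * tE S v w (ρ (tau h b)) * a⁻¹) = ρ (tau h (γ b)) := by
    rw [map_mul, map_mul, map_inv, ha, t1, ← map_inv, ← map_mul, ← map_mul,
      NA_conj_tau hγ (by simpa using hh) (mem_std_compl (by simpa using hh) (H.chr.le hb))]
  have hm := mem_tau H hh (H.chr.inv γ hγ b hb) hl
  obtain ⟨f1, f2⟩ := ht _ ⟨_, hm⟩ rfl t2 t3
  rw [← eq_tE (ne_of_adj hd) (e := ⟨_, hm⟩) hl f1 f2]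

theorem tE_mul (H : In4d ρ L S D) {h : α × Bool} (hh : h.1 ∈ L) {b b' : FreeGroup α}
    (hb : b ∈ D) (hb' : b' ∈ D) {v w : S.X} (hvw : dist v w = 1) :
    tE S v w (ρ (tau h (b * b'))) = tE S v w (ρ (tau h b)) * tE S v w (ρ (tau h b')) := by
  obtain ⟨t1, t2, t3⟩ := tE_tau H hh hb hvw
  obtain ⟨s1, s2, s3⟩ := tE_tau H hh hb' hvw
  refine (eq_tE (ne_of_adj hvw) ?_ ?_ ?_).symm
  · rw [Subgroup.coe_mul, map_mul, t1, s1, map_mul, map_mul]
  · rw [mul_smul, s2, t2]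
  · rw [mul_smul, s3, t3]

/-- The section at a translated edge. -/
theorem tE_conj (H : In4d ρ L S D) {h : α × Bool} (hh : h.1 ∈ L) {b : FreeGroup α}
    (hb : b ∈ D) {v w : S.X} (hvw : dist v w = 1) (g : F) :
    tE S (S.ι g • v) (S.ι g • w) (ρ (tau h b)) = S.ι g * tE S v w (ρ (tau h b)) * (S.ι g)⁻¹ := by
  obtain ⟨t1, t2, t3⟩ := tE_tau H hh hb hvw
  refine (eq_tE (ne_of_adj (by rw [dist_smul, hvw])) ?_ ?_ ?_).symm
  · rw [Subgroup.coe_mul, Subgroup.coe_mul, map_mul, map_mul, ← map_inv, mkOut_ι, mkOut_ι, t1,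
      one_mul, mul_one]
  · rw [mul_smul, mul_smul, inv_smul_smul, t2]
  · rw [mul_smul, mul_smul, inv_smul_smul, t3]

end In

end

end Pool.Agent.MP_3ce0a0_al.Q2T12.W
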